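import Mathlib
import Pool.Agent.helper60.ECD.Cut

/-!
# Common definitions of project LFP (MP_20b59a_co, Q2)

Goal: every planar graph on `n` vertices has an induced linear forest on at least `23 n / 68`
vertices (`> n / 3`).

Part KS (cubic multigraphs given by two end functions `a b : E → V`, library of helper60
`Pool.Agent.helper60.ECD.Cut`: `cutS a b A` is the set of edges with exactly one end in `A`,
`cut a b A` its size, `starS a b x` the set of edges at `x`).

Part LF (induced linear forests in graphs without 3- and 4-cycles).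

Part TRI (triangulated spheres).
-/

namespace Pool.Agent.helper54.LFP

open Finset Pool.Agent.helper60.ECD

section KS

variable {V E : Type} [Fintype V] [Fintype E] [DecidableEq V] [DecidableEq E]

/-- a loopless cubic multigraph -/
def Cubic (a b : E → V) : Prop := (∀ e, a e ≠ b e) ∧ ∀ x, (starS a b x).card = 3

/-- 3-edge-connected -/
def Conn3 (a b : E → V) : Prop := ∀ A : Finset V, A.Nonempty → Aᶜ.Nonempty → 3 ≤ cut a b A

/-- `M` is a perfect matching -/
def PM (a b : E → V) (M : Finset E) : Prop := ∀ x, ∃! e, e ∈ M ∧ (a e = x ∨ b e = x)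

/-- `M` contains no nonempty edge cut with fewer than five edges -/
def NoSmall (a b : E → V) (M : Finset E) : Prop :=
  ∀ A : Finset V, A.Nonempty → Aᶜ.Nonempty → cutS a b A ⊆ M → 5 ≤ cut a b A

/-- The induction hypothesis: the theorem of Kaiser and Skrekovski (with a prescribed edge) for
all graphs with fewer than `n` vertices. -/
def KSn (n : ℕ) : Prop :=
  ∀ (V E : Type) [Fintype V] [Fintype E] [DecidableEq V] [DecidableEq E] (a b : E → V),
    Fintype.card V < n → Cubic a b → Conn3 a b →
      ∀ e0 : E, ∃ M : Finset E, e0 ∈ M ∧ PM a b M ∧ NoSmall a b M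

/-- `N` is a set of edges touching `X` which covers every vertex of `X` exactly once
(a perfect matching seen from the side `X` of an edge cut). -/
def SPM (a b : E → V) (X : Finset V) (N : Finset E) : Prop :=
  (∀ e ∈ N, a e ∈ X ∨ b e ∈ X) ∧ ∀ x ∈ X, ∃! e, e ∈ N ∧ (a e = x ∨ b e = x)

/-- no small cut `cutS Y` with `Y ⊆ X` is contained in `N` -/
def G0 (a b : E → V) (X : Finset V) (N : Finset E) : Prop :=
  ∀ Y ⊆ X, Y.Nonempty → cutS a b Y ⊆ N → 5 ≤ cut a b Y

/-- the additional property of a side matching using no edge of the cut: `P` is a pair of edges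
of `cutS X`; whenever `Y ⊆ X` touches exactly the edges `P` of `cutS X` and all other edges of
`cutS Y` are in `N`, then `cutS Y` has at least six edges (at least four inside `X`). -/
def G1 (a b : E → V) (X : Finset V) (N P : Finset E) : Prop :=
  ∀ Y ⊆ X, P ⊆ cutS a b Y → cutS a b Y ⊆ N ∪ P → 6 ≤ cut a b Y

end KS

section LF

variable {V : Type} [Fintype V] [DecidableEq V] (H : SimpleGraph V) [DecidableRel H.Adj]

/-- degree of `v` into the set `U` -/
def dg (U : Finset V) (v : V) : ℕ := (U.filter (fun w => H.Adj v w)).card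

/-- twice the number of edges inside `U` -/
def e2 (U : Finset V) : ℕ := ∑ v ∈ U, dg H U v

/-- `L` induces a linear forest (combinatorial form: maximum degree at most two, and every
nonempty subset has a vertex of degree at most one in it) -/
def Lin (L : Finset V) : Prop :=
  (∀ v ∈ L, dg H L v ≤ 2) ∧ ∀ Z ⊆ L, Z.Nonempty → ∃ v ∈ Z, dg H Z v ≤ 1

/-- `U` contains an induced linear forest `L` with `34 |L| ≥ 33 |U| - 10 e(U) + c` -/
def OKc (U : Finset V) (c : ℕ) : Prop :=
  ∃ L ⊆ U, Lin H L ∧ 33 * U.card + c ≤ 34 * L.card + 5 * e2 H U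

/-- no cycles of length 3 or 4 -/
def Girth5 : Prop :=
  (∀ u v w, H.Adj u v → H.Adj v w → H.Adj w u → False) ∧
  (∀ u v w x, u ≠ w → v ≠ x → H.Adj u v → H.Adj v w → H.Adj w x → H.Adj x u → False)

end LF

section TRI

/-- the edges of a family of triangles: the pairs contained in a triangle -/
def edgesOf {V : Type} [Fintype V] [DecidableEq V] (faces : Finset (Finset V)) :
    Finset (Finset V) :=
  univ.filter (fun p => p.card = 2 ∧ ∃ t ∈ faces, p ⊆ t)

/-- A triangulated sphere with vertex set `V`: a finite set of triangles such that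
every edge lies in exactly two triangles, every vertex lies in a triangle, any two triangles are
joined by a chain of triangles in which consecutive ones share an edge, and
`V - E + F = 2`. -/
structure SphereTri (V : Type) [Fintype V] [DecidableEq V] where
  /-- the triangles -/
  faces : Finset (Finset V)
  card_face : ∀ t ∈ faces, t.card = 3
  two_faces : ∀ p ∈ edgesOf faces, (faces.filter (fun t => p ⊆ t)).card = 2
  covers : ∀ v : V, ∃ t ∈ faces, v ∈ t
  connected : ∀ s ∈ faces, ∀ t ∈ faces,
    Relation.ReflTransGen (fun p q => p ∈ faces ∧ q ∈ faces ∧ (p ∩ q).card = 2) s t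
  euler : Fintype.card V + faces.card = (edgesOf faces).card + 2

variable {V : Type} [Fintype V] [DecidableEq V]

/-- adjacency in the graph (1-skeleton) of a triangulated sphere -/
def SphereTri.graph (T : SphereTri V) : SimpleGraph V where
  Adj u v := u ≠ v ∧ ∃ t ∈ T.faces, u ∈ t ∧ v ∈ t
  symm := ⟨fun _ _ ⟨h1, t, h2, h3, h4⟩ => ⟨h1.symm, t, h2, h4, h3⟩⟩
  loopless := ⟨fun _ h => h.1 rfl⟩

end TRI

end Pool.Agent.helper54.LFP
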