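import Mathlib
import Pool.Agent.helper54.LFP.Defs

/-! [LFP-T5] The combinatorial form of acyclicity. -/

namespace Pool.Agent.helper54.LFP

open Finset

variable {V : Type} [Fintype V] [DecidableEq V]

/-- Proof: a cycle of the induced graph has a support `Z ⊆ L` in which every vertex has at least
two neighbours (`SimpleGraph.Walk.IsCycle`, e.g. `IsCycle.ncard_neighborSet_toSubgraph_eq_two` or
`SimpleGraph.isAcyclic_iff_forall_edge_isBridge`, or use that a finite graph which has a cycle has a
subgraph of minimum degree two), contradicting `hL`. -/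
theorem acyclic_of_degenerate (G : SimpleGraph V) [DecidableRel G.Adj] (L : Finset V)
    (hL : ∀ Z ⊆ L, Z.Nonempty → ∃ v ∈ Z, (Z.filter (fun w => G.Adj v w)).card ≤ 1) :
    (G.induce (L : Set V)).IsAcyclic := by
  intro u p hp
  -- the set of the vertices of the cycle
  set Z : Finset V := p.support.toFinset.image Subtype.val with hZ
  have hZL : Z ⊆ L := by
    intro x hx
    rw [hZ, mem_image] at hx
    obtain ⟨y, _, rfl⟩ := hx
    exact y.2
  have hne : Z.Nonempty := ⟨u, by
    rw [hZ, mem_image]
    exact ⟨u, by simp, rfl⟩⟩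
  obtain ⟨v, hv, hcard⟩ := hL Z hZL hne
  rw [hZ, mem_image] at hv
  obtain ⟨v', hv', rfl⟩ := hv
  have hv2 : v' ∈ p.support := by simpa using hv'
  have h2 := hp.ncard_neighborSet_toSubgraph_eq_two hv2
  have hinj : Set.InjOn (fun x : ((L : Set V) : Type) => (x : V))
      (p.toSubgraph.neighborSet v') := Subtype.val_injective.injOn
  have h3 : ((fun x : ((L : Set V) : Type) => (x : V)) '' p.toSubgraph.neighborSet v') ⊆
      ((Z.filter (fun w => G.Adj v' w) : Finset V) : Set V) := by
    rintro _ ⟨w, hw, rfl⟩
    have hw1 : p.toSubgraph.Adj v' w := hw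
    rw [mem_coe, mem_filter]
    refine ⟨?_, ?_⟩
    · rw [hZ, mem_image]
      refine ⟨w, ?_, rfl⟩
      rw [List.mem_toFinset]
      exact (p.mem_verts_toSubgraph).1 (p.toSubgraph.edge_vert hw1.symm)
    · have := hw1.adj_sub
      simpa using this
  have h4 := Set.ncard_le_ncard h3 (Finset.finite_toSet _)
  rw [hinj.ncard_image, h2, Set.ncard_coe_finset] at h4
  omega

end Pool.Agent.helper54.LFP
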