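import Mathlib
import Pool.Agent.helper54.LFP.Defs

/-! [LFP-K1] Elementary facts on edge cuts and perfect matchings. -/

namespace Pool.Agent.helper54.LFP

open Finset Pool.Agent.helper60.ECD

variable {V E : Type} [Fintype V] [Fintype E] [DecidableEq V] [DecidableEq E]

/-- Proof: count edge by edge. An edge with both ends in `Y` contributes `0` to `cut Y`; it
contributes `2` on both sides if exactly one end is in `X`, and `0` otherwise. An edge with exactly
one end in `Y` contributes `1` on both sides. (Write all cardinalities as sums over `e : E` of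
`if`s, as in `sum_deg` of `Pool.Agent.helper60.ECD.Cut`.) -/
theorem cut_split (a b : E → V) (X Y : Finset V) :
    cut a b Y + 2 * ((cutS a b X).filter (fun e => a e ∈ Y ∧ b e ∈ Y)).card =
      cut a b (Y ∩ X) + cut a b (Y ∩ Xᶜ) := by
  rw [cut, cut, cut, cutS, cutS, cutS, cutS, Finset.filter_filter, Finset.card_filter,
    Finset.card_filter, Finset.card_filter, Finset.card_filter, Finset.mul_sum,
    ← Finset.sum_add_distrib, ← Finset.sum_add_distrib]
  refine Finset.sum_congr rfl fun e _ => ?_
  simp only [Finset.mem_inter, Finset.mem_compl]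
  by_cases h1 : a e ∈ Y <;> by_cases h2 : b e ∈ Y <;> by_cases h3 : a e ∈ X <;>
    by_cases h4 : b e ∈ X <;> simp [h1, h2, h3, h4]

/-- Proof: send an edge of `cutS a b A` to its end in `A`; injective because `M` is a perfect
matching. -/
theorem cut_le_card {a b : E → V} {M : Finset E} (hM : PM a b M) {A : Finset V}
    (h : cutS a b A ⊆ M) : cut a b A ≤ A.card := by
  have hend : ∀ e ∈ cutS a b A, (if a e ∈ A then a e else b e) ∈ A := by
    intro e he
    rw [mem_cutS] at he
    by_cases h1 : a e ∈ A
    · rw [if_pos h1]
      exact h1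
    · rw [if_neg h1]
      by_contra h2
      exact he ⟨fun h => absurd h h1, fun h => absurd h h2⟩
  have hinc : ∀ e : E, a e = (if a e ∈ A then a e else b e) ∨
      b e = (if a e ∈ A then a e else b e) := by
    intro e
    by_cases h1 : a e ∈ A
    · rw [if_pos h1]
      exact Or.inl rfl
    · rw [if_neg h1]
      exact Or.inr rfl
  refine Finset.card_le_card_of_injOn (fun e => if a e ∈ A then a e else b e) hend ?_
  intro e he e' he' hee
  obtain ⟨g, _, hg⟩ := hM (if a e ∈ A then a e else b e)
  have h1 := hg e ⟨h he, hinc e⟩
  have h2 : e' = g := by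
    refine hg e' ⟨h he', ?_⟩
    have h3 : (if a e ∈ A then a e else b e) = (if a e' ∈ A then a e' else b e') := hee
    rw [h3]
    exact hinc e'
  rw [h1, h2]

end Pool.Agent.helper54.LFP
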