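import Mathlib
import Pool.Agent.helper54.LFP.Defs

/-! [LFP-K2] Parity facts for perfect matchings of cubic multigraphs. -/

namespace Pool.Agent.helper54.LFP

open Finset Pool.Agent.helper60.ECD

variable {V E : Type} [Fintype V] [Fintype E] [DecidableEq V] [DecidableEq E]

/-- Proof: every vertex of `Y ⊆ X` lies on exactly two edges outside `N` (three edges, exactly one
of them in `N`). Double counting: `2 |Y| = 2 · #(edges outside N with both ends in Y) +
#(edges outside N with exactly one end in Y)`. -/
theorem even_side {a b : E → V} (hC : Cubic a b) {X : Finset V} {N : Finset E}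
    (hN : SPM a b X N) {Y : Finset V} (hY : Y ⊆ X) :
    Even ((cutS a b Y).filter (fun e => e ∉ N)).card := by
  have h1 : ∀ x ∈ Y, ((starS a b x).filter (fun e => e ∉ N)).card = 2 := by
    intro x hx
    have h3 := hC.2 x
    obtain ⟨e₀, he₀, huniq⟩ := hN.2 x (hY hx)
    have h4 : (starS a b x).filter (fun e => e ∈ N) = {e₀} := by
      ext e
      rw [mem_filter, mem_singleton, starS, mem_filter]
      constructor
      · rintro ⟨⟨_, h⟩, h'⟩
        exact huniq e ⟨h', h⟩
      · rintro rfl
        exact ⟨⟨mem_univ _, he₀.2⟩, he₀.1⟩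
    have h5 := card_filter_add_card_filter_not (s := starS a b x) (fun e => e ∈ N)
    rw [h4, card_singleton] at h5
    omega
  have h2 : ∑ x ∈ Y, ((starS a b x).filter (fun e => e ∉ N)).card = 2 * Y.card := by
    rw [sum_congr rfl h1, sum_const, smul_eq_mul, mul_comm]
  have h3 : ∑ x ∈ Y, ((starS a b x).filter (fun e => e ∉ N)).card =
      ∑ e ∈ univ.filter (fun e : E => e ∉ N),
        ((if a e ∈ Y then 1 else 0) + (if b e ∈ Y then 1 else 0)) := by
    have h4 : ∀ x, ((starS a b x).filter (fun e => e ∉ N)).card =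
        ∑ e ∈ univ.filter (fun e : E => e ∉ N),
          ((if a e = x then 1 else 0) + (if b e = x then 1 else 0)) := by
      intro x
      rw [starS, filter_filter, card_filter, sum_filter]
      apply sum_congr rfl
      intro e _
      have hab := hC.1 e
      by_cases hN' : e ∈ N
      · simp [hN']
      · by_cases ha : a e = x
        · have hb : b e ≠ x := fun h => hab (ha.trans h.symm)
          simp [hN', ha, hb]
        · by_cases hb : b e = x <;> simp [hN', ha, hb]
    rw [sum_congr rfl (fun x _ => h4 x), sum_comm]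
    apply sum_congr rfl
    intro e _
    rw [sum_add_distrib, sum_ite_eq, sum_ite_eq]
  have h4 : ∑ e ∈ univ.filter (fun e : E => e ∉ N),
        ((if a e ∈ Y then 1 else 0) + (if b e ∈ Y then 1 else 0)) =
      2 * (∑ e ∈ univ.filter (fun e : E => e ∉ N), (if a e ∈ Y ∧ b e ∈ Y then 1 else 0)) +
      ((cutS a b Y).filter (fun e => e ∉ N)).card := by
    rw [cutS, filter_filter, card_filter, mul_sum, sum_filter, sum_filter, ← sum_add_distrib]
    apply sum_congr rfl
    intro e _
    by_cases h1 : e ∈ N <;> by_cases h2 : a e ∈ Y <;> by_cases h3 : b e ∈ Y <;> simp [h1, h2, h3]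
  rw [h2] at h3
  rw [h4] at h3
  refine ⟨Y.card - ∑ e ∈ univ.filter (fun e : E => e ∉ N), (if a e ∈ Y ∧ b e ∈ Y then 1 else 0), ?_⟩
  omega

/-- Proof: apply `even_side` with `X := univ`, `N := M` and `Y := Y ∩ X`. An edge outside `M` is
not in `cutS a b Y`, so both its ends are in `Y` or none is; hence an edge `e ∉ M` is in
`cutS a b (Y ∩ X)` iff it is in `cutS a b X` and `a e ∈ Y`. -/
theorem even_F {a b : E → V} (hC : Cubic a b) {M : Finset E} (hM : PM a b M)
    (X : Finset V) {Y : Finset V} (hY : cutS a b Y ⊆ M) :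
    Even ((cutS a b X).filter (fun e => e ∉ M ∧ a e ∈ Y)).card := by
  have hS : SPM a b univ M := ⟨fun e _ => Or.inl (mem_univ _), fun x _ => hM x⟩
  have h1 := even_side hC hS (subset_univ (Y ∩ X))
  have h2 : (cutS a b (Y ∩ X)).filter (fun e => e ∉ M) =
      (cutS a b X).filter (fun e => e ∉ M ∧ a e ∈ Y) := by
    ext e
    rw [mem_filter, mem_filter, cutS, cutS, mem_filter, mem_filter, mem_inter, mem_inter]
    by_cases he : e ∈ M
    · simp [he]
    · have h3 : (a e ∈ Y ↔ b e ∈ Y) := by
        by_contra h
        exact he (hY (by rw [cutS, mem_filter]; exact ⟨mem_univ _, h⟩))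
      by_cases ha : a e ∈ Y
      · have hb := h3.1 ha
        simp [he, ha, hb]
      · have hb : b e ∉ Y := fun h => ha (h3.2 h)
        simp [he, ha, hb]
  rw [← h2]
  exact h1

end Pool.Agent.helper54.LFP
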