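import Mathlib
import Pool.Agent.helper54.LFP.KSIdent
import Pool.Agent.helper54.LFP.KSPar

/-! [LFP-K3] Gluing side matchings over an edge cut. Proofs by helper59. -/

namespace Pool.Agent.helper54.LFP

open Finset Pool.Agent.helper60.ECD

variable {V E : Type} [Fintype V] [Fintype E] [DecidableEq V] [DecidableEq E]

private theorem KSGlue_cross {a b : E → V} {X : Finset V} {x : V} {e : E} (hx : x ∈ X)
    (hex : a e = x ∨ b e = x) (h : a e ∈ Xᶜ ∨ b e ∈ Xᶜ) : e ∈ cutS a b X := by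
  rw [mem_cutS]
  rw [mem_compl, mem_compl] at h
  rcases hex with h1 | h1
  · rw [h1] at h ⊢
    tauto
  · rw [h1] at h ⊢
    tauto

private theorem KSGlue_aux {a b : E → V} {X : Finset V} {N1 N2 : Finset E}
    (h2 : ∀ e ∈ N2, a e ∈ Xᶜ ∨ b e ∈ Xᶜ) (hag : ∀ e ∈ cutS a b X, e ∈ N2 → e ∈ N1)
    {Y : Finset V} (hY : cutS a b Y ⊆ N1 ∪ N2) (hF : ∀ e ∈ cutS a b X, e ∉ N1 → a e ∉ Y) :
    cutS a b (Y ∩ X) ⊆ N1 := by
  intro e he
  rw [mem_cutS, mem_inter, mem_inter] at he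
  by_contra hN
  have h3 : e ∈ cutS a b Y → e ∈ N2 := fun h => (mem_union.1 (hY h)).resolve_left hN
  rw [mem_cutS] at h3
  by_cases hc : e ∈ cutS a b X
  · have h4 := hF e hc hN
    have h5 : e ∈ N2 := h3 (by tauto)
    exact hN (hag e hc h5)
  · rw [mem_cutS] at hc
    have h5 : e ∈ N2 := h3 (by tauto)
    have h6 := h2 e h5
    rw [mem_compl, mem_compl] at h6
    tauto

/-- Proof: for `x ∈ X` take the unique edge of `N1` at `x`. An edge of `N2` at `x` touches `X` (at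
`x`) and `Xᶜ` (as an edge of `N2`), so it is in `cutS a b X`, hence in `N1`. Symmetric for
`x ∉ X` (`cutS_compl`). -/
theorem glue_PM {a b : E → V} {X : Finset V} {N1 N2 : Finset E} (h1 : SPM a b X N1)
    (h2 : SPM a b Xᶜ N2) (hag : ∀ e ∈ cutS a b X, (e ∈ N1 ↔ e ∈ N2)) : PM a b (N1 ∪ N2) := by
  intro x
  by_cases hx : x ∈ X
  · obtain ⟨e, ⟨heN, hex⟩, hu⟩ := h1.2 x hx
    refine ⟨e, ⟨mem_union_left _ heN, hex⟩, ?_⟩
    rintro e' ⟨he', hex'⟩
    rcases mem_union.1 he' with h | h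
    · exact hu e' ⟨h, hex'⟩
    · have hc : e' ∈ cutS a b X := KSGlue_cross hx hex' (h2.1 e' h)
      exact hu e' ⟨(hag e' hc).2 h, hex'⟩
  · obtain ⟨e, ⟨heN, hex⟩, hu⟩ := h2.2 x (mem_compl.2 hx)
    refine ⟨e, ⟨mem_union_right _ heN, hex⟩, ?_⟩
    rintro e' ⟨he', hex'⟩
    rcases mem_union.1 he' with h | h
    · have hc : e' ∈ cutS a b Xᶜ := KSGlue_cross (mem_compl.2 hx) hex' (by
        rw [compl_compl]; exact h1.1 e' h)
      rw [cutS_compl] at hc
      exact hu e' ⟨(hag e' hc).1 h, hex'⟩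
    · exact hu e' ⟨h, hex'⟩

/-- Proof: put `Y1 = Y ∩ X`, `Y2 = Y ∩ Xᶜ`.
(1) `cutS Y1 ⊆ N1`: let `e ∈ cutS Y1`, `p ∈ Y1` its end in `Y1`, `q` the other end. If `q ∈ Y`,
then `q ∉ X`, so `e ∈ cutS X` and both ends are in `Y`, and `hF` gives `e ∈ N1`. If `q ∉ Y` then
`e ∈ cutS Y ⊆ N1 ∪ N2`; if `e ∈ N2` then `e` touches `Xᶜ` and `X`, so `e ∈ cutS X` and `e ∈ N1`
by `hag`. (2) `cutS Y2 ⊆ N2` in the same way.
(3) If `Y1 = ∅` then `Y = Y2` and `G0` for `N2` gives the claim; same if `Y2 = ∅`. If both are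
nonempty then `cut Y1, cut Y2 ≥ 5`, and by `cut_split`, `cut Y = cut Y1 + cut Y2 - 2 k` where `k`
is the number of edges of `cutS X` with both ends in `Y`; these are in `cutS X ∩ N1` by `hF`, so
`k ≤ 2` and `cut Y ≥ 6`. -/
theorem glue_cut {a b : E → V} {X : Finset V} {N1 N2 : Finset E} (h1 : SPM a b X N1)
    (h2 : SPM a b Xᶜ N2) (hag : ∀ e ∈ cutS a b X, (e ∈ N1 ↔ e ∈ N2))
    (g1 : G0 a b X N1) (g2 : G0 a b Xᶜ N2) (hle : (cutS a b X ∩ N1).card ≤ 2)
    {Y : Finset V} (hYne : Y.Nonempty) (hY : cutS a b Y ⊆ N1 ∪ N2)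
    (hF : ∀ e ∈ cutS a b X, e ∉ N1 → a e ∉ Y) : 5 ≤ cut a b Y := by
  have c1 : cutS a b (Y ∩ X) ⊆ N1 :=
    KSGlue_aux h2.1 (fun e he => (hag e he).2) hY hF
  have c2 : cutS a b (Y ∩ Xᶜ) ⊆ N2 := by
    refine KSGlue_aux (X := Xᶜ) (N1 := N2) (N2 := N1) ?_ ?_ ?_ ?_
    · intro e he
      rw [compl_compl]
      exact h1.1 e he
    · intro e he
      rw [cutS_compl] at he
      exact (hag e he).1
    · rw [union_comm]
      exact hY
    · intro e he hN
      rw [cutS_compl] at he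
      exact hF e he (fun h => hN ((hag e he).1 h))
  have hsp := cut_split a b X Y
  have hk : ((cutS a b X).filter (fun e => a e ∈ Y ∧ b e ∈ Y)).card ≤ 2 := by
    refine le_trans (card_le_card ?_) hle
    intro e he
    rw [mem_filter] at he
    rw [mem_inter]
    refine ⟨he.1, ?_⟩
    by_contra hN
    exact hF e he.1 hN he.2.1
  have e1 : Y ∩ X = ∅ ∨ (Y ∩ X).Nonempty := eq_empty_or_nonempty _
  have e2 : Y ∩ Xᶜ = ∅ ∨ (Y ∩ Xᶜ).Nonempty := eq_empty_or_nonempty _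
  have hun : (Y ∩ X) ∪ (Y ∩ Xᶜ) = Y := by
    rw [← inter_union_distrib_left, union_compl, inter_univ]
  rcases e1 with h3 | h3
  · rw [h3, empty_union] at hun
    have h4 := g2 (Y ∩ Xᶜ) inter_subset_right (by rw [hun]; exact hYne) c2
    rwa [hun] at h4
  · rcases e2 with h4 | h4
    · rw [h4, union_empty] at hun
      have h5 := g1 (Y ∩ X) inter_subset_right (by rw [hun]; exact hYne) c1
      rwa [hun] at h5
    · have h5 := g1 (Y ∩ X) inter_subset_right h3 c1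
      have h6 := g2 (Y ∩ Xᶜ) inter_subset_right h4 c2
      omega

/-- Proof: `glue_PM` for the first part. Let `Y`, `Yᶜ` be nonempty with `cutS Y ⊆ M := N1 ∪ N2`.
For `e ∈ cutS X` we have `e ∉ M ↔ e ∉ N1`, so the set of `e ∈ cutS X` outside `M` has exactly two
elements, and by `even_F` the number of those with `a e ∈ Y` is `0` or `2`. If it is `0`, use
`glue_cut` for `Y`. If it is `2`, then all of them have `a e ∈ Y`, i.e. `a e ∉ Yᶜ`; use `glue_cut`
for `Yᶜ` (`cutS_compl`, `cut_compl`). -/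
theorem glue_two {a b : E → V} (hC : Cubic a b) {X : Finset V} {N1 N2 : Finset E}
    (h1 : SPM a b X N1) (h2 : SPM a b Xᶜ N2) (hag : ∀ e ∈ cutS a b X, (e ∈ N1 ↔ e ∈ N2))
    (g1 : G0 a b X N1) (g2 : G0 a b Xᶜ N2) (hle : (cutS a b X ∩ N1).card ≤ 2)
    (hF2 : (cutS a b X \ N1).card = 2) :
    PM a b (N1 ∪ N2) ∧ NoSmall a b (N1 ∪ N2) := by
  have hM := glue_PM h1 h2 hag
  refine ⟨hM, ?_⟩
  intro A hA hA' hsub
  have hev := even_F hC hM X hsub
  have hss : (cutS a b X).filter (fun e => e ∉ N1 ∪ N2 ∧ a e ∈ A) ⊆ cutS a b X \ N1 := by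
    intro e he
    rw [mem_filter] at he
    rw [mem_sdiff]
    exact ⟨he.1, fun h => he.2.1 (mem_union_left _ h)⟩
  have hnot : ∀ e ∈ cutS a b X, e ∉ N1 → e ∉ N1 ∪ N2 := by
    intro e he hN h
    rcases mem_union.1 h with h3 | h3
    · exact hN h3
    · exact hN ((hag e he).2 h3)
  have hc := card_le_card hss
  rw [hF2] at hc
  by_cases h0 : ((cutS a b X).filter (fun e => e ∉ N1 ∪ N2 ∧ a e ∈ A)).card = 0
  · refine glue_cut h1 h2 hag g1 g2 hle hA hsub ?_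
    intro e he hN haA
    rw [card_eq_zero] at h0
    have : e ∈ (cutS a b X).filter (fun e => e ∉ N1 ∪ N2 ∧ a e ∈ A) :=
      mem_filter.2 ⟨he, hnot e he hN, haA⟩
    rw [h0] at this
    exact absurd this (notMem_empty e)
  · have h2' : (cutS a b X \ N1).card ≤
        ((cutS a b X).filter (fun e => e ∉ N1 ∪ N2 ∧ a e ∈ A)).card := by
      rw [hF2]
      obtain ⟨r, hr⟩ := hev
      omega
    have heq := eq_of_subset_of_card_le hss h2'
    rw [← cut_compl]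
    refine glue_cut h1 h2 hag g1 g2 hle hA' (by rw [cutS_compl]; exact hsub) ?_
    intro e he hN haA
    have : e ∈ cutS a b X \ N1 := mem_sdiff.2 ⟨he, hN⟩
    rw [← heq, mem_filter] at this
    exact (mem_compl.1 haA) this.2.2

end Pool.Agent.helper54.LFP
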