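import Mathlib
import Pool.Agent.helper54.LFP.KSGlue

/-! [LFP-K7] Gluing over a 4-edge-cut when no edge of the cut is used. Proofs by helper11. -/

namespace Pool.Agent.helper54.LFP

open Finset Pool.Agent.helper60.ECD

variable {V E : Type} [Fintype V] [Fintype E] [DecidableEq V] [DecidableEq E]

/-- for `Y ⊆ X` the edges of `cutS Y` outside `N` are the common edges of the two cuts -/
private theorem KSEmpty_even {a b : E → V} (hC : Cubic a b) {X : Finset V} {N : Finset E}
    (hN : SPM a b X N) (h0 : cutS a b X ∩ N = ∅) {Y : Finset V} (hY : Y ⊆ X)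
    (hcut : cutS a b Y ⊆ N ∪ cutS a b X) : Even (cutS a b X ∩ cutS a b Y).card := by
  have h : (cutS a b Y).filter (fun e => e ∉ N) = cutS a b X ∩ cutS a b Y := by
    ext e
    rw [mem_filter, mem_inter]
    constructor
    · rintro ⟨h1, h2⟩
      rcases mem_union.1 (hcut h1) with h3 | h3
      · exact absurd h3 h2
      · exact ⟨h3, h1⟩
    · rintro ⟨h1, h2⟩
      refine ⟨h2, fun h3 => ?_⟩
      have h4 : e ∈ cutS a b X ∩ N := mem_inter.2 ⟨h1, h3⟩
      rw [h0] at h4
      exact absurd h4 (notMem_empty e)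
  rw [← h]
  exact even_side hC hN hY

private theorem KSEmpty_inter {a b : E → V} {X Y Y' : Finset V} (hY : Y ⊆ X) (hY' : Y' ⊆ X) :
    cutS a b X ∩ cutS a b (Y ∩ Y') =
      (cutS a b X ∩ cutS a b Y) ∩ (cutS a b X ∩ cutS a b Y') := by
  ext e
  have h1 := @hY (a e)
  have h2 := @hY (b e)
  have h3 := @hY' (a e)
  have h4 := @hY' (b e)
  simp only [mem_inter, mem_cutS]
  tauto

private theorem KSEmpty_cutInter {a b : E → V} {Y Y' : Finset V} {S : Finset E}
    (h1 : cutS a b Y ⊆ S) (h2 : cutS a b Y' ⊆ S) : cutS a b (Y ∩ Y') ⊆ S := by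
  intro e he
  have h3 : e ∈ cutS a b Y ∨ e ∈ cutS a b Y' := by
    simp only [mem_inter, mem_cutS] at he ⊢
    tauto
  rcases h3 with h | h
  · exact h1 h
  · exact h2 h

/-- The pairing of the four cut edges by the paths outside `N` inside `X`, in terms of cuts.

Proof. For `Y ⊆ X` with `cutS Y ⊆ N ∪ cutS X` write `A(Y) = cutS X ∩ cutS Y`; this is the set of
edges of `cutS Y` outside `N` (those in `cutS X` are outside `N` by `h0`), so `|A(Y)|` is even by
`even_side`. An edge `e ∈ cutS X` has exactly one end `p` in `X`, and `e ∈ A(Y) ↔ p ∈ Y` for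
`Y ⊆ X`. Hence `A(Y ∩ Y') = A(Y) ∩ A(Y')`, and `cutS (Y ∩ Y') ⊆ cutS Y ∪ cutS Y'`.
If some `Y0` has `|A(Y0)| = 2` put `P = A(Y0)`, `Q = cutS X \ P`. If another `Y` has `|A(Y)| = 2`
and `A(Y) ≠ P, Q` then `|A(Y) ∩ P| = 1` is odd, contradiction with the parity for `Y ∩ Y0`.
If no such `Y0` exists take any partition of `cutS X` in two pairs. -/
theorem pairing {a b : E → V} (hC : Cubic a b) {X : Finset V} (hX : cut a b X = 4)
    {N : Finset E} (hN : SPM a b X N) (h0 : cutS a b X ∩ N = ∅) :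
    ∃ P Q : Finset E, cutS a b X = P ∪ Q ∧ Disjoint P Q ∧ P.card = 2 ∧ Q.card = 2 ∧
      ∀ Y ⊆ X, cutS a b Y ⊆ N ∪ cutS a b X → (cutS a b X ∩ cutS a b Y).card = 2 →
        (cutS a b X ∩ cutS a b Y = P ∨ cutS a b X ∩ cutS a b Y = Q) := by
  have hX' : (cutS a b X).card = 4 := hX
  by_cases hex : ∃ Y0 ⊆ X, cutS a b Y0 ⊆ N ∪ cutS a b X ∧ (cutS a b X ∩ cutS a b Y0).card = 2
  · obtain ⟨Y0, hY0, hc0, hk0⟩ := hex
    have hsub : cutS a b X ∩ cutS a b Y0 ⊆ cutS a b X := inter_subset_left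
    refine ⟨cutS a b X ∩ cutS a b Y0, cutS a b X \ (cutS a b X ∩ cutS a b Y0),
      (union_sdiff_of_subset hsub).symm, disjoint_sdiff, hk0, ?_, ?_⟩
    · rw [card_sdiff_of_subset hsub]
      omega
    · intro Y hY hcY hkY
      have hev := KSEmpty_even hC hN h0 (Y := Y ∩ Y0) (inter_subset_left.trans hY)
        (KSEmpty_cutInter hcY hc0)
      rw [KSEmpty_inter hY hY0] at hev
      have hle : ((cutS a b X ∩ cutS a b Y) ∩ (cutS a b X ∩ cutS a b Y0)).card ≤ 2 := by
        rw [← hkY]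
        exact card_le_card inter_subset_left
      obtain ⟨r, hr⟩ := hev
      have h02 : ((cutS a b X ∩ cutS a b Y) ∩ (cutS a b X ∩ cutS a b Y0)).card = 0 ∨
          ((cutS a b X ∩ cutS a b Y) ∩ (cutS a b X ∩ cutS a b Y0)).card = 2 := by omega
      rcases h02 with h | h
      · right
        rw [card_eq_zero] at h
        refine eq_of_subset_of_card_le ?_ ?_
        · intro e he
          rw [mem_sdiff]
          refine ⟨(mem_inter.1 he).1, fun he' => ?_⟩
          have : e ∈ (cutS a b X ∩ cutS a b Y) ∩ (cutS a b X ∩ cutS a b Y0) :=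
            mem_inter.2 ⟨he, he'⟩
          rw [h] at this
          exact absurd this (notMem_empty e)
        · rw [card_sdiff_of_subset hsub]
          omega
      · left
        have e1 : (cutS a b X ∩ cutS a b Y) ∩ (cutS a b X ∩ cutS a b Y0) =
            cutS a b X ∩ cutS a b Y :=
          eq_of_subset_of_card_le inter_subset_left (by omega)
        have e2 : (cutS a b X ∩ cutS a b Y) ∩ (cutS a b X ∩ cutS a b Y0) =
            cutS a b X ∩ cutS a b Y0 :=
          eq_of_subset_of_card_le inter_subset_right (by omega)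
        rw [← e1, e2]
  · obtain ⟨P, hP, hPc⟩ := exists_subset_card_eq (show 2 ≤ (cutS a b X).card by omega)
    refine ⟨P, cutS a b X \ P, (union_sdiff_of_subset hP).symm, disjoint_sdiff, hPc, ?_, ?_⟩
    · rw [card_sdiff_of_subset hP]
      omega
    · intro Y hY hcY hkY
      exact absurd ⟨Y, hY, hcY, hkY⟩ hex

/-- Proof. `PM` is `glue_PM`. Let `Y`, `Yᶜ` be nonempty, `cutS Y ⊆ M := N1 ∪ N2`. No edge of
`cutS X` is in `M`, so every `e ∈ cutS X` has both ends in `Y` or both outside. Let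
`A = {e ∈ cutS X : a e ∈ Y}`; `|A|` is even by `even_F`, so it is `0`, `2` or `4`.
`|A| = 0`: `glue_cut` for `Y`. `|A| = 4`: `glue_cut` for `Yᶜ`.
`|A| = 2`: put `Y1 = Y ∩ X`. Then `cutS X ∩ cutS Y1 = A`, and `cutS Y1 ⊆ N1 ∪ cutS X` (an edge of
`cutS Y1` not in `cutS X` has its other end in `X \ Y`, is in `cutS Y ⊆ N1 ∪ N2`, and does not
touch `Xᶜ`, so it is in `N1`). By `hpair`, `A = P` or `A = Q`. If `A = Q` replace `Y` by `Yᶜ`
(then `A` becomes `cutS X \ Q = P`), so assume `A = P`. Put `Y2 = Y ∩ Xᶜ`. Then `P ⊆ cutS Y2` and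
`cutS Y2 ⊆ N2 ∪ P` (same argument), so `6 ≤ cut Y2` by `g`. `Y1` is nonempty (it contains the
`X`-ends of the edges of `A`) and so `3 ≤ cut Y1` by `h3`. By `cut_split`,
`cut Y + 2 * 2 = cut Y1 + cut Y2 ≥ 9`. -/
theorem glue_empty {a b : E → V} (hC : Cubic a b) (h3 : Conn3 a b) {X : Finset V}
    (hX : cut a b X = 4) {N1 N2 : Finset E} (h1 : SPM a b X N1) (h2 : SPM a b Xᶜ N2)
    (g1 : G0 a b X N1) (g2 : G0 a b Xᶜ N2) (e1 : cutS a b X ∩ N1 = ∅) (e2 : cutS a b X ∩ N2 = ∅)
    {P Q : Finset E} (hPQ : cutS a b X = P ∪ Q) (hd : Disjoint P Q) (hP : P.card = 2)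
    (hQ : Q.card = 2)
    (hpair : ∀ Y ⊆ X, cutS a b Y ⊆ N1 ∪ cutS a b X → (cutS a b X ∩ cutS a b Y).card = 2 →
        (cutS a b X ∩ cutS a b Y = P ∨ cutS a b X ∩ cutS a b Y = Q))
    (g : G1 a b Xᶜ N2 P) :
    PM a b (N1 ∪ N2) ∧ NoSmall a b (N1 ∪ N2) := by
  have hn1 : ∀ e ∈ cutS a b X, e ∉ N1 := by
    intro e he h
    have h4 : e ∈ cutS a b X ∩ N1 := mem_inter.2 ⟨he, h⟩
    rw [e1] at h4
    exact absurd h4 (notMem_empty e)
  have hn2 : ∀ e ∈ cutS a b X, e ∉ N2 := by
    intro e he h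
    have h4 : e ∈ cutS a b X ∩ N2 := mem_inter.2 ⟨he, h⟩
    rw [e2] at h4
    exact absurd h4 (notMem_empty e)
  have hnM : ∀ e ∈ cutS a b X, e ∉ N1 ∪ N2 := by
    intro e he h
    rcases mem_union.1 h with h | h
    · exact hn1 e he h
    · exact hn2 e he h
  have hag : ∀ e ∈ cutS a b X, (e ∈ N1 ↔ e ∈ N2) := fun e he =>
    iff_of_false (hn1 e he) (hn2 e he)
  have hM := glue_PM h1 h2 hag
  refine ⟨hM, ?_⟩
  have hle : (cutS a b X ∩ N1).card ≤ 2 := by
    rw [e1, card_empty]
    omega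
  -- the ends of the cut edges are on the same side of `Y`
  have hboth : ∀ Y : Finset V, cutS a b Y ⊆ N1 ∪ N2 → ∀ e ∈ cutS a b X,
      (a e ∈ Y ↔ b e ∈ Y) := by
    intro Y hY e he
    by_contra hcon
    exact hnM e he (hY (mem_cutS.2 hcon))
  have hcompl : ∀ Y : Finset V, cutS a b Y ⊆ N1 ∪ N2 → cutS a b Yᶜ ⊆ N1 ∪ N2 := by
    intro Y hY
    rw [cutS_compl]
    exact hY
  -- the case of the pair `P`
  have key : ∀ Y : Finset V, cutS a b Y ⊆ N1 ∪ N2 →
      (cutS a b X).filter (fun e => a e ∈ Y) = P → 5 ≤ cut a b Y := by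
    intro Y hY hA
    have hb := hboth Y hY
    have hPmem : ∀ e, e ∈ P ↔ e ∈ cutS a b X ∧ a e ∈ Y := by
      intro e
      rw [← hA, mem_filter]
    have hg : 6 ≤ cut a b (Y ∩ Xᶜ) := by
      refine g (Y ∩ Xᶜ) inter_subset_right ?_ ?_
      · intro e he
        obtain ⟨h3, h4⟩ := (hPmem e).1 he
        have h5 := (hb e h3).1 h4
        rw [mem_cutS] at h3
        simp only [mem_cutS, mem_inter, mem_compl]
        tauto
      · intro e he
        rw [mem_union]
        by_cases h3 : e ∈ cutS a b X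
        · right
          rw [hPmem]
          refine ⟨h3, ?_⟩
          have h5 := hb e h3
          simp only [mem_cutS, mem_inter, mem_compl] at he
          tauto
        · left
          have h6 : e ∈ cutS a b Y ∧ a e ∉ X ∧ b e ∉ X := by
            simp only [mem_cutS, mem_inter, mem_compl] at he h3 ⊢
            tauto
          rcases mem_union.1 (hY h6.1) with h7 | h7
          · rcases h1.1 e h7 with h8 | h8
            · exact absurd h8 h6.2.1
            · exact absurd h8 h6.2.2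
          · exact h7
    obtain ⟨e, he⟩ : P.Nonempty := by
      rw [← card_pos]
      omega
    obtain ⟨hq, h4⟩ := (hPmem e).1 he
    have h5 := (hb e hq).1 h4
    rw [mem_cutS] at hq
    have hY1 : (Y ∩ X).Nonempty ∧ (Y ∩ X)ᶜ.Nonempty := by
      by_cases h6 : a e ∈ X
      · have h7 : b e ∉ X := by tauto
        exact ⟨⟨a e, mem_inter.2 ⟨h4, h6⟩⟩,
          ⟨b e, mem_compl.2 fun h => h7 (mem_inter.1 h).2⟩⟩
      · have h7 : b e ∈ X := by tauto
        exact ⟨⟨b e, mem_inter.2 ⟨h5, h7⟩⟩,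
          ⟨a e, mem_compl.2 fun h => h6 (mem_inter.1 h).2⟩⟩
    have hc1 := h3 (Y ∩ X) hY1.1 hY1.2
    have hsp := cut_split a b X Y
    have hf : (cutS a b X).filter (fun e => a e ∈ Y ∧ b e ∈ Y) = P := by
      rw [← hA]
      refine filter_congr fun e he => ?_
      have := hb e he
      tauto
    rw [hf, hP] at hsp
    omega
  intro Y hYne hYc hY
  have hb := hboth Y hY
  have hev := even_F hC hM X hY
  have hfil : (cutS a b X).filter (fun e => e ∉ N1 ∪ N2 ∧ a e ∈ Y) =
      (cutS a b X).filter (fun e => a e ∈ Y) := by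
    refine filter_congr fun e he => ?_
    have := hnM e he
    tauto
  rw [hfil] at hev
  have hX' : (cutS a b X).card = 4 := hX
  have hAle : ((cutS a b X).filter (fun e => a e ∈ Y)).card ≤ 4 := by
    rw [← hX']
    exact card_le_card (filter_subset _ _)
  obtain ⟨r, hr⟩ := hev
  have hcases : ((cutS a b X).filter (fun e => a e ∈ Y)).card = 0 ∨
      ((cutS a b X).filter (fun e => a e ∈ Y)).card = 2 ∨
      ((cutS a b X).filter (fun e => a e ∈ Y)).card = 4 := by omega
  rcases hcases with h | h | h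
  · rw [card_eq_zero, filter_eq_empty_iff] at h
    exact glue_cut h1 h2 hag g1 g2 hle hYne hY (fun e he _ => h he)
  · -- the pair of the edges with both ends in `Y`
    have hsub1 : cutS a b (Y ∩ X) ⊆ N1 ∪ cutS a b X := by
      intro e he
      rw [mem_union]
      by_cases h3 : e ∈ cutS a b X
      · exact Or.inr h3
      · left
        have h6 : e ∈ cutS a b Y ∧ a e ∈ X ∧ b e ∈ X := by
          simp only [mem_cutS, mem_inter] at he h3 ⊢
          tauto
        rcases mem_union.1 (hY h6.1) with h7 | h7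
        · exact h7
        · rcases h2.1 e h7 with h8 | h8
          · exact absurd h6.2.1 (mem_compl.1 h8)
          · exact absurd h6.2.2 (mem_compl.1 h8)
    have hAeq : cutS a b X ∩ cutS a b (Y ∩ X) = (cutS a b X).filter (fun e => a e ∈ Y) := by
      ext e
      rw [mem_inter, mem_filter]
      refine and_congr_right fun he => ?_
      have h3 := hb e he
      rw [mem_cutS] at he
      simp only [mem_cutS, mem_inter]
      tauto
    have hpr := hpair (Y ∩ X) inter_subset_right hsub1 (by rw [hAeq]; exact h)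
    rw [hAeq] at hpr
    rcases hpr with hpr | hpr
    · exact key Y hY hpr
    · rw [← cut_compl]
      refine key Yᶜ (hcompl Y hY) ?_
      ext e
      have h3 : e ∈ Q ↔ e ∈ cutS a b X ∧ a e ∈ Y := by
        rw [← hpr, mem_filter]
      have h4 : e ∈ cutS a b X ↔ e ∈ P ∨ e ∈ Q := by
        rw [hPQ, mem_union]
      have h5 : e ∈ P → e ∉ Q := fun hp hq => (disjoint_left.1 hd) hp hq
      rw [mem_filter, mem_compl]
      tauto
  · have hall : (cutS a b X).filter (fun e => a e ∈ Y) = cutS a b X :=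
      eq_of_subset_of_card_le (filter_subset _ _) (by omega)
    rw [← cut_compl]
    refine glue_cut h1 h2 hag g1 g2 hle hYc (hcompl Y hY) (fun e he _ => ?_)
    rw [← hall, mem_filter] at he
    rw [mem_compl, not_not]
    exact he.2

end Pool.Agent.helper54.LFP
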