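import Mathlib
import Pool.Agent.helper54.LFP.Defs

/-! [LFP-K5] The closure of a side of a 4-edge-cut: replace the other side by two adjacent new
vertices, `false` on the edges `P` and `true` on the edges `Q` of the cut. -/

namespace Pool.Agent.helper54.LFP

open Finset Pool.Agent.helper60.ECD

variable {V E : Type} [Fintype V] [Fintype E] [DecidableEq V] [DecidableEq E]

/-- the vertex of the closure which is the end `x` of the edge `e` -/
def clq (X : Finset V) (Q : Finset E) (e : E) (x : V) : {x // x ∈ X} ⊕ Bool :=
  if h : x ∈ X then Sum.inl ⟨x, h⟩ else Sum.inr (decide (e ∈ Q))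

/-- first end; the new edge `none` joins the new vertices `false` and `true` -/
def cla (a b : E → V) (X : Finset V) (Q : Finset E) :
    Option {e : E // a e ∈ X ∨ b e ∈ X} → {x // x ∈ X} ⊕ Bool
  | none => Sum.inr false
  | some e => clq X Q e.1 (a e.1)

/-- second end -/
def clb (a b : E → V) (X : Finset V) (Q : Finset E) :
    Option {e : E // a e ∈ X ∨ b e ∈ X} → {x // x ∈ X} ⊕ Bool
  | none => Sum.inr true
  | some e => clq X Q e.1 (b e.1)

/-- the copy of a set of vertices in the closure -/
def clY (X : Finset V) (Y : Finset V) : Finset ({x // x ∈ X} ⊕ Bool) :=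
  univ.filter (fun z => ∃ x : {x // x ∈ X}, z = Sum.inl x ∧ x.1 ∈ Y)

theorem cl_card (X : Finset V) : Fintype.card ({x // x ∈ X} ⊕ Bool) = X.card + 2 := by
  simp

omit [Fintype V] [Fintype E] in
private theorem KSCl4_inl {X : Finset V} {Q : Finset E} {e : E} {y : V} {x : {x // x ∈ X}} :
    clq X Q e y = Sum.inl x ↔ y = x.1 := by
  unfold clq
  by_cases h : y ∈ X
  · rw [dif_pos h]
    constructor
    · intro h1
      have h2 := Sum.inl.inj h1
      rw [← h2]
    · intro h1
      subst h1
      rfl
  · rw [dif_neg h]
    constructor
    · intro h1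
      exact absurd h1 (by simp)
    · intro h1
      exact absurd x.2 (by rw [← h1]; exact h)

omit [Fintype V] [Fintype E] in
private theorem KSCl4_inr {X : Finset V} {Q : Finset E} {e : E} {y : V} {c : Bool} :
    clq X Q e y = Sum.inr c ↔ y ∉ X ∧ decide (e ∈ Q) = c := by
  unfold clq
  by_cases h : y ∈ X
  · rw [dif_pos h]
    constructor
    · intro h1
      exact absurd h1 (by simp)
    · intro h1
      exact absurd h h1.1
  · rw [dif_neg h]
    constructor
    · intro h1
      exact ⟨h, Sum.inr.inj h1⟩
    · intro h1
      rw [h1.2]

omit [Fintype E] in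
private theorem KSCl4_card {p : E → Prop} (S : Finset (Option {e : E // p e}))
    (T : Finset E) (hT : ∀ e (h : p e), some ⟨e, h⟩ ∈ S ↔ e ∈ T) (hp : ∀ e ∈ T, p e) :
    S.card = T.card + (if none ∈ S then 1 else 0) := by
  have h1 : T.card = (S.erase none).card := by
    apply Finset.card_bij (fun e he => some ⟨e, hp e he⟩)
    · intro e he
      rw [Finset.mem_erase]
      exact ⟨by simp, (hT e (hp e he)).mpr he⟩
    · intro e he e' he' h
      have h2 := Option.some.inj h
      exact congrArg Subtype.val h2
    · intro z hz
      rw [Finset.mem_erase] at hz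
      cases z with
      | none => exact absurd rfl hz.1
      | some w =>
        obtain ⟨e, he⟩ := w
        exact ⟨e, (hT e he).mp hz.2, rfl⟩
  rw [h1]
  by_cases hn : none ∈ S
  · rw [if_pos hn, Finset.card_erase_of_mem hn]
    have := Finset.card_pos.mpr ⟨none, hn⟩
    omega
  · rw [if_neg hn, Finset.erase_eq_of_notMem hn]
    rfl

/-- Proof: an edge `some e` has at least one end of the form `inl`, so it is no loop unless both
ends are in `X`, where `a e ≠ b e`. A vertex `inl x` lies on the copies of the three edges at `x`.
The vertex `inr false` lies on `none` and on `some e` with `e ∈ cutS X`, `e ∉ Q`, i.e. `e ∈ P`: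
three edges; same for `inr true` and `Q`. -/
theorem cl_cubic {a b : E → V} (hC : Cubic a b) {X : Finset V} {P Q : Finset E}
    (hPQ : cutS a b X = P ∪ Q) (hd : Disjoint P Q) (hP : P.card = 2) (hQ : Q.card = 2) :
    Cubic (cla a b X Q) (clb a b X Q) := by
  have hcut : ∀ e, e ∈ cutS a b X ↔ e ∈ P ∨ e ∈ Q := by
    intro e
    rw [hPQ, Finset.mem_union]
  have hdis : ∀ e, e ∈ P → e ∉ Q := fun e h1 h2 => Finset.disjoint_left.mp hd h1 h2
  have hends : ∀ e, e ∈ cutS a b X → a e ∈ X ∨ b e ∈ X := by
    intro e he
    rw [mem_cutS] at he
    tauto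
  refine ⟨?_, ?_⟩
  · intro e
    cases e with
    | none =>
      intro h
      exact absurd (Sum.inr.inj h) (by decide)
    | some w =>
      obtain ⟨e, he⟩ := w
      intro h
      change clq X Q e (a e) = clq X Q e (b e) at h
      by_cases h1 : a e ∈ X
      · have h2 : clq X Q e (a e) = Sum.inl ⟨a e, h1⟩ := KSCl4_inl.mpr rfl
        rw [h2] at h
        have h3 := KSCl4_inl.mp h.symm
        exact hC.1 e h3.symm
      · have h2 : b e ∈ X := by tauto
        have h3 : clq X Q e (b e) = Sum.inl ⟨b e, h2⟩ := KSCl4_inl.mpr rfl
        rw [h3] at h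
        have h4 := KSCl4_inl.mp h
        exact hC.1 e h4
  · intro x
    rcases x with x | c
    · rw [KSCl4_card (starS (cla a b X Q) (clb a b X Q) (Sum.inl x)) (starS a b x.1)]
      · rw [hC.2 x.1, if_neg]
        intro h
        rw [mem_starS] at h
        rcases h with h | h
        · exact absurd h (by simp [cla])
        · exact absurd h (by simp [clb])
      · intro e he
        rw [mem_starS, mem_starS]
        change (clq X Q e (a e) = Sum.inl x ∨ clq X Q e (b e) = Sum.inl x) ↔ _
        rw [KSCl4_inl, KSCl4_inl]
      · intro e he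
        rw [mem_starS] at he
        rcases he with he | he
        · left; rw [he]; exact x.2
        · right; rw [he]; exact x.2
    · cases c with
      | false =>
        rw [KSCl4_card (starS (cla a b X Q) (clb a b X Q) (Sum.inr false)) P]
        · rw [hP, if_pos]
          rw [mem_starS]
          left
          rfl
        · intro e he
          rw [mem_starS]
          change (clq X Q e (a e) = Sum.inr false ∨ clq X Q e (b e) = Sum.inr false) ↔ _
          rw [KSCl4_inr, KSCl4_inr]
          have h1 := hcut e
          rw [mem_cutS] at h1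
          have h2 := hdis e
          rw [decide_eq_false_iff_not]
          tauto
        · intro e he
          exact hends e ((hcut e).mpr (Or.inl he))
      | true =>
        rw [KSCl4_card (starS (cla a b X Q) (clb a b X Q) (Sum.inr true)) Q]
        · rw [hQ, if_pos]
          rw [mem_starS]
          right
          rfl
        · intro e he
          rw [mem_starS]
          change (clq X Q e (a e) = Sum.inr true ∨ clq X Q e (b e) = Sum.inr true) ↔ _
          rw [KSCl4_inr, KSCl4_inr]
          have h1 := hcut e
          rw [mem_cutS] at h1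
          have h2 := hdis e
          rw [decide_eq_true_iff]
          tauto
        · intro e he
          exact hends e ((hcut e).mpr (Or.inr he))

private theorem KSCl4_mem_clY {X Y : Finset V} {z : {x // x ∈ X} ⊕ Bool} :
    z ∈ clY X Y ↔ ∃ x : {x // x ∈ X}, z = Sum.inl x ∧ x.1 ∈ Y := by
  simp [clY]

omit [Fintype E] in
private theorem KSCl4_clq_mem {X Y : Finset V} {Q : Finset E} (hY : Y ⊆ X) {e : E} {y : V} :
    clq X Q e y ∈ clY X Y ↔ y ∈ Y := by
  rw [KSCl4_mem_clY]
  constructor
  · rintro ⟨x, h1, h2⟩
    rw [KSCl4_inl] at h1
    rw [h1]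
    exact h2
  · intro h
    exact ⟨⟨y, hY h⟩, KSCl4_inl.mpr rfl, h⟩

private theorem KSCl4_inr_notMem {X Y : Finset V} {c : Bool} :
    (Sum.inr c : {x // x ∈ X} ⊕ Bool) ∉ clY X Y := by
  rw [KSCl4_mem_clY]
  rintro ⟨x, h1, _⟩
  exact absurd h1 (by simp)

/-- the cut of a set of old vertices is the same as before. Proof: the new vertices are not in the
set; an edge `some e` has exactly one end in the copy of `Y ⊆ X` iff `e` has exactly one end in
`Y`. -/
theorem cl_cut_old (a b : E → V) {X Y : Finset V} (Q : Finset E) (hY : Y ⊆ X) :
    (∀ e, e ∈ cutS (cla a b X Q) (clb a b X Q) (clY X Y) ↔ ∃ e', e = some e' ∧ e'.1 ∈ cutS a b Y) ∧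
    cut (cla a b X Q) (clb a b X Q) (clY X Y) = cut a b Y := by
  have key : ∀ e, e ∈ cutS (cla a b X Q) (clb a b X Q) (clY X Y) ↔
      ∃ e', e = some e' ∧ e'.1 ∈ cutS a b Y := by
    intro e
    cases e with
    | none =>
      rw [mem_cutS]
      constructor
      · intro h
        exfalso
        apply h
        constructor
        · intro h1
          exact absurd h1 KSCl4_inr_notMem
        · intro h1
          exact absurd h1 KSCl4_inr_notMem
      · rintro ⟨e', h1, _⟩
        exact absurd h1 (by simp)
    | some w =>
      have h1 : some w ∈ cutS (cla a b X Q) (clb a b X Q) (clY X Y) ↔ w.1 ∈ cutS a b Y := by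
        rw [mem_cutS, mem_cutS]
        change ¬ (clq X Q w.1 (a w.1) ∈ clY X Y ↔ clq X Q w.1 (b w.1) ∈ clY X Y) ↔ _
        rw [KSCl4_clq_mem hY, KSCl4_clq_mem hY]
      rw [h1]
      constructor
      · intro h
        exact ⟨w, rfl, h⟩
      · rintro ⟨e', h2, h3⟩
        rw [Option.some.inj h2]
        exact h3
  refine ⟨key, ?_⟩
  unfold cut
  rw [KSCl4_card (cutS (cla a b X Q) (clb a b X Q) (clY X Y)) (cutS a b Y)]
  · rw [if_neg]
    · rfl
    · rw [key]
      rintro ⟨e', h1, _⟩
      exact absurd h1 (by simp)
  · intro e he
    rw [key]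
    constructor
    · rintro ⟨e', h1, h2⟩
      rw [← Option.some.inj h1] at h2
      exact h2
    · intro h
      exact ⟨_, rfl, h⟩
  · intro e he
    rw [mem_cutS] at he
    by_cases h : a e ∈ Y
    · exact Or.inl (hY h)
    · have h2 : b e ∈ Y := by tauto
      exact Or.inr (hY h2)

/-- the cut of a set `Y ⊆ X` of old vertices together with the new vertex `false` (on `P`):
the new edge, the edges of `cutS Y` inside `X`, the edges of `P` whose end in `X` is not in `Y`,
and the edges of `Q` whose end in `X` is in `Y`. -/
theorem cl_cut_new {a b : E → V} {X Y : Finset V} {P Q : Finset E}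
    (hPQ : cutS a b X = P ∪ Q) (hd : Disjoint P Q) (hY : Y ⊆ X) :
    ∀ e, e ∈ cutS (cla a b X Q) (clb a b X Q) (insert (Sum.inr false) (clY X Y)) ↔
      (e = none ∨ ∃ e', e = some e' ∧
        ((e'.1 ∈ cutS a b Y ∧ e'.1 ∉ P) ∨ (e'.1 ∈ P ∧ e'.1 ∉ cutS a b Y))) := by
  intro e
  cases e with
  | none =>
    rw [mem_cutS]
    constructor
    · intro _
      exact Or.inl rfl
    · intro _ h
      have h1 : cla a b X Q none ∈ insert (Sum.inr false) (clY X Y) :=
        Finset.mem_insert_self _ _
      have h2 := h.mp h1
      rw [Finset.mem_insert] at h2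
      rcases h2 with h2 | h2
      · exact absurd (Sum.inr.inj h2) (by decide)
      · exact absurd h2 KSCl4_inr_notMem
  | some w =>
    obtain ⟨e, he⟩ := w
    have h1 : some ⟨e, he⟩ ∈ cutS (cla a b X Q) (clb a b X Q) (insert (Sum.inr false) (clY X Y)) ↔
        ((e ∈ cutS a b Y ∧ e ∉ P) ∨ (e ∈ P ∧ e ∉ cutS a b Y)) := by
      rw [mem_cutS, mem_cutS]
      change ¬ (clq X Q e (a e) ∈ insert (Sum.inr false) (clY X Y) ↔
        clq X Q e (b e) ∈ insert (Sum.inr false) (clY X Y)) ↔ _
      rw [Finset.mem_insert, Finset.mem_insert, KSCl4_clq_mem hY, KSCl4_clq_mem hY, KSCl4_inr,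
        KSCl4_inr, decide_eq_false_iff_not]
      have hcut : e ∈ cutS a b X ↔ e ∈ P ∨ e ∈ Q := by rw [hPQ, Finset.mem_union]
      rw [mem_cutS] at hcut
      have hdis : e ∈ P → e ∉ Q := fun h1 h2 => Finset.disjoint_left.mp hd h1 h2
      have hYa : a e ∈ Y → a e ∈ X := fun h => hY h
      have hYb : b e ∈ Y → b e ∈ X := fun h => hY h
      tauto
    rw [h1]
    constructor
    · intro h
      exact Or.inr ⟨_, rfl, h⟩
    · rintro (h | ⟨e', h2, h3⟩)
      · exact absurd h (by simp)
      · rw [← Option.some.inj h2] at h3
        exact h3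

/-- Proof. Let `A` be a set of vertices of the closure, `A` and `Aᶜ` nonempty. Replacing `A` by its
complement we may assume that the new vertex `true` is not in `A`. Let `Y ⊆ X` be the set of old
vertices in `A`.
If `false ∉ A`: then `A` is the copy of `Y`, and its cut has `cut a b Y ≥ 3` edges (`cl_cut_old`,
`Y ≠ ∅`, `Yᶜ ≠ ∅` because `Xᶜ ≠ ∅`).
If `false ∈ A`: by `cl_cut_new` the cut has `1 + d + (2 - s) + t` edges, where `d` is the number of
edges of `cutS Y` inside `X`, `s` the number of edges of `P` in `cutS Y` and `t` the number of
edges of `Q` in `cutS Y`. If `Y = ∅` this is `3`; if `Y = X` it is `1 + 0 + 0 + 2 = 3`. Otherwise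
`cut Y = d + s + t ≥ 3` and `cut (X \ Y) = d + (2 - s) + (2 - t) ≥ 3`. If `1 + d + (2 - s) + t ≤ 2`
then `s ≥ d + t + 1`, and with `s ≤ 2` and the first inequality `s = 2`, `d + t = 1`, and with
the second one `d = 1`, `t = 0`; so `cut Y = 3 = cut (X \ Y)`. The complements of both sets contain
`Xᶜ`, which has at least four elements, so by `hno3` both sets have fewer than `3` elements, and by
parity (`cut_parity` in helper60's `Cut.lean`) they have exactly one element each. But
`|X| ≥ 4`. -/
theorem cl_conn {a b : E → V} (hC : Cubic a b) (h3 : Conn3 a b)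
    (hno3 : ∀ A : Finset V, cut a b A = 3 → A.card < 3 ∨ Aᶜ.card < 3)
    {X : Finset V} (hXc : 4 ≤ X.card) (hXc' : 4 ≤ Xᶜ.card) {P Q : Finset E}
    (hPQ : cutS a b X = P ∪ Q) (hd : Disjoint P Q) (hP : P.card = 2) (hQ : Q.card = 2) :
    Conn3 (cla a b X Q) (clb a b X Q) := by
  have hXcne : Xᶜ.Nonempty := Finset.card_pos.mp (by omega)
  -- the main inequality for the sets with the new vertex false
  have main : ∀ Y : Finset V, Y ⊆ X →
      3 ≤ cut (cla a b X Q) (clb a b X Q) (insert (Sum.inr false) (clY X Y)) := by
    intro Y hY
    have hnew := cl_cut_new (a := a) (b := b) hPQ hd hY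
    have hcard : cut (cla a b X Q) (clb a b X Q) (insert (Sum.inr false) (clY X Y)) =
        (cutS a b Y \ P ∪ P \ cutS a b Y).card + 1 := by
      unfold cut
      rw [KSCl4_card (cutS (cla a b X Q) (clb a b X Q) (insert (Sum.inr false) (clY X Y)))
        (cutS a b Y \ P ∪ P \ cutS a b Y)]
      · rw [if_pos]
        rw [hnew]
        exact Or.inl rfl
      · intro e he
        rw [hnew, Finset.mem_union, Finset.mem_sdiff, Finset.mem_sdiff]
        constructor
        · rintro (h | ⟨e', h2, h3⟩)
          · exact absurd h (by simp)
          · rw [← Option.some.inj h2] at h3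
            exact h3
        · intro h
          exact Or.inr ⟨_, rfl, h⟩
      · intro e he
        rw [Finset.mem_union, Finset.mem_sdiff, Finset.mem_sdiff] at he
        rcases he with he | he
        · have h1 := he.1
          rw [mem_cutS] at h1
          by_cases h : a e ∈ Y
          · exact Or.inl (hY h)
          · have h2 : b e ∈ Y := by tauto
            exact Or.inr (hY h2)
        · have h1 : e ∈ cutS a b X := by rw [hPQ]; exact Finset.mem_union_left _ he.1
          rw [mem_cutS] at h1
          tauto
    have hdisj : Disjoint (cutS a b Y \ P) (P \ cutS a b Y) := by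
      rw [Finset.disjoint_left]
      intro e h1 h2
      rw [Finset.mem_sdiff] at h1 h2
      exact h1.2 h2.1
    rw [hcard, Finset.card_union_of_disjoint hdisj]
    by_cases hY0 : Y = ∅
    · have h1 : cutS a b Y = ∅ := by
        rw [hY0]
        ext e
        simp [mem_cutS]
      rw [h1, Finset.sdiff_empty, hP]
      omega
    · by_cases hYX : Y = X
      · have h1 : cutS a b Y \ P = Q := by
          rw [hYX, hPQ]
          ext e
          rw [Finset.mem_sdiff, Finset.mem_union]
          have hdis : e ∈ P → e ∉ Q := fun h1 h2 => Finset.disjoint_left.mp hd h1 h2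
          tauto
        rw [h1, hQ]
        omega
      · -- the general case
        have hYne : Y.Nonempty := Finset.nonempty_iff_ne_empty.mpr hY0
        have hYsub : Xᶜ ⊆ Yᶜ := Finset.compl_subset_compl.mpr hY
        have hYcne : Yᶜ.Nonempty := hXcne.mono hYsub
        have hD := h3 Y hYne hYcne
        have hXYne : (X \ Y).Nonempty := by
          rw [Finset.sdiff_nonempty]
          intro h
          exact hYX (Finset.Subset.antisymm hY h)
        have hXYsub : Xᶜ ⊆ (X \ Y)ᶜ := Finset.compl_subset_compl.mpr Finset.sdiff_subset
        have hXYcne : (X \ Y)ᶜ.Nonempty := hXcne.mono hXYsub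
        have hD' := h3 (X \ Y) hXYne hXYcne
        -- counting
        have hs1 : (P \ cutS a b Y).card + (P ∩ cutS a b Y).card = 2 := by
          rw [← hP]
          exact Finset.card_sdiff_add_card_inter P (cutS a b Y)
        have hs2 : (cutS a b Y \ P).card + (P ∩ cutS a b Y).card = cut a b Y := by
          rw [Finset.inter_comm]
          exact Finset.card_sdiff_add_card_inter (cutS a b Y) P
        have hDX : (cutS a b (X \ Y)) = (cutS a b X \ cutS a b Y) ∪ (cutS a b Y \ cutS a b X) := by
          ext e
          rw [Finset.mem_union, Finset.mem_sdiff, Finset.mem_sdiff, mem_cutS, mem_cutS, mem_cutS,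
            Finset.mem_sdiff, Finset.mem_sdiff]
          have hYa : a e ∈ Y → a e ∈ X := fun h => hY h
          have hYb : b e ∈ Y → b e ∈ X := fun h => hY h
          tauto
        have hdis2 : Disjoint (cutS a b X \ cutS a b Y) (cutS a b Y \ cutS a b X) := by
          rw [Finset.disjoint_left]
          intro e h1 h2
          rw [Finset.mem_sdiff] at h1 h2
          exact h1.2 h2.1
        have hcX : (cutS a b X).card = 4 := by
          rw [hPQ, Finset.card_union_of_disjoint hd, hP, hQ]
        have hc1 : cut a b (X \ Y) = (cutS a b X \ cutS a b Y).card +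
            (cutS a b Y \ cutS a b X).card := by
          unfold cut
          rw [hDX, Finset.card_union_of_disjoint hdis2]
        have hc2 : (cutS a b X \ cutS a b Y).card + (cutS a b X ∩ cutS a b Y).card = 4 := by
          rw [← hcX]
          exact Finset.card_sdiff_add_card_inter (cutS a b X) (cutS a b Y)
        have hc3 : (cutS a b Y \ cutS a b X).card + (cutS a b X ∩ cutS a b Y).card = cut a b Y := by
          rw [Finset.inter_comm]
          exact Finset.card_sdiff_add_card_inter (cutS a b Y) (cutS a b X)
        have hc4 : (P ∩ cutS a b Y).card ≤ (cutS a b X ∩ cutS a b Y).card := by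
          apply Finset.card_le_card
          apply Finset.inter_subset_inter_right
          rw [hPQ]
          exact Finset.subset_union_left
        by_contra hlt
        have hcutY : cut a b Y = 3 := by omega
        have hcutXY : cut a b (X \ Y) = 3 := by omega
        have hpY := cut_parity a b hC.1 hC.2 Y
        have hpXY := cut_parity a b hC.1 hC.2 (X \ Y)
        have hYcard : Y.card < 3 := by
          rcases hno3 Y hcutY with h | h
          · exact h
          · have := Finset.card_le_card hYsub
            omega
        have hXYcard : (X \ Y).card < 3 := by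
          rcases hno3 (X \ Y) hcutXY with h | h
          · exact h
          · have := Finset.card_le_card hXYsub
            omega
        have hsum : (X \ Y).card + Y.card = X.card := Finset.card_sdiff_add_card_eq_card hY
        omega
  -- sets which do not contain the new vertex true
  have main2 : ∀ A : Finset ({x // x ∈ X} ⊕ Bool), Sum.inr true ∉ A → A.Nonempty →
      3 ≤ cut (cla a b X Q) (clb a b X Q) A := by
    intro A hA hAne
    have hYX : (Finset.univ.filter (fun x : {x // x ∈ X} => Sum.inl x ∈ A)).map
        (Function.Embedding.subtype _) ⊆ X := by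
      intro y hy
      rw [Finset.mem_map] at hy
      obtain ⟨x, _, hx⟩ := hy
      rw [← hx]
      exact x.2
    set Y : Finset V := (Finset.univ.filter (fun x : {x // x ∈ X} => Sum.inl x ∈ A)).map
        (Function.Embedding.subtype _) with hYdef
    have hYmem : ∀ x : {x // x ∈ X}, x.1 ∈ Y ↔ Sum.inl x ∈ A := by
      intro x
      rw [hYdef, Finset.mem_map]
      constructor
      · rintro ⟨x', h1, h2⟩
        have h3 : x' = x := Subtype.ext h2
        rw [← h3]
        exact (Finset.mem_filter.mp h1).2
      · intro h
        exact ⟨x, Finset.mem_filter.mpr ⟨Finset.mem_univ _, h⟩, rfl⟩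
    by_cases hf : (Sum.inr false : {x // x ∈ X} ⊕ Bool) ∈ A
    · have hAeq : A = insert (Sum.inr false) (clY X Y) := by
        ext z
        rw [Finset.mem_insert, KSCl4_mem_clY]
        rcases z with x | c
        · rw [← hYmem x]
          constructor
          · intro h
            exact Or.inr ⟨x, rfl, h⟩
          · rintro (h | ⟨x', h1, h2⟩)
            · exact absurd h (by simp)
            · rw [Sum.inl.inj h1]
              exact h2
        · cases c with
          | false =>
            constructor
            · intro _
              exact Or.inl rfl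
            · intro _
              exact hf
          | true =>
            constructor
            · intro h
              exact absurd h hA
            · rintro (h | ⟨x', h1, _⟩)
              · exact absurd (Sum.inr.inj h) (by decide)
              · exact absurd h1 (by simp)
      rw [hAeq]
      exact main Y hYX
    · have hAeq : A = clY X Y := by
        ext z
        rw [KSCl4_mem_clY]
        rcases z with x | c
        · rw [← hYmem x]
          constructor
          · intro h
            exact ⟨x, rfl, h⟩
          · rintro ⟨x', h1, h2⟩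
            rw [Sum.inl.inj h1]
            exact h2
        · constructor
          · intro h
            cases c with
            | false => exact absurd h hf
            | true => exact absurd h hA
          · rintro ⟨x', h1, _⟩
            exact absurd h1 (by simp)
      rw [hAeq, (cl_cut_old a b Q hYX).2]
      apply h3
      · obtain ⟨z, hz⟩ := hAne
        rw [hAeq, KSCl4_mem_clY] at hz
        obtain ⟨x, _, h2⟩ := hz
        exact ⟨x.1, h2⟩
      · exact hXcne.mono (Finset.compl_subset_compl.mpr hYX)
  intro A hAne hAcne
  by_cases ht : (Sum.inr true : {x // x ∈ X} ⊕ Bool) ∈ A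
  · rw [← cut_compl]
    apply main2 Aᶜ _ hAcne
    rw [Finset.mem_compl]
    exact fun h => h ht
  · exact main2 A ht hAne

end Pool.Agent.helper54.LFP
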