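import Mathlib
import Pool.Agent.helper54.LFP.KSCl4

/-! [LFP-K6] The side of a 4-edge-cut: use the induction hypothesis for the closure. -/

namespace Pool.Agent.helper54.LFP

open Finset Pool.Agent.helper60.ECD

variable {V E : Type} [Fintype V] [Fintype E] [DecidableEq V] [DecidableEq E]

private theorem clq_inl {X : Finset V} {Q : Finset E} {e : E} {y : V} {x : {x // x ∈ X}} :
    clq X Q e y = Sum.inl x ↔ y = x.1 := by
  unfold clq
  by_cases h : y ∈ X
  · rw [dif_pos h]
    constructor
    · intro h1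
      have h2 := Sum.inl.inj h1
      rw [← h2]
    · intro h1
      congr 1
      exact Subtype.ext h1
  · rw [dif_neg h]
    constructor
    · intro h1
      cases h1
    · intro h1
      exact absurd (h1 ▸ x.2) h

private theorem clq_inr {X : Finset V} {Q : Finset E} {e : E} {y : V} {c : Bool} :
    clq X Q e y = Sum.inr c ↔ y ∉ X ∧ decide (e ∈ Q) = c := by
  unfold clq
  by_cases h : y ∈ X
  · rw [dif_pos h]
    constructor
    · intro h1
      cases h1
    · intro h1
      exact absurd h h1.1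
  · rw [dif_neg h]
    constructor
    · intro h1
      exact ⟨h, Sum.inr.inj h1⟩
    · intro h1
      rw [h1.2]

private theorem one_end {a b : E → V} {X : Finset V} {e : E} (h : a e ∈ X ∨ b e ∈ X) :
    e ∈ cutS a b X ↔ (a e ∉ X ∨ b e ∉ X) := by
  rw [mem_cutS]
  tauto

/-- What a good perfect matching `M'` of the closure gives for the side `X`:
put `N := ` the set of old edges `e` with `some e ∈ M'`.
* `SPM`: an old vertex `x` lies in the closure on exactly the copies of its edges.
* `G0`: for `Y ⊆ X` nonempty with `cutS Y ⊆ N` the cut of the copy of `Y` is contained in `M'`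
(`cl_cut_old`), its complement contains the new vertices, so it has at least `5` edges.
* If `none ∈ M'`: the new vertices are matched with each other, so no edge of `cutS X = P ∪ Q` is
in `N`. For `G1`: let `Y ⊆ X`, `P ⊆ cutS Y ⊆ N ∪ P`. The cut of `insert (inr false) (clY X Y)` is
by `cl_cut_new` the new edge and the edges of `cutS Y` outside `P`; all are in `M'`; so it has at
least `5` edges, i.e. `cut Y - 2 + 1 ≥ 5`. (Nonempty: contains `inr false`; complement contains
`inr true`.)
* If `none ∉ M'`: the edge of `M'` at `inr false` is an edge of `P` (and only one), the one at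
`inr true` is an edge of `Q`. -/
theorem side4_of_closure {a b : E → V} (hC : Cubic a b) {X : Finset V} {P Q : Finset E}
    (hPQ : cutS a b X = P ∪ Q) (hd : Disjoint P Q) (hP : P.card = 2) (hQ : Q.card = 2)
    {M' : Finset (Option {e : E // a e ∈ X ∨ b e ∈ X})}
    (hM : PM (cla a b X Q) (clb a b X Q) M') (hM5 : NoSmall (cla a b X Q) (clb a b X Q) M') :
    ∃ N : Finset E, (∀ e, e ∈ N ↔ ∃ h, some ⟨e, h⟩ ∈ M') ∧ SPM a b X N ∧ G0 a b X N ∧
      (none ∈ M' → cutS a b X ∩ N = ∅ ∧ G1 a b X N P) ∧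
      (none ∉ M' → (N ∩ P).card = 1 ∧ (N ∩ Q).card = 1) := by
  classical
  set N : Finset E := univ.filter (fun e => ∃ h : a e ∈ X ∨ b e ∈ X,
    (some (⟨e, h⟩ : {e : E // a e ∈ X ∨ b e ∈ X})) ∈ M') with hN
  have hmem : ∀ e, e ∈ N ↔ ∃ h, some ⟨e, h⟩ ∈ M' := by
    intro e
    rw [hN, Finset.mem_filter]
    exact ⟨fun h => h.2, fun h => ⟨Finset.mem_univ _, h⟩⟩
  -- edges at the new vertices
  have hat : ∀ (e : E) (h : a e ∈ X ∨ b e ∈ X) (c : Bool),
      (cla a b X Q (some ⟨e, h⟩) = Sum.inr c ∨ clb a b X Q (some ⟨e, h⟩) = Sum.inr c) ↔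
        (e ∈ cutS a b X ∧ decide (e ∈ Q) = c) := by
    intro e h c
    show (clq X Q e (a e) = Sum.inr c ∨ clq X Q e (b e) = Sum.inr c) ↔ _
    rw [clq_inr, clq_inr, one_end h]
    tauto
  have hcut : ∀ e, e ∈ cutS a b X ↔ (e ∈ P ∨ e ∈ Q) := by
    intro e
    rw [hPQ, Finset.mem_union]
  have hPnQ : ∀ e, e ∈ P → e ∉ Q := fun e h1 h2 => (Finset.disjoint_left.1 hd) h1 h2
  have hends : ∀ e, e ∈ cutS a b X → (a e ∈ X ∨ b e ∈ X) := by
    intro e h
    rw [mem_cutS] at h
    tauto
  refine ⟨N, hmem, ⟨?_, ?_⟩, ?_, ?_, ?_⟩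
  · intro e he
    obtain ⟨h, -⟩ := (hmem e).1 he
    exact h
  · intro x hx
    obtain ⟨e', ⟨he'M, he'x⟩, huniq⟩ := hM (Sum.inl ⟨x, hx⟩)
    cases e' with
    | none =>
      exfalso
      rcases he'x with h | h
      · exact Sum.inr_ne_inl h
      · exact Sum.inr_ne_inl h
    | some e' =>
      obtain ⟨e, he⟩ := e'
      refine ⟨e, ⟨(hmem e).2 ⟨he, he'M⟩, ?_⟩, ?_⟩
      · have h1 : clq X Q e (a e) = Sum.inl ⟨x, hx⟩ ∨ clq X Q e (b e) = Sum.inl ⟨x, hx⟩ := he'x
        rw [clq_inl, clq_inl] at h1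
        exact h1
      · rintro f ⟨hfN, hfx⟩
        obtain ⟨hf, hfM⟩ := (hmem f).1 hfN
        have h1 := huniq (some ⟨f, hf⟩) ⟨hfM, by
          show clq X Q f (a f) = Sum.inl ⟨x, hx⟩ ∨ clq X Q f (b f) = Sum.inl ⟨x, hx⟩
          rw [clq_inl, clq_inl]
          exact hfx⟩
        have h2 := Option.some.inj h1
        exact congrArg Subtype.val h2
  · intro Y hY hYne hYN
    have h5 := hM5 (clY X Y) ?_ ?_ ?_
    · rw [(cl_cut_old a b Q hY).2] at h5
      exact h5
    · obtain ⟨y, hy⟩ := hYne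
      refine ⟨Sum.inl ⟨y, hY hy⟩, ?_⟩
      unfold clY
      rw [Finset.mem_filter]
      exact ⟨Finset.mem_univ _, ⟨y, hY hy⟩, rfl, hy⟩
    · refine ⟨Sum.inr false, ?_⟩
      rw [Finset.mem_compl]
      unfold clY
      rw [Finset.mem_filter]
      rintro ⟨-, x, hx, -⟩
      exact Sum.inr_ne_inl hx
    · intro e he
      obtain ⟨e', rfl, he'⟩ := ((cl_cut_old a b Q hY).1 e).1 he
      obtain ⟨h, hM'⟩ := (hmem e'.1).1 (hYN he')
      exact hM'
  · intro hnone
    constructor
    · rw [Finset.eq_empty_iff_forall_notMem]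
      intro e he
      rw [Finset.mem_inter] at he
      obtain ⟨heC, heN⟩ := he
      obtain ⟨h, hM'⟩ := (hmem e).1 heN
      obtain ⟨g, -, hg⟩ := hM (Sum.inr (decide (e ∈ Q)))
      have h1 := hg (some ⟨e, h⟩) ⟨hM', (hat e h _).2 ⟨heC, rfl⟩⟩
      have h2 := hg none ⟨hnone, by
        cases hc : decide (e ∈ Q)
        · left; rfl
        · right; rfl⟩
      rw [← h2] at h1
      cases h1
    · intro Y hY hPY hYN
      have hcn := cl_cut_new (a := a) (b := b) hPQ hd hY
      have h5 := hM5 (insert (Sum.inr false) (clY X Y)) ?_ ?_ ?_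
      · have hcard : cut (cla a b X Q) (clb a b X Q) (insert (Sum.inr false) (clY X Y)) ≤
            (cutS a b Y \ P).card + 1 := by
          unfold cut
          have hinj : Function.Injective
              (Option.map (Subtype.val : {e : E // a e ∈ X ∨ b e ∈ X} → E)) :=
            Option.map_injective Subtype.val_injective
          rw [← Finset.card_image_of_injective _ hinj]
          refine (Finset.card_le_card (?_ : _ ⊆ insert none ((cutS a b Y \ P).image some))).trans ?_
          · intro e he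
            rw [Finset.mem_image] at he
            obtain ⟨g, hg, rfl⟩ := he
            rcases (hcn g).1 hg with rfl | ⟨e', rfl, h1 | h1⟩
            · exact Finset.mem_insert_self _ _
            · refine Finset.mem_insert_of_mem ?_
              rw [Finset.mem_image]
              exact ⟨e'.1, Finset.mem_sdiff.2 h1, rfl⟩
            · exact absurd (hPY h1.1) h1.2
          · refine (Finset.card_insert_le _ _).trans ?_
            exact Nat.add_le_add_right Finset.card_image_le 1
        have h7 : (cutS a b Y \ P).card + P.card = (cutS a b Y).card :=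
          Finset.card_sdiff_add_card_eq_card hPY
        unfold cut at h5 hcard ⊢
        omega
      · exact ⟨_, Finset.mem_insert_self _ _⟩
      · refine ⟨Sum.inr true, ?_⟩
        rw [Finset.mem_compl, Finset.mem_insert]
        rintro (h | h)
        · cases h
        · unfold clY at h
          rw [Finset.mem_filter] at h
          obtain ⟨-, x, hx, -⟩ := h
          exact Sum.inr_ne_inl hx
      · intro e he
        rcases (hcn e).1 he with rfl | ⟨e', rfl, h1 | h1⟩
        · exact hnone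
        · have h2 := hYN h1.1
          rw [Finset.mem_union] at h2
          rcases h2 with h2 | h2
          · obtain ⟨h, hM'⟩ := (hmem e'.1).1 h2
            exact hM'
          · exact absurd h2 h1.2
        · exact absurd (hPY h1.1) h1.2
  · intro hnone
    have key : ∀ (R : Finset E) (c : Bool),
        (∀ e, e ∈ R ↔ e ∈ cutS a b X ∧ decide (e ∈ Q) = c) → (N ∩ R).card = 1 := by
      intro R c hR
      obtain ⟨g, ⟨hgM, hgc⟩, huniq⟩ := hM (Sum.inr c)
      cases g with
      | none => exact absurd hgM hnone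
      | some g =>
        obtain ⟨e, he⟩ := g
        rw [Finset.card_eq_one]
        refine ⟨e, ?_⟩
        ext f
        rw [Finset.mem_inter, Finset.mem_singleton]
        constructor
        · rintro ⟨hfN, hfR⟩
          obtain ⟨h, hfM⟩ := (hmem f).1 hfN
          have h1 := huniq (some ⟨f, h⟩) ⟨hfM, (hat f h c).2 ((hR f).1 hfR)⟩
          exact congrArg Subtype.val (Option.some.inj h1)
        · rintro rfl
          exact ⟨(hmem f).2 ⟨he, hgM⟩, (hR f).2 ((hat f he c).1 hgc)⟩
    constructor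
    · apply key P false
      intro e
      rw [hcut e]
      constructor
      · intro h
        exact ⟨Or.inl h, decide_eq_false (hPnQ e h)⟩
      · rintro ⟨h1 | h1, h2⟩
        · exact h1
        · exact absurd h1 (of_decide_eq_false h2)
    · apply key Q true
      intro e
      rw [hcut e]
      constructor
      · intro h
        exact ⟨Or.inr h, decide_eq_true h⟩
      · rintro ⟨-, h2⟩
        exact of_decide_eq_true h2

/-- Proof: apply `IH` to the closure (`cl_card`, `cl_cubic`, `cl_conn`;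
`|X| + 2 < card V ≤ n` since `|Xᶜ| ≥ 4`) and the edge `some e0`; then `side4_of_closure`. -/
theorem side4_edge {n : ℕ} (IH : KSn n) {a b : E → V} (hC : Cubic a b) (h3 : Conn3 a b)
    (hn : Fintype.card V ≤ n)
    (hno3 : ∀ A : Finset V, cut a b A = 3 → A.card < 3 ∨ Aᶜ.card < 3)
    {X : Finset V} (hXc : 4 ≤ X.card) (hXc' : 4 ≤ Xᶜ.card) {P Q : Finset E}
    (hPQ : cutS a b X = P ∪ Q) (hd : Disjoint P Q) (hP : P.card = 2) (hQ : Q.card = 2)
    (e0 : E) (he0 : a e0 ∈ X ∨ b e0 ∈ X) :
    ∃ N : Finset E, SPM a b X N ∧ e0 ∈ N ∧ G0 a b X N ∧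
      (cutS a b X ∩ N = ∅ ∨ ((N ∩ P).card = 1 ∧ (N ∩ Q).card = 1)) := by
  have hcard : Fintype.card ({x // x ∈ X} ⊕ Bool) < n := by
    have h1 := cl_card X
    have h2 : X.card + Xᶜ.card = Fintype.card V := Finset.card_add_card_compl X
    omega
  obtain ⟨M', h0, hM, hM5⟩ := IH ({x // x ∈ X} ⊕ Bool) (Option {e : E // a e ∈ X ∨ b e ∈ X})
    (cla a b X Q) (clb a b X Q) hcard (cl_cubic hC hPQ hd hP hQ)
    (cl_conn hC h3 hno3 hXc hXc' hPQ hd hP hQ) (some ⟨e0, he0⟩)
  obtain ⟨N, hN, h1, h2, h4, h5⟩ := side4_of_closure hC hPQ hd hP hQ hM hM5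
  refine ⟨N, h1, (hN e0).2 ⟨he0, h0⟩, h2, ?_⟩
  by_cases hnone : none ∈ M'
  · exact Or.inl (h4 hnone).1
  · exact Or.inr (h5 hnone)

/-- Proof: as before, with the edge `none`. -/
theorem side4_free {n : ℕ} (IH : KSn n) {a b : E → V} (hC : Cubic a b) (h3 : Conn3 a b)
    (hn : Fintype.card V ≤ n)
    (hno3 : ∀ A : Finset V, cut a b A = 3 → A.card < 3 ∨ Aᶜ.card < 3)
    {X : Finset V} (hXc : 4 ≤ X.card) (hXc' : 4 ≤ Xᶜ.card) {P Q : Finset E}
    (hPQ : cutS a b X = P ∪ Q) (hd : Disjoint P Q) (hP : P.card = 2) (hQ : Q.card = 2) :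
    ∃ N : Finset E, SPM a b X N ∧ G0 a b X N ∧ cutS a b X ∩ N = ∅ ∧ G1 a b X N P := by
  have hcard : Fintype.card ({x // x ∈ X} ⊕ Bool) < n := by
    have h1 := cl_card X
    have h2 : X.card + Xᶜ.card = Fintype.card V := Finset.card_add_card_compl X
    omega
  obtain ⟨M', h0, hM, hM5⟩ := IH ({x // x ∈ X} ⊕ Bool) (Option {e : E // a e ∈ X ∨ b e ∈ X})
    (cla a b X Q) (clb a b X Q) hcard (cl_cubic hC hPQ hd hP hQ)
    (cl_conn hC h3 hno3 hXc hXc' hPQ hd hP hQ) none
  obtain ⟨N, hN, h1, h2, h4, h5⟩ := side4_of_closure hC hPQ hd hP hQ hM hM5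
  exact ⟨N, h1, h2, (h4 h0).1, (h4 h0).2⟩

end Pool.Agent.helper54.LFP
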