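import Mathlib
import Pool.Agent.helper54.LFP.KSSide4
import Pool.Agent.helper54.LFP.KSEmpty

/-! [LFP-K8] A nontrivial 4-edge-cut. -/

namespace Pool.Agent.helper54.LFP

open Finset Pool.Agent.helper60.ECD

variable {V E : Type} [Fintype V] [Fintype E] [DecidableEq V] [DecidableEq E]

/-- The combinatorial choice. `R f g` means: the pair `{f, g}` is realizable. Proof: if all pairs of
distinct elements of `C` are realizable take any partition. Otherwise let `{f, g}` be not
realizable, `f ≠ g`; take `P = {f, g}`, `Q = C \ P = {h, k}`. If, say, `{f, h}` is not realizable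
(`h ∈ Q`) then `hR` for the partition `{f, k}`, `{g, h}` and the element `f` gives a contradiction;
same for the other three pairs (use the symmetry of `R`). -/
theorem choose_partition {E : Type} [DecidableEq E] (C : Finset E) (hC : C.card = 4)
    (R : E → E → Prop) (hsymm : ∀ f g, R f g → R g f)
    (hR : ∀ P Q : Finset E, C = P ∪ Q → Disjoint P Q → P.card = 2 → Q.card = 2 →
      ∀ f ∈ P, ∃ g ∈ Q, R f g) :
    ∃ P Q : Finset E, C = P ∪ Q ∧ Disjoint P Q ∧ P.card = 2 ∧ Q.card = 2 ∧
      ∀ f ∈ P, ∀ g ∈ Q, R f g := by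
  obtain ⟨w, C', hw, rfl, hC'⟩ := card_eq_succ.1 hC
  obtain ⟨x, y, z, hxy, hxz, hyz, rfl⟩ := card_eq_three.1 hC'
  simp only [mem_insert, mem_singleton, not_or] at hw
  obtain ⟨hwx, hwy, hwz⟩ := hw
  have key : ∀ p q r s : E, p ≠ q → p ≠ r → p ≠ s → q ≠ r → q ≠ s → r ≠ s →
      insert w ({x, y, z} : Finset E) = {p, q} ∪ {r, s} → R p r ∨ R p s := by
    intro p q r s hpq hpr hps hqr hqs hrs h
    obtain ⟨g, hg, hRg⟩ := hR {p, q} {r, s} h (by
      rw [disjoint_left]
      intro e he he'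
      simp only [mem_insert, mem_singleton] at he he'
      rcases he with rfl | rfl <;> rcases he' with rfl | rfl <;> contradiction)
      (card_pair hpq) (card_pair hrs) p (mem_insert_self _ _)
    rw [mem_insert, mem_singleton] at hg
    rcases hg with rfl | rfl
    · exact Or.inl hRg
    · exact Or.inr hRg
  have w1 := key w x y z hwx hwy hwz hxy hxz hyz (by
      ext e; clear * -; simp only [mem_insert, mem_singleton, mem_union]; tauto)
  have w2 := key w y x z hwy hwx hwz hxy.symm hyz hxz (by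
      ext e; clear * -; simp only [mem_insert, mem_singleton, mem_union]; tauto)
  have w3 := key w z x y hwz hwx hwy hxz.symm hyz.symm hxy (by
      ext e; clear * -; simp only [mem_insert, mem_singleton, mem_union]; tauto)
  have x1 := key x w y z (Ne.symm hwx) hxy hxz hwy hwz hyz (by
      ext e; clear * -; simp only [mem_insert, mem_singleton, mem_union]; tauto)
  have x2 := key x y w z hxy (Ne.symm hwx) hxz (Ne.symm hwy) hyz hwz (by
      ext e; clear * -; simp only [mem_insert, mem_singleton, mem_union]; tauto)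
  have x3 := key x z w y hxz (Ne.symm hwx) hxy (Ne.symm hwz) hyz.symm hwy (by
      ext e; clear * -; simp only [mem_insert, mem_singleton, mem_union]; tauto)
  have y1 := key y w x z (Ne.symm hwy) hxy.symm hyz hwx hwz hxz (by
      ext e; clear * -; simp only [mem_insert, mem_singleton, mem_union]; tauto)
  have y2 := key y x w z hxy.symm (Ne.symm hwy) hyz (Ne.symm hwx) hxz hwz (by
      ext e; clear * -; simp only [mem_insert, mem_singleton, mem_union]; tauto)
  have y3 := key y z w x hyz (Ne.symm hwy) hxy.symm (Ne.symm hwz) hxz.symm hwx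
    (by
      ext e; clear * -; simp only [mem_insert, mem_singleton, mem_union]; tauto)
  have z1 := key z w x y (Ne.symm hwz) hxz.symm hyz.symm hwx hwy hxy (by
      ext e; clear * -; simp only [mem_insert, mem_singleton, mem_union]; tauto)
  have z2 := key z x w y hxz.symm (Ne.symm hwz) hyz.symm (Ne.symm hwx) hxy hwy
    (by
      ext e; clear * -; simp only [mem_insert, mem_singleton, mem_union]; tauto)
  have z3 := key z y w x hyz.symm (Ne.symm hwz) hxz.symm (Ne.symm hwy) hxy.symm hwx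
    (by
      ext e; clear * -; simp only [mem_insert, mem_singleton, mem_union]; tauto)
  have fin : ∀ p q r s : E, p ≠ q → p ≠ r → p ≠ s → q ≠ r → q ≠ s → r ≠ s →
      insert w ({x, y, z} : Finset E) = {p, q} ∪ {r, s} → R p r → R p s → R q r → R q s →
      ∃ P Q : Finset E, insert w ({x, y, z} : Finset E) = P ∪ Q ∧ Disjoint P Q ∧ P.card = 2 ∧
        Q.card = 2 ∧ ∀ f ∈ P, ∀ g ∈ Q, R f g := by
    intro p q r s hpq hpr hps hqr hqs hrs h h1 h2 h3 h4
    refine ⟨{p, q}, {r, s}, h, ?_, card_pair hpq, card_pair hrs, ?_⟩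
    · rw [disjoint_left]
      intro e he he'
      simp only [mem_insert, mem_singleton] at he he'
      rcases he with rfl | rfl <;> rcases he' with rfl | rfl <;> contradiction
    · intro f hf g hg
      rw [mem_insert, mem_singleton] at hf hg
      rcases hf with rfl | rfl <;> rcases hg with rfl | rfl <;> assumption
  have r1 : ¬ R w y → R w x ∧ R w z ∧ R y x ∧ R y z := fun h =>
    ⟨w3.resolve_right h, w1.resolve_left h, y3.resolve_left (fun h' => h (hsymm _ _ h')),
      y2.resolve_left (fun h' => h (hsymm _ _ h'))⟩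
  have r2 : ¬ R w z → R w x ∧ R w y ∧ R z x ∧ R z y := fun h =>
    ⟨w2.resolve_right h, w1.resolve_right h, z3.resolve_left (fun h' => h (hsymm _ _ h')),
      z2.resolve_left (fun h' => h (hsymm _ _ h'))⟩
  have r3 : ¬ R x y → R w x ∧ R w y ∧ R z x ∧ R z y := fun h =>
    ⟨hsymm _ _ (x3.resolve_right h), hsymm _ _ (y3.resolve_right (fun h' => h (hsymm _ _ h'))),
      hsymm _ _ (x1.resolve_left h), hsymm _ _ (y1.resolve_left (fun h' => h (hsymm _ _ h')))⟩
  have r4 : ¬ R x z → R w x ∧ R w z ∧ R y x ∧ R y z := fun h =>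
    ⟨hsymm _ _ (x2.resolve_right h), hsymm _ _ (z3.resolve_right (fun h' => h (hsymm _ _ h'))),
      hsymm _ _ (x1.resolve_right h), hsymm _ _ (z1.resolve_left (fun h' => h (hsymm _ _ h')))⟩
  by_cases c1 : R w y
  · by_cases c2 : R w z
    · by_cases c3 : R x y
      · by_cases c4 : R x z
        · exact fin w x y z hwx hwy hwz hxy hxz hyz (by
      ext e; clear * -; simp only [mem_insert, mem_singleton, mem_union]; tauto) c1 c2 c3 c4
        · obtain ⟨t1, t2, t3, t4⟩ := r4 c4
          exact fin w y x z hwy hwx hwz hxy.symm hyz hxz (by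
      ext e; clear * -; simp only [mem_insert, mem_singleton, mem_union]; tauto) t1 t2 t3 t4
      · obtain ⟨t1, t2, t3, t4⟩ := r3 c3
        exact fin w z x y hwz hwx hwy hxz.symm hyz.symm hxy (by
      ext e; clear * -; simp only [mem_insert, mem_singleton, mem_union]; tauto) t1 t2 t3 t4
    · obtain ⟨t1, t2, t3, t4⟩ := r2 c2
      exact fin w z x y hwz hwx hwy hxz.symm hyz.symm hxy (by
      ext e; clear * -; simp only [mem_insert, mem_singleton, mem_union]; tauto) t1 t2 t3 t4
  · obtain ⟨t1, t2, t3, t4⟩ := r1 c1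
    exact fin w y x z hwy hwx hwz hxy.symm hyz hxz (by
      ext e; clear * -; simp only [mem_insert, mem_singleton, mem_union]; tauto) t1 t2 t3 t4

/-- Proof.
Case 1: there are a partition `P ∪ Q = cutS X` in pairs (or any `N1` at all) and `N1` with
`SPM a b X N1`, `e0 ∈ N1`, `G0 a b X N1`, `cutS X ∩ N1 = ∅`. Take `P`, `Q` from `pairing` for `N1`
and `N2` from `side4_free` for the side `Xᶜ` (`cutS_compl`, `compl_compl`) and these `P`, `Q`; then
`glue_empty`.
Case 2: there is no such `N1`. Let `R f g` mean: there is `N2` with `SPM a b Xᶜ N2`,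
`G0 a b Xᶜ N2` and `cutS X ∩ N2 = {f, g}`. For a partition `P ∪ Q` and `f ∈ P`, `side4_edge` for
the side `Xᶜ` and the edge `f` gives `N2 ∋ f`; `cutS X ∩ N2 ≠ ∅`, so `|N2 ∩ P| = |N2 ∩ Q| = 1`,
and `cutS X ∩ N2 = {f, g}` with `g ∈ Q`. By `choose_partition` there is a partition `P0 ∪ Q0` such
that all `{f, g}`, `f ∈ P0`, `g ∈ Q0` are realizable. `side4_edge` for the side `X`, `e0`, `P0`,
`Q0` gives `N1 ∋ e0` and by the case assumption `cutS X ∩ N1 = {f, g}` with `f ∈ P0`, `g ∈ Q0`.
Take `N2` realizing `{f, g}` and use `glue_two`. -/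
theorem case4 {n : ℕ} (IH : KSn n) {a b : E → V} (hC : Cubic a b) (h3 : Conn3 a b)
    (hn : Fintype.card V ≤ n)
    (hno3 : ∀ A : Finset V, cut a b A = 3 → A.card < 3 ∨ Aᶜ.card < 3)
    {X : Finset V} (hX : cut a b X = 4) (hXc : 4 ≤ X.card) (hXc' : 4 ≤ Xᶜ.card)
    (e0 : E) (he0 : a e0 ∈ X ∨ b e0 ∈ X) :
    ∃ M : Finset E, e0 ∈ M ∧ PM a b M ∧ NoSmall a b M := by
  by_cases hfree : ∃ N1, SPM a b X N1 ∧ e0 ∈ N1 ∧ G0 a b X N1 ∧ cutS a b X ∩ N1 = ∅
  · obtain ⟨N1, s1, he1, g1, z1⟩ := hfree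
    obtain ⟨P, Q, hPQ, hd, hP, hQ, hpair⟩ := pairing hC hX s1 z1
    obtain ⟨N2, s2, g2, z2, g12⟩ := side4_free IH hC h3 hn hno3 (X := Xᶜ) hXc'
      (by rw [compl_compl]; exact hXc) (P := P) (Q := Q) (by rw [cutS_compl]; exact hPQ) hd hP hQ
    rw [cutS_compl] at z2
    obtain ⟨hPM, hNS⟩ := glue_empty hC h3 hX s1 s2 g1 g2 z1 z2 hPQ hd hP hQ hpair g12
    exact ⟨N1 ∪ N2, mem_union_left _ he1, hPM, hNS⟩
  · -- a side matching with one edge in each pair
    have two : ∀ (N P Q : Finset E), cutS a b X = P ∪ Q → Disjoint P Q → (N ∩ P).card = 1 →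
        (N ∩ Q).card = 1 → ∃ f ∈ P, ∃ g ∈ Q, f ≠ g ∧ cutS a b X ∩ N = {f, g} ∧
          N ∩ P = {f} := by
      intro N P Q hPQ hd h1 h2
      obtain ⟨f, hf⟩ := card_eq_one.1 h1
      obtain ⟨g, hg⟩ := card_eq_one.1 h2
      have hf' : f ∈ N ∩ P := by rw [hf]; exact mem_singleton_self f
      have hg' : g ∈ N ∩ Q := by rw [hg]; exact mem_singleton_self g
      refine ⟨f, (mem_inter.1 hf').2, g, (mem_inter.1 hg').2, ?_, ?_, hf⟩
      · rintro rfl
        exact disjoint_left.1 hd (mem_inter.1 hf').2 (mem_inter.1 hg').2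
      · rw [hPQ, union_inter_distrib_right, inter_comm P, inter_comm Q, hf, hg]
        rfl
    obtain ⟨P0, Q0, hPQ, hd, hP, hQ, hreal⟩ := choose_partition (cutS a b X) hX
      (fun f g => ∃ N2, SPM a b Xᶜ N2 ∧ G0 a b Xᶜ N2 ∧ cutS a b X ∩ N2 = {f, g})
      (by
        rintro f g ⟨N2, h1, h2, h4⟩
        exact ⟨N2, h1, h2, by rw [h4, pair_comm]⟩)
      (by
        intro P Q hPQ hd hP hQ f hf
        have hfX : f ∈ cutS a b X := by
          rw [hPQ]
          exact mem_union_left _ hf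
        have hf0 : a f ∈ Xᶜ ∨ b f ∈ Xᶜ := by
          rw [mem_cutS] at hfX
          rw [mem_compl, mem_compl]
          tauto
        obtain ⟨N2, s2, hfN, g2, h4⟩ := side4_edge IH hC h3 hn hno3 (X := Xᶜ) hXc'
          (by rw [compl_compl]; exact hXc) (P := P) (Q := Q) (by rw [cutS_compl]; exact hPQ)
          hd hP hQ f hf0
        rw [cutS_compl] at h4
        rcases h4 with h4 | ⟨h4, h5⟩
        · exfalso
          have h6 : f ∈ cutS a b X ∩ N2 := mem_inter.2 ⟨hfX, hfN⟩
          rw [h4] at h6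
          exact notMem_empty f h6
        · obtain ⟨f', hf', g, hg, hne, h6, h7⟩ := two N2 P Q hPQ hd h4 h5
          have h8 : f ∈ N2 ∩ P := mem_inter.2 ⟨hfN, hf⟩
          rw [h7, mem_singleton] at h8
          subst h8
          exact ⟨g, hg, N2, s2, g2, h6⟩)
    obtain ⟨N1, s1, he1, g1, h4⟩ := side4_edge IH hC h3 hn hno3 hXc hXc' hPQ hd hP hQ e0 he0
    rcases h4 with h4 | ⟨h4, h5⟩
    · exact absurd ⟨N1, s1, he1, g1, h4⟩ hfree
    · obtain ⟨f, hf, g, hg, hne, h6, -⟩ := two N1 P0 Q0 hPQ hd h4 h5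
      obtain ⟨N2, s2, g2, h7⟩ := hreal f hf g hg
      have hag : ∀ e ∈ cutS a b X, (e ∈ N1 ↔ e ∈ N2) := by
        intro e he
        have h8 : e ∈ cutS a b X ∩ N1 ↔ e ∈ cutS a b X ∩ N2 := by rw [h6, h7]
        rw [mem_inter, mem_inter] at h8
        tauto
      have hcard : (cutS a b X ∩ N1).card = 2 := by rw [h6, card_pair hne]
      have hX' : (cutS a b X).card = 4 := hX
      have hsd : (cutS a b X \ N1).card = 2 := by
        have h9 := card_sdiff_add_card_inter (cutS a b X) N1
        omega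
      obtain ⟨hPM, hNS⟩ := glue_two hC s1 s2 hag g1 g2 hcard.le hsd
      exact ⟨N1 ∪ N2, mem_union_left _ he1, hPM, hNS⟩

end Pool.Agent.helper54.LFP
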