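import Mathlib
import Pool.Agent.helper54.LFP.Defs

/-! [LFP-K4] The side of a 3-edge-cut: contract the other side and use the induction hypothesis. -/

namespace Pool.Agent.helper54.LFP

open Finset Pool.Agent.helper60.ECD

variable {V E : Type} [Fintype V] [Fintype E] [DecidableEq V] [DecidableEq E]

/-- contraction of the complement of `X` -/
private def s3q (X : Finset V) (x : V) : Option {x // x ∈ X} :=
  if h : x ∈ X then some ⟨x, h⟩ else none

private lemma s3q_mem {X : Finset V} {x : V} (h : x ∈ X) : s3q X x = some ⟨x, h⟩ := dif_pos h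

private lemma s3q_notMem {X : Finset V} {x : V} (h : x ∉ X) : s3q X x = none := dif_neg h

private lemma s3q_some {X : Finset V} {x : V} {y : {x // x ∈ X}} :
    s3q X x = some y ↔ x = y.1 := by
  constructor
  · intro h
    by_cases hx : x ∈ X
    · rw [s3q_mem hx] at h
      have := Option.some.inj h
      rw [← this]
    · rw [s3q_notMem hx] at h; exact absurd h (by simp)
  · rintro rfl
    rw [s3q_mem y.2]

private lemma s3q_none {X : Finset V} {x : V} : s3q X x = none ↔ x ∉ X := by
  constructor
  · intro h hx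
    rw [s3q_mem hx] at h; exact absurd h (by simp)
  · exact s3q_notMem

/-- the edges which survive the contraction of the complement of `X` -/
private abbrev S3E (a b : E → V) (X : Finset V) := {e : E // a e ∈ X ∨ b e ∈ X}

/-- first end in the contracted graph -/
private def s3a (a b : E → V) (X : Finset V) (e : S3E a b X) : Option {x // x ∈ X} := s3q X (a e.1)

/-- second end in the contracted graph -/
private def s3b (a b : E → V) (X : Finset V) (e : S3E a b X) : Option {x // x ∈ X} := s3q X (b e.1)

private lemma s3_ne (a b : E → V) (hne : ∀ e, a e ≠ b e) (X : Finset V) (e : S3E a b X) :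
    s3a a b X e ≠ s3b a b X e := by
  intro h
  unfold s3a s3b at h
  by_cases h1 : a e.1 ∈ X
  · rw [s3q_mem h1] at h
    have := s3q_some.mp h.symm
    exact hne e.1 this.symm
  · rcases e.2 with h2 | h2
    · exact h1 h2
    · rw [s3q_mem h2] at h
      exact hne e.1 (s3q_some.mp h)

private lemma s3_cutS (a b : E → V) (X : Finset V) (A : Finset (Option {x // x ∈ X}))
    (e : S3E a b X) : e ∈ cutS (s3a a b X) (s3b a b X) A ↔
      e.1 ∈ cutS a b (univ.filter (fun x => s3q X x ∈ A)) := by
  rw [mem_cutS, mem_cutS]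
  simp [s3a, s3b]

private lemma s3_cut (a b : E → V) (X : Finset V) (A : Finset (Option {x // x ∈ X})) :
    cut (s3a a b X) (s3b a b X) A = cut a b (univ.filter (fun x => s3q X x ∈ A)) := by
  unfold cut
  apply Finset.card_bij (fun e _ => e.1)
  · intro e he
    exact (s3_cutS a b X A e).mp he
  · intro e _ f _ h; exact Subtype.ext h
  · intro e he
    rw [mem_cutS] at he
    simp only [Finset.mem_filter, Finset.mem_univ, true_and] at he
    have : a e ∈ X ∨ b e ∈ X := by
      by_contra h
      rw [not_or] at h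
      rw [s3q_notMem h.1, s3q_notMem h.2] at he
      exact he Iff.rfl
    refine ⟨⟨e, this⟩, ?_, rfl⟩
    rw [mem_cutS]
    exact he

private lemma s3_deg (a b : E → V) (hc : ∀ x, (starS a b x).card = 3) (X : Finset V)
    (hX : cut a b X = 3) (y : Option {x // x ∈ X}) :
    (starS (s3a a b X) (s3b a b X) y).card = 3 := by
  rcases y with _ | y
  · rw [← hX]
    unfold cut
    apply Finset.card_bij (fun e _ => e.1)
    · intro e he
      rw [mem_starS] at he
      rw [mem_cutS]
      unfold s3a s3b at he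
      rw [s3q_none, s3q_none] at he
      have := e.2
      tauto
    · intro e _ f _ h; exact Subtype.ext h
    · intro e he
      rw [mem_cutS] at he
      have : a e ∈ X ∨ b e ∈ X := by tauto
      refine ⟨⟨e, this⟩, ?_, rfl⟩
      rw [mem_starS]
      unfold s3a s3b
      rw [s3q_none, s3q_none]
      tauto
  · rw [← hc y.1]
    apply Finset.card_bij (fun e _ => e.1)
    · intro e he
      rw [mem_starS] at he ⊢
      unfold s3a s3b at he
      rwa [s3q_some, s3q_some] at he
    · intro e _ f _ h; exact Subtype.ext h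
    · intro e he
      rw [mem_starS] at he
      have : a e ∈ X ∨ b e ∈ X := by
        rcases he with h | h
        · left; rw [h]; exact y.2
        · right; rw [h]; exact y.2
      refine ⟨⟨e, this⟩, ?_, rfl⟩
      rw [mem_starS]
      unfold s3a s3b
      rw [s3q_some, s3q_some]
      exact he

private lemma s3_conn (a b : E → V) (h3 : Conn3 a b) (X : Finset V) (hX : Xᶜ.Nonempty) :
    Conn3 (s3a a b X) (s3b a b X) := by
  intro A hA hA'
  rw [s3_cut]
  have hsurj : ∀ y : Option {x // x ∈ X}, ∃ x, s3q X x = y := by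
    rintro (_ | y)
    · obtain ⟨x, hx⟩ := hX
      exact ⟨x, s3q_notMem (Finset.mem_compl.mp hx)⟩
    · exact ⟨y.1, s3q_some.mpr rfl⟩
  apply h3
  · obtain ⟨y, hy⟩ := hA
    obtain ⟨x, hx⟩ := hsurj y
    exact ⟨x, by simp [hx, hy]⟩
  · obtain ⟨y, hy⟩ := hA'
    obtain ⟨x, hx⟩ := hsurj y
    refine ⟨x, ?_⟩
    rw [Finset.mem_compl] at hy ⊢
    simpa [hx] using hy

/-- Proof: contraction of `Xᶜ`: vertices `Option {x // x ∈ X}`, edges `{e // a e ∈ X ∨ b e ∈ X}`,
ends `qq X (a e)`, `qq X (b e)` where `qq X x = some ⟨x, _⟩` for `x ∈ X` and `none` otherwise (see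
`Pool.Agent.helper60.ECD.Glue3`: do NOT import that file, but `qq`, `ce_ne`, `ce_cut`, `ce_deg`,
`ce_two` can be copied). It is loopless and cubic (the new vertex `none` lies on the three
edges of `cutS X`), it has `|X| + 1 < card V ≤ n` vertices because `|Xᶜ| ≥ 2`, and it is
3-edge-connected: a cut given by `A` is, after replacing `A` by its complement if `none ∈ A`, the
cut of the set `Y ⊆ X` of vertices in `A`, and it has the same edges as `cutS a b Y` in the old
graph, where `Y ≠ ∅` and `Y ≠ V`. Apply `IH` with the edge `e0`: get `M'`, and put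
`N := ` the underlying edges of `M'`. `SPM` and `e0 ∈ N` are clear, the unique edge of `M'` at
`none` is the unique edge of `N` in `cutS X`, and `G0` follows from `NoSmall` of `M'` applied to
the copy of `Y` (its complement contains `none`). -/
theorem side3 {n : ℕ} (IH : KSn n) {a b : E → V} (hC : Cubic a b) (h3 : Conn3 a b)
    (hn : Fintype.card V ≤ n) {X : Finset V} (hX : cut a b X = 3) (hXne : X.Nonempty)
    (hXc : 2 ≤ Xᶜ.card) (e0 : E) (he0 : a e0 ∈ X ∨ b e0 ∈ X) :
    ∃ N : Finset E, SPM a b X N ∧ e0 ∈ N ∧ (cutS a b X ∩ N).card = 1 ∧ G0 a b X N := by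
  have hcard : Fintype.card (Option {x // x ∈ X}) < n := by
    rw [Fintype.card_option, Fintype.card_coe]
    have := Finset.card_add_card_compl X
    omega
  have hXcne : Xᶜ.Nonempty := Finset.card_pos.mp (by omega)
  obtain ⟨M, hM0, hPM, hNS⟩ := IH (Option {x // x ∈ X}) (S3E a b X) (s3a a b X) (s3b a b X) hcard
    ⟨s3_ne a b hC.1 X, s3_deg a b hC.2 X hX⟩ (s3_conn a b h3 X hXcne) ⟨e0, he0⟩
  have hmem : ∀ (e : E) (h : a e ∈ X ∨ b e ∈ X),
      e ∈ M.image (fun e : S3E a b X => e.1) ↔ (⟨e, h⟩ : S3E a b X) ∈ M := by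
    intro e h
    rw [Finset.mem_image]
    constructor
    · rintro ⟨f, hf, rfl⟩; exact hf
    · intro hf; exact ⟨⟨e, h⟩, hf, rfl⟩
  have hsub : ∀ e ∈ M.image (fun e : S3E a b X => e.1), a e ∈ X ∨ b e ∈ X := by
    intro e he
    rw [Finset.mem_image] at he
    obtain ⟨f, _, rfl⟩ := he
    exact f.2
  refine ⟨M.image (fun e : S3E a b X => e.1), ⟨hsub, ?_⟩, (hmem e0 he0).mpr hM0, ?_, ?_⟩
  · intro x hx
    obtain ⟨e, ⟨he1, he2⟩, heu⟩ := hPM (some ⟨x, hx⟩)
    unfold s3a s3b at he2
    rw [s3q_some, s3q_some] at he2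
    refine ⟨e.1, ⟨(hmem e.1 e.2).mpr he1, he2⟩, ?_⟩
    rintro f ⟨hf1, hf2⟩
    have hf3 := hsub f hf1
    have := heu ⟨f, hf3⟩ ⟨(hmem f hf3).mp hf1, by
      unfold s3a s3b
      rw [s3q_some, s3q_some]; exact hf2⟩
    rw [← this]
  · obtain ⟨e, ⟨he1, he2⟩, heu⟩ := hPM none
    rw [Finset.card_eq_one]
    refine ⟨e.1, ?_⟩
    ext f
    rw [Finset.mem_inter, Finset.mem_singleton]
    unfold s3a s3b at he2
    rw [s3q_none, s3q_none] at he2
    constructor
    · rintro ⟨hf1, hf2⟩
      have hf3 := hsub f hf2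
      rw [mem_cutS] at hf1
      have := heu ⟨f, hf3⟩ ⟨(hmem f hf3).mp hf2, by
        unfold s3a s3b
        rw [s3q_none, s3q_none]; tauto⟩
      rw [← this]
    · rintro rfl
      refine ⟨?_, (hmem e.1 e.2).mpr he1⟩
      rw [mem_cutS]
      have := e.2
      tauto
  · intro Y hYX hY hYN
    have hfil : (univ.filter (fun x => s3q X x ∈ Y.image (s3q X)) : Finset V) = Y := by
      ext x
      simp only [Finset.mem_filter, Finset.mem_univ, true_and, Finset.mem_image]
      constructor
      · rintro ⟨y, hy, hyx⟩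
        rw [s3q_mem (hYX hy)] at hyx
        have := s3q_some.mp hyx.symm
        rw [this]; exact hy
      · intro hx; exact ⟨x, hx, rfl⟩
    have h5 := hNS (Y.image (s3q X)) (hY.image _) ⟨none, by
      rw [Finset.mem_compl, Finset.mem_image]
      rintro ⟨y, hy, hyx⟩
      exact s3q_none.mp hyx (hYX hy)⟩ (by
        intro e he
        rw [s3_cutS, hfil] at he
        exact (hmem e.1 e.2).mp (hYN he))
    rw [s3_cut, hfil] at h5
    exact h5

end Pool.Agent.helper54.LFP
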