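import Mathlib
import Pool.Agent.helper60.ECD.Match
import Pool.Agent.helper54.LFP.KSSide3
import Pool.Agent.helper54.LFP.KSChoice

/-! [LFP-K9] The theorem of Kaiser and Skrekovski with a prescribed edge, for 3-edge-connected cubic
multigraphs. -/

namespace Pool.Agent.helper54.LFP

open Finset Pool.Agent.helper60.ECD

private theorem KSMain_three {n : ℕ} (IH : KSn n) {V E : Type} [Fintype V] [Fintype E]
    [DecidableEq V] [DecidableEq E] {a b : E → V} (hC : Cubic a b) (h3 : Conn3 a b)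
    (hn : Fintype.card V ≤ n) {X : Finset V} (hX : cut a b X = 3) (hX1 : 3 ≤ X.card)
    (hX2 : 3 ≤ Xᶜ.card) (e0 : E) (he0 : a e0 ∈ X ∨ b e0 ∈ X) :
    ∃ M : Finset E, e0 ∈ M ∧ PM a b M ∧ NoSmall a b M := by
  obtain ⟨N1, hS1, he1, hc1, hG1⟩ := side3 IH hC h3 hn hX (card_pos.1 (by omega)) (by omega) e0 he0
  obtain ⟨f, hf⟩ := card_eq_one.1 hc1
  have hfm : f ∈ cutS a b X ∩ N1 := by
    rw [hf]
    exact mem_singleton_self f
  rw [mem_inter] at hfm
  have hft : a f ∈ Xᶜ ∨ b f ∈ Xᶜ := by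
    have h := mem_cutS.1 hfm.1
    rw [mem_compl, mem_compl]
    tauto
  have hX' : cut a b Xᶜ = 3 := by rw [cut_compl]; exact hX
  obtain ⟨N2, hS2, he2, hc2, hG2⟩ := side3 IH hC h3 hn hX' (card_pos.1 (by omega))
    (by rw [compl_compl]; omega) f hft
  rw [cutS_compl] at hc2
  obtain ⟨g, hg⟩ := card_eq_one.1 hc2
  have hfg : f = g := by
    have h : f ∈ cutS a b X ∩ N2 := mem_inter.2 ⟨hfm.1, he2⟩
    rw [hg, mem_singleton] at h
    exact h
  subst hfg
  have hag : ∀ e ∈ cutS a b X, (e ∈ N1 ↔ e ∈ N2) := by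
    intro e he
    have h1 : e ∈ N1 ↔ e ∈ cutS a b X ∩ N1 := by rw [mem_inter]; tauto
    have h2 : e ∈ N2 ↔ e ∈ cutS a b X ∩ N2 := by rw [mem_inter]; tauto
    rw [h1, h2, hf, hg]
  have hF2 : (cutS a b X \ N1).card = 2 := by
    have h := card_sdiff_add_card_inter (cutS a b X) N1
    rw [hc1] at h
    unfold cut at hX
    omega
  obtain ⟨hPM, hNS⟩ := glue_two hC hS1 hS2 hag hG1 hG2 (by omega) hF2
  exact ⟨N1 ∪ N2, mem_union_left _ he1, hPM, hNS⟩

private theorem KSMain_touch {V E : Type} [Fintype V] [DecidableEq V] (a b : E → V)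
    (X : Finset V) (e0 : E) : (a e0 ∈ X ∨ b e0 ∈ X) ∨ (a e0 ∈ Xᶜ ∨ b e0 ∈ Xᶜ) := by
  rw [mem_compl, mem_compl]
  tauto

private theorem KSMain_all (n : ℕ) : KSn n := by
  induction n with
  | zero =>
    intro V E _ _ _ _ a b hn
    exact absurd hn (Nat.not_lt_zero _)
  | succ n IH =>
    intro V E _ _ _ _ a b hn' hC h3 e0
    have hn : Fintype.card V ≤ n := by omega
    by_cases hex3 : ∃ X : Finset V, cut a b X = 3 ∧ 3 ≤ X.card ∧ 3 ≤ Xᶜ.card
    · obtain ⟨X, hX, hX1, hX2⟩ := hex3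
      rcases KSMain_touch a b X e0 with he0 | he0
      · exact KSMain_three IH hC h3 hn hX hX1 hX2 e0 he0
      · exact KSMain_three IH hC h3 hn (by rw [cut_compl]; exact hX) hX2
          (by rw [compl_compl]; exact hX1) e0 he0
    · have hno3 : ∀ A : Finset V, cut a b A = 3 → A.card < 3 ∨ Aᶜ.card < 3 := by
        intro A hA
        by_contra hcon
        rw [not_or, not_lt, not_lt] at hcon
        exact hex3 ⟨A, hA, hcon.1, hcon.2⟩
      by_cases hex4 : ∃ X : Finset V, cut a b X = 4 ∧ 4 ≤ X.card ∧ 4 ≤ Xᶜ.card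
      · obtain ⟨X, hX, hX1, hX2⟩ := hex4
        rcases KSMain_touch a b X e0 with he0 | he0
        · exact case4 IH hC h3 hn hno3 hX hX1 hX2 e0 he0
        · exact case4 IH hC h3 hn hno3 (by rw [cut_compl]; exact hX) hX2
            (by rw [compl_compl]; exact hX1) e0 he0
      · obtain ⟨M, heM, hM⟩ := exists_matching a b hC.1 hC.2
          (fun A h1 h2 => by have := h3 A h1 h2; omega) e0
        refine ⟨M, heM, hM, ?_⟩
        intro A hA1 hA2 hAM
        have hM' : PM a b M := hM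
        have c1 := cut_le_card hM' hAM
        have c2 := cut_le_card hM' (A := Aᶜ) (by rw [cutS_compl]; exact hAM)
        rw [cut_compl] at c2
        have c3 := h3 A hA1 hA2
        by_contra hcon
        rcases (by omega : cut a b A = 3 ∨ cut a b A = 4) with h | h
        · rcases hno3 A h with h' | h' <;> omega
        · exact hex4 ⟨A, h, by omega, by omega⟩

/-- Proof: strong induction on the number of vertices; let `n = card V` and assume `KSn n`.
(1) There is `X` with `cut X = 3`, `3 ≤ |X|`, `3 ≤ |Xᶜ|`. Replacing `X` by `Xᶜ` we may assume that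
`e0` touches `X`. `side3` for `X`, `e0` gives `N1`, let `cutS X ∩ N1 = {f}`; `side3` for `Xᶜ`, `f`
gives `N2` with `cutS X ∩ N2 = {f}`; use `glue_two`.
(2) No such `X`, but there is `X` with `cut X = 4`, `4 ≤ |X|`, `4 ≤ |Xᶜ|`: `case4` (again
`e0` touches `X` or `Xᶜ`).
(3) Otherwise take `M ∋ e0` from `Pool.Agent.helper60.ECD.exists_matching`. If `cutS A ⊆ M`, `A` and
`Aᶜ` nonempty, then `cut A ≤ |A|` and `cut A ≤ |Aᶜ|` by `cut_le_card`, and `3 ≤ cut A`. If
`cut A = 3` then `|A|, |Aᶜ| ≥ 3`, excluded by (1); if `cut A = 4` excluded by (2). -/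
theorem ks_main {V E : Type} [Fintype V] [Fintype E] [DecidableEq V] [DecidableEq E]
    {a b : E → V} (hC : Cubic a b) (h3 : Conn3 a b) (e0 : E) :
    ∃ M : Finset E, e0 ∈ M ∧ PM a b M ∧ NoSmall a b M :=
  KSMain_all (Fintype.card V + 1) V E a b (Nat.lt_succ_self _) hC h3 e0

end Pool.Agent.helper54.LFP
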