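import Mathlib
import Pool.Agent.helper54.LFP.Defs

/-! [LFP-T1] Duality over `ZMod 2` on the sphere. -/

namespace Pool.Agent.helper54.LFP

open Finset Pool.Agent.helper60.ECD

variable {E : Type} [Fintype E] [DecidableEq E]

/-- The space of edge functions which are differences of vertex functions. -/
def diffMap {W : Type} (a b : E → W) : (W → ZMod 2) →ₗ[ZMod 2] (E → ZMod 2) where
  toFun x := fun e => x (a e) + x (b e)
  map_add' x y := by ext e; simp only [Pi.add_apply]; ring
  map_smul' c x := by ext e; simp only [Pi.smul_apply, smul_eq_mul, RingHom.id_apply]; ring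

private lemma tdual_add_eq_zero (x y : ZMod 2) : x + y = 0 ↔ x = y := by
  revert x y
  decide

/-- Proof: the kernel of `diffMap` consists of the functions which are constant (for `x` in the
kernel let `A = {w : x w = x w₀}`; `cutS a b A = ∅`), it is the line spanned by the constant function
`1`; rank-nullity (`LinearMap.finrank_range_add_finrank_ker`). -/
theorem finrank_range_diffMap {W : Type} [Fintype W] [DecidableEq W] [Nonempty W] (a b : E → W)
    (hc : ∀ A : Finset W, A.Nonempty → Aᶜ.Nonempty → 1 ≤ cut a b A) :
    Module.finrank (ZMod 2) (LinearMap.range (diffMap a b)) + 1 = Fintype.card W := by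
  classical
  have hker : LinearMap.ker (diffMap a b) = Submodule.span (ZMod 2) {(fun _ => 1 : W → ZMod 2)} := by
    ext x
    rw [LinearMap.mem_ker, Submodule.mem_span_singleton]
    constructor
    · intro hx
      obtain ⟨w0⟩ := ‹Nonempty W›
      refine ⟨x w0, ?_⟩
      ext w
      simp only [Pi.smul_apply, smul_eq_mul, mul_one]
      by_contra hne
      have h1 := hc (univ.filter fun w => x w = x w0) ⟨w0, by simp⟩
        ⟨w, by simp only [Finset.mem_compl, Finset.mem_filter, Finset.mem_univ, true_and]
               exact fun h => hne h.symm⟩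
      unfold cut at h1
      obtain ⟨e, he⟩ := Finset.card_pos.1 h1
      rw [mem_cutS] at he
      apply he
      have h2 : x (a e) + x (b e) = 0 := congrFun hx e
      rw [tdual_add_eq_zero] at h2
      simp only [Finset.mem_filter, Finset.mem_univ, true_and, h2]
    · rintro ⟨c, rfl⟩
      ext e
      simp only [diffMap, LinearMap.coe_mk, AddHom.coe_mk, Pi.smul_apply, smul_eq_mul, mul_one,
        Pi.zero_apply]
      rw [tdual_add_eq_zero]
  have h1 : Module.finrank (ZMod 2) (LinearMap.ker (diffMap a b)) = 1 := by
    rw [hker]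
    apply finrank_span_singleton
    intro h
    obtain ⟨w0⟩ := ‹Nonempty W›
    have := congrFun h w0
    simp at this
  have h2 := LinearMap.finrank_range_add_finrank_ker (diffMap a b)
  rw [h1, Module.finrank_fintype_fun_eq_card] at h2
  exact h2

/-- the incidence matrix -/
private def tdualM {W : Type} [DecidableEq W] (a b : E → W) : Matrix E W (ZMod 2) :=
  fun e w => (if a e = w then 1 else 0) + (if b e = w then 1 else 0)

private lemma tdual_mulVec {W : Type} [Fintype W] [DecidableEq W] (a b : E → W) :
    (tdualM a b).mulVecLin = diffMap a b := by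
  ext x e
  simp [tdualM, diffMap, Matrix.mulVec, dotProduct, add_mul, Finset.sum_add_distrib]

private lemma tdual_transpose {W : Type} [Fintype W] [DecidableEq W] (a b : E → W)
    (h : ∀ e, a e ≠ b e) (c : E → ZMod 2) (w : W) :
    ((tdualM a b).transpose.mulVecLin c) w = ∑ e ∈ starS a b w, c e := by
  have h1 : ∀ e, (tdualM a b) e w * c e = if a e = w ∨ b e = w then c e else 0 := by
    intro e
    unfold tdualM
    by_cases ha : a e = w
    · have hb : b e ≠ w := fun hb => h e (ha.trans hb.symm)
      simp [ha, hb]
    · by_cases hb : b e = w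
      · simp [ha, hb]
      · simp [ha, hb]
  rw [starS, Finset.sum_filter]
  simp only [Matrix.mulVecLin_apply, Matrix.mulVec, dotProduct, Matrix.transpose_apply]
  exact Finset.sum_congr rfl fun e _ => h1 e

/-- Two connected loopless multigraphs with the same edge set `E` and `V + F = E + 2` whose vertex
stars meet evenly: every edge function with even sums over the stars of the second graph is a
difference function for the first one.

Proof. Let `R0`, `R1` be the ranges of `diffMap a0 b0` and `diffMap a1 b1`, of dimension
`card V - 1` and `card F - 1`. The transposed map of `diffMap a1 b1` is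
`S : (E → ZMod 2) → (F → ZMod 2)`, `S c f = Σ_{e ∈ starS a1 b1 f} c e` (loopless!), and
`finrank (range S) = finrank R1` (`Matrix.rank_transpose`, or: the kernel of `S` is the orthogonal
complement of `R1` for the dot product), so `finrank (ker S) = card E - (card F - 1) =
card V - 1 = finrank R0`. `R0 ≤ ker S` because
`Σ_{e ∈ starS a1 b1 f} (x (a0 e) + x (b0 e)) = Σ_v x v · #(starS a0 b0 v ∩ starS a1 b1 f) = 0`.
So `R0 = ker S` (`Submodule.eq_of_le_of_finrank_eq`). -/
theorem duality {V F : Type} [Fintype V] [DecidableEq V] [Nonempty V] [Fintype F] [DecidableEq F]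
    [Nonempty F] (a0 b0 : E → V) (a1 b1 : E → F) (h0 : ∀ e, a0 e ≠ b0 e) (h1 : ∀ e, a1 e ≠ b1 e)
    (hV : ∀ A : Finset V, A.Nonempty → Aᶜ.Nonempty → 1 ≤ cut a0 b0 A)
    (hF : ∀ A : Finset F, A.Nonempty → Aᶜ.Nonempty → 1 ≤ cut a1 b1 A)
    (hE : Fintype.card V + Fintype.card F = Fintype.card E + 2)
    (horth : ∀ v f, Even (starS a0 b0 v ∩ starS a1 b1 f).card)
    (c : E → ZMod 2) (hc : ∀ f, ∑ e ∈ starS a1 b1 f, c e = 0) :
    ∃ x : V → ZMod 2, ∀ e, c e = x (a0 e) + x (b0 e) := by
  classical
  have hr0 := finrank_range_diffMap a0 b0 hV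
  have hr1 := finrank_range_diffMap a1 b1 hF
  have hrank : Module.finrank (ZMod 2) (LinearMap.range (tdualM a1 b1).transpose.mulVecLin) + 1 =
      Fintype.card F := by
    have h2 := Matrix.rank_transpose (tdualM a1 b1)
    unfold Matrix.rank at h2
    rw [h2, tdual_mulVec]
    exact hr1
  have hker := LinearMap.finrank_range_add_finrank_ker (tdualM a1 b1).transpose.mulVecLin
  rw [Module.finrank_fintype_fun_eq_card] at hker
  have hle : LinearMap.range (diffMap a0 b0) ≤ LinearMap.ker (tdualM a1 b1).transpose.mulVecLin := by
    rintro _ ⟨x, rfl⟩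
    rw [LinearMap.mem_ker]
    ext f
    rw [tdual_transpose a1 b1 h1, Pi.zero_apply]
    have h3 : ∀ e, diffMap a0 b0 x e = ∑ v, (tdualM a0 b0) e v * x v := by
      intro e
      rw [← tdual_mulVec]
      simp [Matrix.mulVec, dotProduct]
    simp only [h3]
    rw [Finset.sum_comm]
    apply Finset.sum_eq_zero
    intro v _
    rw [← Finset.sum_mul]
    have h4 : ∑ e ∈ starS a1 b1 f, (tdualM a0 b0) e v =
        ((starS a0 b0 v ∩ starS a1 b1 f).card : ZMod 2) := by
      have h5 : ∀ e, (tdualM a0 b0) e v = if e ∈ starS a0 b0 v then 1 else 0 := by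
        intro e
        unfold tdualM
        by_cases ha : a0 e = v
        · have hb : b0 e ≠ v := fun hb => h0 e (ha.trans hb.symm)
          simp [mem_starS, ha, hb]
        · by_cases hb : b0 e = v
          · simp [mem_starS, ha, hb]
          · simp [mem_starS, ha, hb]
      simp only [h5]
      rw [Finset.sum_boole, Finset.inter_comm]
      congr 2
    rw [h4]
    have h6 : ((starS a0 b0 v ∩ starS a1 b1 f).card : ZMod 2) = 0 := by
      rw [ZMod.natCast_eq_zero_iff]
      exact (horth v f).two_dvd
    rw [h6, zero_mul]
  have heq : LinearMap.range (diffMap a0 b0) =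
      LinearMap.ker (tdualM a1 b1).transpose.mulVecLin := by
    apply Submodule.eq_of_le_of_finrank_eq hle
    omega
  have hmem : c ∈ LinearMap.ker (tdualM a1 b1).transpose.mulVecLin := by
    rw [LinearMap.mem_ker]
    ext f
    rw [tdual_transpose a1 b1 h1, Pi.zero_apply]
    exact hc f
  rw [← heq] at hmem
  obtain ⟨x, hx⟩ := hmem
  exact ⟨x, fun e => (congrFun hx e).symm⟩

end Pool.Agent.helper54.LFP
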