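import Mathlib
import Pool.Agent.helper54.LFP.Defs

/-! [LFP-T2] The graph of a triangulated sphere and its dual graph. Proofs by helper59. -/

namespace Pool.Agent.helper54.LFP

open Finset Pool.Agent.helper60.ECD

variable {V : Type} [Fintype V] [DecidableEq V]

/-- the type of edges -/
abbrev TE (T : SphereTri V) : Type := {p : Finset V // p ∈ edgesOf T.faces}

/-- the type of triangles -/
abbrev TF (T : SphereTri V) : Type := {t : Finset V // t ∈ T.faces}

/-- a choice of the two ends and of the two triangles of every edge -/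
structure Ends (T : SphereTri V) where
  a0 : TE T → V
  b0 : TE T → V
  a1 : TE T → TF T
  b1 : TE T → TF T
  ne0 : ∀ e, a0 e ≠ b0 e
  pair : ∀ e : TE T, e.1 = {a0 e, b0 e}
  ne1 : ∀ e, a1 e ≠ b1 e
  two : ∀ (e : TE T) (t : TF T), e.1 ⊆ t.1 ↔ (t = a1 e ∨ t = b1 e)

private theorem TGraph_mem {faces : Finset (Finset V)} {p : Finset V} :
    p ∈ edgesOf faces ↔ p.card = 2 ∧ ∃ t ∈ faces, p ⊆ t := by
  unfold edgesOf
  rw [mem_filter]
  exact ⟨fun h => h.2, fun h => ⟨mem_univ _, h⟩⟩

/-- Proof: an edge has two elements (`Finset.card_eq_two`), and lies in exactly two triangles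
(`two_faces`). -/
theorem exists_ends (T : SphereTri V) : Nonempty (Ends T) := by
  have h0 : ∀ e : TE T, ∃ x y, x ≠ y ∧ e.1 = {x, y} := fun e =>
    card_eq_two.1 (TGraph_mem.1 e.2).1
  have h1 : ∀ e : TE T, ∃ x y : TF T, x ≠ y ∧ ∀ t : TF T, e.1 ⊆ t.1 ↔ (t = x ∨ t = y) := by
    intro e
    obtain ⟨t1, t2, hne, heq⟩ := card_eq_two.1 (T.two_faces e.1 e.2)
    have m1 : t1 ∈ T.faces.filter (fun t => e.1 ⊆ t) := by
      rw [heq]; exact mem_insert_self _ _
    have m2 : t2 ∈ T.faces.filter (fun t => e.1 ⊆ t) := by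
      rw [heq]; exact mem_insert_of_mem (mem_singleton_self _)
    refine ⟨⟨t1, (mem_filter.1 m1).1⟩, ⟨t2, (mem_filter.1 m2).1⟩,
      fun h => hne (congrArg Subtype.val h), ?_⟩
    intro t
    constructor
    · intro h
      have m3 : t.1 ∈ T.faces.filter (fun t => e.1 ⊆ t) := mem_filter.2 ⟨t.2, h⟩
      rw [heq, mem_insert, mem_singleton] at m3
      rcases m3 with m3 | m3
      · exact Or.inl (Subtype.ext m3)
      · exact Or.inr (Subtype.ext m3)
    · rintro (h | h)
      · rw [h]; exact (mem_filter.1 m1).2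
      · rw [h]; exact (mem_filter.1 m2).2
  choose a0 b0 hne0 hp using h0
  choose a1 b1 hne1 ht using h1
  exact ⟨⟨a0, b0, a1, b1, hne0, hp, hne1, ht⟩⟩

private theorem TGraph_star1 {T : SphereTri V} (D : Ends T) {t : TF T} {e : TE T} :
    e ∈ starS D.a1 D.b1 t ↔ e.1 ⊆ t.1 := by
  rw [mem_starS, D.two e t]
  exact ⟨fun h => h.imp Eq.symm Eq.symm, fun h => h.imp Eq.symm Eq.symm⟩

private theorem TGraph_star0 {T : SphereTri V} (D : Ends T) {v : V} {e : TE T} :
    e ∈ starS D.a0 D.b0 v ↔ v ∈ e.1 := by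
  rw [mem_starS, D.pair e, mem_insert, mem_singleton]
  exact ⟨fun h => h.imp Eq.symm Eq.symm, fun h => h.imp Eq.symm Eq.symm⟩

/-- the dual graph is cubic: a triangle has exactly three edges -/
theorem Ends.cubic {T : SphereTri V} (D : Ends T) : Cubic D.a1 D.b1 := by
  refine ⟨D.ne1, fun t => ?_⟩
  have h : (starS D.a1 D.b1 t).map ⟨Subtype.val, Subtype.val_injective⟩ =
      t.1.powersetCard 2 := by
    ext p
    rw [mem_map, mem_powersetCard]
    constructor
    · rintro ⟨e, he, rfl⟩
      rw [TGraph_star1] at he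
      exact ⟨he, (TGraph_mem.1 e.2).1⟩
    · rintro ⟨h1, h2⟩
      exact ⟨⟨p, TGraph_mem.2 ⟨h2, t.1, t.2, h1⟩⟩, (TGraph_star1 D).2 h1, rfl⟩
  rw [← card_map, h, card_powersetCard, T.card_face t.1 t.2]
  rfl

/-- the dual graph is connected: follow the chain given by `T.connected` from a triangle in `A` to
one outside `A`; two consecutive triangles `p ∈ A`, `q ∉ A` have an edge `p ∩ q` in common, and its
two triangles are `p` and `q`. -/
theorem Ends.conn1 {T : SphereTri V} (D : Ends T) (A : Finset (TF T)) (hA : A.Nonempty)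
    (hA' : Aᶜ.Nonempty) : 1 ≤ cut D.a1 D.b1 A := by
  by_contra hcut
  have h0 : cutS D.a1 D.b1 A = ∅ := by
    rw [← card_eq_zero]
    unfold cut at hcut
    omega
  have hiff : ∀ e : TE T, D.a1 e ∈ A ↔ D.b1 e ∈ A := by
    intro e
    by_contra hne
    have : e ∈ cutS D.a1 D.b1 A := mem_cutS.2 hne
    rw [h0] at this
    exact notMem_empty _ this
  obtain ⟨s, hs⟩ := hA
  obtain ⟨t, ht⟩ := hA'
  have key : ∀ q : Finset V, Relation.ReflTransGen
      (fun p q => p ∈ T.faces ∧ q ∈ T.faces ∧ (p ∩ q).card = 2) s.1 q →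
      ∀ hq : q ∈ T.faces, (⟨q, hq⟩ : TF T) ∈ A := by
    intro q hq
    induction hq with
    | refl => intro _; exact hs
    | @tail p q _ hstep ih =>
      intro hq
      obtain ⟨h1, h2, h3⟩ := hstep
      have hpA := ih h1
      obtain ⟨e, he⟩ : ∃ e : TE T, e.1 = p ∩ q :=
        ⟨⟨p ∩ q, TGraph_mem.2 ⟨h3, p, h1, inter_subset_left⟩⟩, rfl⟩
      have e1 := (D.two e ⟨p, h1⟩).1 (by rw [he]; exact inter_subset_left)
      have e2 := (D.two e ⟨q, hq⟩).1 (by rw [he]; exact inter_subset_right)
      have hi := hiff e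
      rcases e1 with e1 | e1 <;> rcases e2 with e2 | e2
      · rw [e2, ← e1]; exact hpA
      · rw [e2]; exact hi.1 (by rw [← e1]; exact hpA)
      · rw [e2]; exact hi.2 (by rw [← e1]; exact hpA)
      · rw [e2, ← e1]; exact hpA
  exact (mem_compl.1 ht) (key t.1 (T.connected s.1 s.2 t.1 t.2) t.2)

/-- the graph is connected: if no edge has exactly one end in `A` then every triangle is contained
in `A` or disjoint from `A`; neighbouring triangles are of the same kind, so all triangles are; and
every vertex lies in a triangle (`covers`). -/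
theorem Ends.conn0 {T : SphereTri V} (D : Ends T) (A : Finset V) (hA : A.Nonempty)
    (hA' : Aᶜ.Nonempty) : 1 ≤ cut D.a0 D.b0 A := by
  by_contra hcut
  have h0 : cutS D.a0 D.b0 A = ∅ := by
    rw [← card_eq_zero]
    unfold cut at hcut
    omega
  have hiff : ∀ e : TE T, D.a0 e ∈ A ↔ D.b0 e ∈ A := by
    intro e
    by_contra hne
    have : e ∈ cutS D.a0 D.b0 A := mem_cutS.2 hne
    rw [h0] at this
    exact notMem_empty _ this
  have hpair : ∀ q ∈ T.faces, ∀ u ∈ q, ∀ v ∈ q, u ∈ A → v ∈ A := by
    intro q hq u hu v hv huA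
    by_cases huv : u = v
    · rw [← huv]; exact huA
    · obtain ⟨e, he⟩ : ∃ e : TE T, e.1 = {u, v} := by
        refine ⟨⟨{u, v}, TGraph_mem.2 ⟨card_pair huv, q, hq, ?_⟩⟩, rfl⟩
        intro w hw
        rw [mem_insert, mem_singleton] at hw
        rcases hw with rfl | rfl
        · exact hu
        · exact hv
      have hp := D.pair e
      rw [he] at hp
      have hu' : u ∈ ({D.a0 e, D.b0 e} : Finset V) := by
        rw [← hp]; exact mem_insert_self _ _
      have hv' : v ∈ ({D.a0 e, D.b0 e} : Finset V) := by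
        rw [← hp]; exact mem_insert_of_mem (mem_singleton_self _)
      rw [mem_insert, mem_singleton] at hu' hv'
      have hi := hiff e
      rcases hu' with h1 | h1 <;> rcases hv' with h2 | h2
      · exact absurd (h1.trans h2.symm) huv
      · rw [h2]; exact hi.1 (by rw [← h1]; exact huA)
      · rw [h2]; exact hi.2 (by rw [← h1]; exact huA)
      · exact absurd (h1.trans h2.symm) huv
  obtain ⟨x, hx⟩ := hA
  obtain ⟨y, hy⟩ := hA'
  obtain ⟨s, hs, hxs⟩ := T.covers x
  obtain ⟨t, ht, hyt⟩ := T.covers y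
  have key : ∀ q : Finset V, Relation.ReflTransGen
      (fun p q => p ∈ T.faces ∧ q ∈ T.faces ∧ (p ∩ q).card = 2) s q →
      ∀ v ∈ q, v ∈ A := by
    intro q hq
    induction hq with
    | refl => exact fun v hv => hpair s hs x hxs v hv hx
    | @tail p q _ hstep ih =>
      obtain ⟨h1, h2, h3⟩ := hstep
      intro v hv
      obtain ⟨w, hw⟩ : (p ∩ q).Nonempty := by
        rw [← card_pos]; omega
      rw [mem_inter] at hw
      exact hpair q h2 w hw.2 v hv (ih w hw.1)
  exact (mem_compl.1 hy) (key t (T.connected s hs t ht) y hyt)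

/-- a vertex of a triangle lies on exactly two of its edges, other vertices on none -/
theorem Ends.even_star {T : SphereTri V} (D : Ends T) (v : V) (t : TF T) :
    Even (starS D.a0 D.b0 v ∩ starS D.a1 D.b1 t).card := by
  by_cases hv : v ∈ t.1
  · have h : (starS D.a0 D.b0 v ∩ starS D.a1 D.b1 t).map ⟨Subtype.val, Subtype.val_injective⟩ =
        (t.1.erase v).image (fun w => ({v, w} : Finset V)) := by
      ext p
      rw [mem_map, mem_image]
      constructor
      · rintro ⟨e, he, rfl⟩
        rw [mem_inter, TGraph_star0, TGraph_star1] at he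
        obtain ⟨x, y, hxy, hexy⟩ := card_eq_two.1 (TGraph_mem.1 e.2).1
        obtain ⟨h1, h2⟩ := he
        rw [hexy, mem_insert, mem_singleton] at h1
        change ∃ w ∈ t.1.erase v, ({v, w} : Finset V) = e.1
        have hx : x ∈ t.1 := h2 (by rw [hexy]; exact mem_insert_self _ _)
        have hy : y ∈ t.1 := h2 (by rw [hexy]; exact mem_insert_of_mem (mem_singleton_self _))
        rcases h1 with h1 | h1
        · refine ⟨y, mem_erase.2 ⟨fun h => hxy (by rw [← h1, h]), hy⟩, ?_⟩
          rw [hexy, h1]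
        · refine ⟨x, mem_erase.2 ⟨fun h => hxy (by rw [← h1, h]), hx⟩, ?_⟩
          rw [hexy, h1, pair_comm]
      · rintro ⟨w, hw, rfl⟩
        rw [mem_erase] at hw
        have hsub : ({v, w} : Finset V) ⊆ t.1 := by
          intro z hz
          rw [mem_insert, mem_singleton] at hz
          rcases hz with rfl | rfl
          · exact hv
          · exact hw.2
        refine ⟨⟨{v, w}, TGraph_mem.2 ⟨card_pair hw.1.symm, t.1, t.2, hsub⟩⟩, ?_, rfl⟩
        rw [mem_inter, TGraph_star0, TGraph_star1]
        exact ⟨mem_insert_self _ _, hsub⟩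
    have hc : (starS D.a0 D.b0 v ∩ starS D.a1 D.b1 t).card = 2 := by
      rw [← card_map, h, card_image_of_injOn, card_erase_of_mem hv, T.card_face t.1 t.2]
      intro x hx y hy hxy
      rw [mem_coe, mem_erase] at hx hy
      have h1 : x ∈ ({v, y} : Finset V) := by
        have : x ∈ ({v, x} : Finset V) := mem_insert_of_mem (mem_singleton_self _)
        change ({v, x} : Finset V) = {v, y} at hxy
        rwa [hxy] at this
      rw [mem_insert, mem_singleton] at h1
      exact h1.resolve_left hx.1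
    rw [hc]
    exact even_two
  · have h : starS D.a0 D.b0 v ∩ starS D.a1 D.b1 t = ∅ := by
      rw [eq_empty_iff_forall_notMem]
      intro e he
      rw [mem_inter, TGraph_star0, TGraph_star1] at he
      exact hv (he.2 he.1)
    rw [h, card_empty]
    exact Even.zero

/-- Euler's formula -/
theorem Ends.euler {T : SphereTri V} (_D : Ends T) :
    Fintype.card V + Fintype.card (TF T) = Fintype.card (TE T) + 2 := by
  rw [Fintype.card_coe, Fintype.card_coe]
  exact T.euler

/-- Proof: `3 F = 2 E` (`cubic_cut` for `A = univ` in helper60's `Cut.lean`, where the cut is empty)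
and Euler's formula. -/
theorem Ends.card_faces {T : SphereTri V} (D : Ends T) :
    Fintype.card (TF T) + 4 = 2 * Fintype.card V := by
  have hc := cubic_cut D.a1 D.b1 D.ne1 D.cubic.2 univ
  have h2 : cut D.a1 D.b1 univ = 0 := by simp [cut, cutS]
  have h3 : (univ.filter (fun e => D.a1 e ∈ (univ : Finset (TF T)) ∧
      D.b1 e ∈ (univ : Finset (TF T)))).card = Fintype.card (TE T) := by
    rw [filter_true_of_mem (fun e _ => ⟨mem_univ _, mem_univ _⟩), card_univ]
  rw [h2, h3, card_univ] at hc
  have he := D.euler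
  omega

theorem sphere_nonempty (T : SphereTri V) : Nonempty V ∧ Nonempty (TF T) ∧ Nonempty (TE T) := by
  have hV : Nonempty V := by
    by_contra hV
    have hV' : IsEmpty V := not_nonempty_iff.1 hV
    have hf : T.faces = ∅ := by
      rw [eq_empty_iff_forall_notMem]
      intro t ht
      obtain ⟨x, hx⟩ : t.Nonempty := by
        rw [← card_pos, T.card_face t ht]
        norm_num
      exact hV'.false x
    have he : edgesOf T.faces = ∅ := by
      rw [eq_empty_iff_forall_notMem]
      intro p hp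
      obtain ⟨-, t, ht, -⟩ := TGraph_mem.1 hp
      rw [hf] at ht
      exact notMem_empty _ ht
    have := T.euler
    rw [he, hf, card_empty, Fintype.card_eq_zero] at this
    omega
  obtain ⟨v⟩ := hV
  obtain ⟨t, ht, -⟩ := T.covers v
  obtain ⟨p, hp⟩ : (t.powersetCard 2).Nonempty := by
    rw [powersetCard_nonempty, T.card_face t ht]
    norm_num
  rw [mem_powersetCard] at hp
  exact ⟨⟨v⟩, ⟨⟨t, ht⟩⟩, ⟨⟨p, TGraph_mem.2 ⟨hp.2, t, ht, hp.1⟩⟩⟩⟩

end Pool.Agent.helper54.LFP
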