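import Mathlib
import Pool.Agent.helper54.LFP.TGraph
import Pool.Agent.helper54.LFP.TDual

/-! [LFP-T3] Cuts of the dual graph and cycles of the graph. -/

namespace Pool.Agent.helper54.LFP

open Finset Pool.Agent.helper60.ECD

variable {V : Type} [Fintype V] [DecidableEq V]

private lemma sum_inter_star {F E : Type} [Fintype F] [Fintype E] [DecidableEq F] [DecidableEq E]
    (a b : E → F) (hne : ∀ e, a e ≠ b e) (S : Finset E) (A : Finset F) :
    ∑ t ∈ A, (S ∩ starS a b t).card =
      (S ∩ cutS a b A).card + 2 * (S.filter (fun e => a e ∈ A ∧ b e ∈ A)).card := by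
  have h1 : ∑ t ∈ A, (S ∩ starS a b t).card =
      ∑ e ∈ S, ((if a e ∈ A then 1 else 0) + (if b e ∈ A then 1 else 0)) := by
    have : ∀ t ∈ A, (S ∩ starS a b t).card =
        ∑ e ∈ S, ((if a e = t then 1 else 0) + (if b e = t then 1 else 0)) := by
      intro t _
      have hS : S ∩ starS a b t = S.filter (fun e => a e = t ∨ b e = t) := by
        ext e
        simp [starS]
      rw [hS, Finset.card_filter]
      refine Finset.sum_congr rfl fun e _ => ?_
      have := hne e
      by_cases h1 : a e = t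
      · have h2 : ¬ b e = t := fun h2 => this (h1.trans h2.symm)
        simp [h1, h2]
      · by_cases h2 : b e = t
        · simp [h1, h2]
        · simp [h1, h2]
    rw [Finset.sum_congr rfl this, Finset.sum_comm]
    refine Finset.sum_congr rfl fun e _ => ?_
    rw [Finset.sum_add_distrib]
    simp
  have hC : S ∩ cutS a b A = S.filter (fun e => ¬ (a e ∈ A ↔ b e ∈ A)) := by
    ext e
    simp [cutS]
  rw [h1, hC, Finset.card_filter, Finset.card_filter, Finset.mul_sum, ← Finset.sum_add_distrib]
  refine Finset.sum_congr rfl fun e _ => ?_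
  by_cases h1 : a e ∈ A <;> by_cases h2 : b e ∈ A <;> simp [h1, h2]

/-- a cut of the dual graph meets the star of every vertex in an even number of edges. Proof: let
`A` be a set of triangles, `v` a vertex. Count the pairs `(e, t)`, `t ∈ A`, `e ⊆ t`, `v ∈ e`: for
each `t` their number is even (`even_star`). Each `e ∋ v` is counted `0`, `1` or `2` times, and once
iff `e ∈ cutS A`. -/
theorem Ends.even_cut {T : SphereTri V} (D : Ends T) (A : Finset (TF T)) (v : V) :
    Even (starS D.a0 D.b0 v ∩ cutS D.a1 D.b1 A).card := by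
  have h := sum_inter_star D.a1 D.b1 D.ne1 (starS D.a0 D.b0 v) A
  have h2 : Even (∑ t ∈ A, (starS D.a0 D.b0 v ∩ starS D.a1 D.b1 t).card) :=
    Finset.even_sum _ fun t _ => D.even_star v t
  rw [h, Nat.even_add] at h2
  exact h2.mpr (even_two_mul _)

/-- Proof: the cut is nonempty by `conn1`. If it has exactly one edge `e`, then the star of `a0 e`
meets it in one edge; if it has exactly two edges `e ≠ e'`, then by `even_cut` both ends of `e` are
ends of `e'`, so `e = e'` as sets. -/
theorem Ends.conn3 {T : SphereTri V} (D : Ends T) : Conn3 D.a1 D.b1 := by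
  intro A hA hA'
  have h1 := D.conn1 A hA hA'
  obtain ⟨e, he⟩ : (cutS D.a1 D.b1 A).Nonempty := Finset.card_pos.mp h1
  have key : ∀ v, (D.a0 e = v ∨ D.b0 e = v) →
      ∃ e' ∈ cutS D.a1 D.b1 A, e' ≠ e ∧ (D.a0 e' = v ∨ D.b0 e' = v) := by
    intro v hv
    have hev := D.even_cut A v
    have hmem : e ∈ starS D.a0 D.b0 v ∩ cutS D.a1 D.b1 A :=
      Finset.mem_inter.mpr ⟨mem_starS.mpr hv, he⟩
    have hpos : 0 < (starS D.a0 D.b0 v ∩ cutS D.a1 D.b1 A).card := Finset.card_pos.mpr ⟨e, hmem⟩
    have h2 : 1 < (starS D.a0 D.b0 v ∩ cutS D.a1 D.b1 A).card := by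
      obtain ⟨k, hk⟩ := hev
      omega
    obtain ⟨e', he', hne⟩ := Finset.exists_mem_ne h2 e
    exact ⟨e', (Finset.mem_inter.mp he').2, hne, mem_starS.mp (Finset.mem_inter.mp he').1⟩
  obtain ⟨e1, he1, hne1, hv1⟩ := key (D.a0 e) (Or.inl rfl)
  obtain ⟨e2, he2, hne2, hv2⟩ := key (D.b0 e) (Or.inr rfl)
  have h12 : e1 ≠ e2 := by
    intro h
    subst h
    apply hne1
    apply Subtype.ext
    rw [D.pair e1, D.pair e]
    have hne := D.ne0 e
    rcases hv1 with h3 | h3 <;> rcases hv2 with h4 | h4
    · exact absurd (h3.symm.trans h4) hne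
    · rw [h3, h4]
    · rw [h3, h4, Finset.pair_comm]
    · exact absurd (h3.symm.trans h4) hne
  have hsub : ({e, e1, e2} : Finset (TE T)) ⊆ cutS D.a1 D.b1 A := by
    intro x hx
    simp only [Finset.mem_insert, Finset.mem_singleton] at hx
    rcases hx with rfl | rfl | rfl
    · exact he
    · exact he1
    · exact he2
  have hcard : ({e, e1, e2} : Finset (TE T)).card = 3 :=
    Finset.card_eq_three.mpr ⟨e, e1, e2, hne1.symm, hne2.symm, h12, rfl⟩
  calc 3 = ({e, e1, e2} : Finset (TE T)).card := hcard.symm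
    _ ≤ cut D.a1 D.b1 A := Finset.card_le_card hsub

/-- a set of edges which meets every vertex star evenly is a cut of the dual graph. Proof: `duality`
with the roles of the graph and its dual exchanged, for the characteristic function of `Z`; put
`A = {t : x t = 1}`. -/
theorem Ends.cycle_is_cut {T : SphereTri V} (D : Ends T) (Z : Finset (TE T))
    (hZ : ∀ v, Even (starS D.a0 D.b0 v ∩ Z).card) :
    ∃ A : Finset (TF T), cutS D.a1 D.b1 A = Z := by
  obtain ⟨hV, hF, -⟩ := sphere_nonempty T
  have hE : Fintype.card (TF T) + Fintype.card V = Fintype.card (TE T) + 2 := by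
    rw [add_comm]; exact D.euler
  obtain ⟨x, hx⟩ := duality D.a1 D.b1 D.a0 D.b0 D.ne1 D.ne0 D.conn1 D.conn0 hE
    (fun t v => by rw [Finset.inter_comm]; exact D.even_star v t)
    (fun e => if e ∈ Z then 1 else 0)
    (fun v => by
      rw [← Finset.sum_filter, Finset.sum_const, nsmul_eq_mul, mul_one]
      have h1 : (starS D.a0 D.b0 v).filter (fun e => e ∈ Z) = starS D.a0 D.b0 v ∩ Z := by
        ext e; simp
      rw [h1]
      obtain ⟨k, hk⟩ := hZ v
      rw [hk]
      push_cast
      exact CharTwo.add_self_eq_zero _)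
  refine ⟨univ.filter (fun t => x t = 1), ?_⟩
  ext e
  rw [mem_cutS]
  simp only [Finset.mem_filter, Finset.mem_univ, true_and]
  have h := hx e
  have hz : ∀ p q : ZMod 2, (¬ (p = 1 ↔ q = 1)) ↔ p + q = 1 := by decide
  rw [hz, ← h]
  by_cases he : e ∈ Z <;> simp [he]

end Pool.Agent.helper54.LFP
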