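import Mathlib
import Pool.Agent.helper54.LFP.TConn
import Pool.Agent.helper54.LFP.KSMain

/-! [LFP-T4] The 2-colouring of a triangulated sphere. -/

namespace Pool.Agent.helper54.LFP

open Finset Pool.Agent.helper60.ECD

variable {V : Type} [Fintype V] [DecidableEq V]

/-- the graph of the monochromatic edges -/
def mono (T : SphereTri V) (S : Finset V) : SimpleGraph V where
  Adj u v := T.graph.Adj u v ∧ (u ∈ S ↔ v ∈ S)
  symm := ⟨fun _ _ ⟨h1, h2⟩ => ⟨h1.symm, h2.symm⟩⟩
  loopless := ⟨fun _ h => h.1.ne rfl⟩

private lemma tcolor_sum {F E : Type} [Fintype F] [Fintype E] [DecidableEq F] [DecidableEq E]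
    (a b : E → F) (hne : ∀ e, a e ≠ b e) (M : Finset E) :
    ∑ t : F, (M ∩ starS a b t).card = 2 * M.card := by
  have h1 : ∀ t : F, (M ∩ starS a b t).card =
      ∑ e ∈ M, ((if a e = t then 1 else 0) + (if b e = t then 1 else 0)) := by
    intro t
    have hS : M ∩ starS a b t = M.filter (fun e => a e = t ∨ b e = t) := by
      ext e
      simp [starS]
    rw [hS, Finset.card_filter]
    refine Finset.sum_congr rfl fun e _ => ?_
    have := hne e
    by_cases h1 : a e = t
    · have h2 : ¬ b e = t := fun h2 => this (h1.trans h2.symm)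
      simp [h1, h2]
    · by_cases h2 : b e = t
      · simp [h1, h2]
      · simp [h1, h2]
  rw [Finset.sum_congr rfl (fun t _ => h1 t), Finset.sum_comm]
  have h2 : ∀ e ∈ M, ∑ t : F, (((if a e = t then 1 else 0) + (if b e = t then 1 else 0)) : ℕ) = 2 := by
    intro e _
    rw [Finset.sum_add_distrib]
    simp
  rw [Finset.sum_congr rfl h2, Finset.sum_const, smul_eq_mul, mul_comm]

private lemma tcolor_mem_star {T : SphereTri V} (D : Ends T) {v : V} {e : TE T} :
    e ∈ starS D.a0 D.b0 v ↔ v ∈ e.1 := by
  rw [mem_starS, D.pair e, mem_insert, mem_singleton]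
  exact ⟨fun h => h.imp Eq.symm Eq.symm, fun h => h.imp Eq.symm Eq.symm⟩

omit [Fintype V] in
private lemma tcolor_ind {e : Finset V} {u v : V} (h : u ≠ v) (he : e = {u, v}) (y : V) :
    (if y ∈ e then 1 else 0 : ℕ) = (if y = u then 1 else 0) + (if y = v then 1 else 0) := by
  subst he
  by_cases h1 : y = u
  · have h2 : y ≠ v := fun h2 => h (h1.symm.trans h2)
    simp [h1, h]
  · by_cases h2 : y = v
    · simp [h2, h.symm]
    · simp [h1, h2]

/-- no nonempty set of at most four matching edges meets all vertex stars evenly -/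
private lemma tcolor_no {T : SphereTri V} (D : Ends T) {M : Finset (TE T)}
    (hNS : NoSmall D.a1 D.b1 M) {Z : Finset (TE T)} (hZM : Z ⊆ M) (hne : Z.Nonempty)
    (hZ : ∀ v, Even (∑ e ∈ Z, (if v ∈ e.1 then 1 else 0 : ℕ))) : 5 ≤ Z.card := by
  obtain ⟨A, hA⟩ := D.cycle_is_cut Z (fun v => by
    have h1 : (starS D.a0 D.b0 v ∩ Z).card = ∑ e ∈ Z, (if v ∈ e.1 then 1 else 0 : ℕ) := by
      rw [← Finset.card_filter]
      congr 1
      ext e
      rw [mem_inter, tcolor_mem_star, mem_filter, and_comm]
    rw [h1]
    exact hZ v)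
  have h1 : A.Nonempty := by
    by_contra h
    rw [not_nonempty_iff_eq_empty] at h
    obtain ⟨e, he⟩ := hne
    rw [← hA, mem_cutS, h] at he
    simp at he
  have h2 : Aᶜ.Nonempty := by
    by_contra h
    rw [not_nonempty_iff_eq_empty, compl_eq_empty_iff] at h
    obtain ⟨e, he⟩ := hne
    rw [← hA, mem_cutS, h] at he
    simp at he
  have h3 := hNS A h1 h2 (by rw [hA]; exact hZM)
  unfold cut at h3
  rwa [hA] at h3

/-- Every triangulated sphere on `n` vertices has a 2-colouring (`S` and its complement) such that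
there is no monochromatic cycle of length `3` or `4` and exactly `n - 2` monochromatic edges.

Proof. Take `D : Ends T` (`exists_ends`), an edge, and `M` from `ks_main` for the dual graph
(`D.cubic`, `D.conn3`): a perfect matching with `NoSmall`. Let `c e = 0` for `e ∈ M` and `1`
otherwise. Every triangle has exactly three edges and exactly one in `M`, so the sums of `c` over
triangles are `2 = 0`. `duality` gives `x : V → ZMod 2` with `c e = x (a0 e) + x (b0 e)`; put
`S = {v : x v = 1}`. Then `e ∈ M` iff its two ends are both in `S` or both not in `S`. So the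
edges of `mono T S` are exactly the elements of `M` (an edge `uv` of `T.graph` is `{u, v}` as an
element of `TE T`).
Number: `2 |M| = F = 2 n - 4` (each triangle contains exactly one element of `M`, each edge is in
two triangles; `card_faces`), and `e2 (mono T S) univ = 2 |M|`.
`Girth5`: the edges of a 3-cycle or 4-cycle of `mono T S` form a set `Z ⊆ M` of three (four)
distinct edges meeting every star evenly; `cycle_is_cut` gives `A` with `cutS A = Z`; `A` and `Aᶜ`
are nonempty because `Z ≠ ∅`; `NoSmall` gives `5 ≤ |Z|`, contradiction. -/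
theorem exists_coloring (T : SphereTri V) : ∃ S : Finset V,
    letI : DecidableRel (mono T S).Adj := Classical.decRel _
    Girth5 (mono T S) ∧ e2 (mono T S) univ + 4 = 2 * Fintype.card V := by
  obtain ⟨hV, hF, hE⟩ := sphere_nonempty T
  obtain ⟨D⟩ := exists_ends T
  obtain ⟨e0⟩ := hE
  obtain ⟨M, -, hPM, hNS⟩ := ks_main D.cubic D.conn3 e0
  have hone : ∀ t : TF T, (M ∩ starS D.a1 D.b1 t).card = 1 := by
    intro t
    obtain ⟨e, ⟨he1, he2⟩, he3⟩ := hPM t
    rw [card_eq_one]
    refine ⟨e, ?_⟩
    ext f
    rw [mem_inter, mem_starS, mem_singleton]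
    constructor
    · intro h
      exact he3 f h
    · rintro rfl
      exact ⟨he1, he2⟩
  have hsum : ∀ t : TF T, ∑ e ∈ starS D.a1 D.b1 t, (if e ∈ M then (0 : ZMod 2) else 1) = 0 := by
    intro t
    have h1 : ∑ e ∈ starS D.a1 D.b1 t, (if e ∈ M then (0 : ZMod 2) else 1) =
        ((starS D.a1 D.b1 t \ M).card : ZMod 2) := by
      rw [← Finset.filter_notMem_eq_sdiff, Finset.card_filter, Nat.cast_sum]
      refine Finset.sum_congr rfl fun e _ => ?_
      by_cases h : e ∈ M <;> simp [h]
    have h2 := card_sdiff_add_card_inter (starS D.a1 D.b1 t) M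
    rw [inter_comm, hone t, D.cubic.2 t] at h2
    have h3 : (starS D.a1 D.b1 t \ M).card = 2 := by omega
    rw [h1, h3]
    decide
  obtain ⟨x, hx⟩ := duality D.a0 D.b0 D.a1 D.b1 D.ne0 D.ne1 D.conn0 D.conn1 D.euler D.even_star
    (fun e => if e ∈ M then 0 else 1) hsum
  refine ⟨univ.filter (fun v => x v = 1), ?_⟩
  have hM : ∀ e : TE T, e ∈ M ↔ (D.a0 e ∈ univ.filter (fun v => x v = 1) ↔
      D.b0 e ∈ univ.filter (fun v => x v = 1)) := by
    intro e
    have h := hx e
    have hz : ∀ p q : ZMod 2, (p = 1 ↔ q = 1) ↔ p + q = 0 := by decide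
    simp only [mem_filter, mem_univ, true_and]
    rw [hz, ← h]
    by_cases he : e ∈ M <;> simp [he]
  generalize univ.filter (fun v => x v = 1) = S at hM
  have hM2 : ∀ (e : TE T) (u v : V), e.1 = {u, v} → (e ∈ M ↔ (u ∈ S ↔ v ∈ S)) := by
    intro e u v h
    rw [hM]
    have hp := D.pair e
    rw [h] at hp
    have hne := D.ne0 e
    have h1 : D.a0 e ∈ ({u, v} : Finset V) := by rw [hp]; exact mem_insert_self _ _
    have h2 : D.b0 e ∈ ({u, v} : Finset V) := by
      rw [hp]; exact mem_insert_of_mem (mem_singleton_self _)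
    rw [mem_insert, mem_singleton] at h1 h2
    rcases h1 with h1 | h1 <;> rcases h2 with h2 | h2
    · exact absurd (h1.trans h2.symm) hne
    · rw [h1, h2]
    · rw [h1, h2]
      exact ⟨Iff.symm, Iff.symm⟩
    · exact absurd (h1.trans h2.symm) hne
  have hadj : ∀ u v : V, (mono T S).Adj u v → u ≠ v ∧ ∃ e : TE T, e ∈ M ∧ e.1 = {u, v} := by
    intro u v h
    obtain ⟨⟨hne, t, ht, hu, hv⟩, hS⟩ := h
    refine ⟨hne, ⟨{u, v}, ?_⟩, ?_, rfl⟩
    · unfold edgesOf
      rw [mem_filter]
      refine ⟨mem_univ _, card_pair hne, t, ht, ?_⟩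
      intro w hw
      rw [mem_insert, mem_singleton] at hw
      rcases hw with rfl | rfl
      · exact hu
      · exact hv
    · exact (hM2 _ u v rfl).2 hS
  have hadj2 : ∀ (e : TE T) (u v : V), e ∈ M → e.1 = {u, v} → (mono T S).Adj u v := by
    intro e u v he h
    have hm := e.2
    unfold edgesOf at hm
    rw [mem_filter] at hm
    obtain ⟨-, hc, t, ht, hsub⟩ := hm
    have hne : u ≠ v := by
      rintro rfl
      rw [h] at hc
      simp at hc
    refine ⟨⟨hne, t, ht, hsub ?_, hsub ?_⟩, (hM2 e u v h).1 he⟩
    · rw [h]; exact mem_insert_self _ _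
    · rw [h]; exact mem_insert_of_mem (mem_singleton_self _)
  letI inst : DecidableRel (mono T S).Adj := Classical.decRel _
  refine ⟨⟨?_, ?_⟩, ?_⟩
  · intro u v w huv hvw hwu
    obtain ⟨n1, e1, m1, p1⟩ := hadj u v huv
    obtain ⟨n2, e2, m2, p2⟩ := hadj v w hvw
    obtain ⟨n3, e3, m3, p3⟩ := hadj w u hwu
    have q12 : e1 ≠ e2 := by
      rintro rfl
      rw [p1] at p2
      have : u ∈ ({v, w} : Finset V) := by rw [← p2]; exact mem_insert_self _ _
      rw [mem_insert, mem_singleton] at this
      rcases this with h | h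
      · exact n1 h
      · exact n3 h.symm
    have q13 : e1 ≠ e3 := by
      rintro rfl
      rw [p1] at p3
      have : v ∈ ({w, u} : Finset V) := by
        rw [← p3]; exact mem_insert_of_mem (mem_singleton_self _)
      rw [mem_insert, mem_singleton] at this
      rcases this with h | h
      · exact n2 h
      · exact n1 h.symm
    have q23 : e2 ≠ e3 := by
      rintro rfl
      rw [p2] at p3
      have : v ∈ ({w, u} : Finset V) := by
        rw [← p3]; exact mem_insert_self _ _
      rw [mem_insert, mem_singleton] at this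
      rcases this with h | h
      · exact n2 h
      · exact n1 h.symm
    have hc := tcolor_no D hNS (Z := {e1, e2, e3}) (by
      intro e he
      simp only [mem_insert, mem_singleton] at he
      rcases he with rfl | rfl | rfl
      · exact m1
      · exact m2
      · exact m3) ⟨e1, mem_insert_self _ _⟩ (by
      intro y
      rw [sum_insert (by simp [q12, q13]), sum_insert (by simp [q23]), sum_singleton,
        tcolor_ind n1 p1 y, tcolor_ind n2 p2 y, tcolor_ind n3 p3 y]
      refine ⟨(if y = u then 1 else 0) + (if y = v then 1 else 0) + (if y = w then 1 else 0), ?_⟩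
      ring)
    have h3 : ({e1, e2, e3} : Finset (TE T)).card ≤ 3 := card_le_three
    omega
  · intro u v w x' huw hvx huv hvw hwx hxu
    obtain ⟨n1, e1, m1, p1⟩ := hadj u v huv
    obtain ⟨n2, e2, m2, p2⟩ := hadj v w hvw
    obtain ⟨n3, e3, m3, p3⟩ := hadj w x' hwx
    obtain ⟨n4, e4, m4, p4⟩ := hadj x' u hxu
    have key : ∀ (e f : TE T) (a b c d : V), e.1 = {a, b} → f.1 = {c, d} → a ≠ c → a ≠ d →
        e ≠ f := by
      rintro e f a b c d h1 h2 h3 h4 rfl
      rw [h1] at h2
      have : a ∈ ({c, d} : Finset V) := by rw [← h2]; exact mem_insert_self _ _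
      rw [mem_insert, mem_singleton] at this
      rcases this with h | h
      · exact h3 h
      · exact h4 h
    have q12 : e1 ≠ e2 := key e1 e2 u v v w p1 p2 n1 huw
    have q13 : e1 ≠ e3 := key e1 e3 u v w x' p1 p3 huw n4.symm
    have q14 : e1 ≠ e4 := (key e4 e1 x' u u v p4 p1 n4 hvx.symm).symm
    have q23 : e2 ≠ e3 := key e2 e3 v w w x' p2 p3 n2 hvx
    have q24 : e2 ≠ e4 := key e2 e4 v w x' u p2 p4 hvx n1.symm
    have q34 : e3 ≠ e4 := key e3 e4 w x' x' u p3 p4 n3 huw.symm
    have hc := tcolor_no D hNS (Z := {e1, e2, e3, e4}) (by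
      intro e he
      simp only [mem_insert, mem_singleton] at he
      rcases he with rfl | rfl | rfl | rfl
      · exact m1
      · exact m2
      · exact m3
      · exact m4) ⟨e1, mem_insert_self _ _⟩ (by
      intro y
      rw [sum_insert (by simp [q12, q13, q14]), sum_insert (by simp [q23, q24]),
        sum_insert (by simp [q34]), sum_singleton,
        tcolor_ind n1 p1 y, tcolor_ind n2 p2 y, tcolor_ind n3 p3 y, tcolor_ind n4 p4 y]
      refine ⟨(if y = u then 1 else 0) + (if y = v then 1 else 0) + (if y = w then 1 else 0) +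
        (if y = x' then 1 else 0), ?_⟩
      ring)
    have h3 : ({e1, e2, e3, e4} : Finset (TE T)).card ≤ 4 := card_le_four
    omega
  · have hdg : ∀ v : V, dg (mono T S) univ v = (M ∩ starS D.a0 D.b0 v).card := by
      intro v
      unfold dg
      symm
      refine Finset.card_bij (fun e _ => if D.a0 e = v then D.b0 e else D.a0 e) ?_ ?_ ?_
      · intro e he
        rw [mem_inter, mem_starS] at he
        rw [mem_filter]
        refine ⟨mem_univ _, ?_⟩
        by_cases h : D.a0 e = v
        · rw [if_pos h]
          exact hadj2 e _ _ he.1 (by rw [D.pair e, h])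
        · rw [if_neg h]
          have h2 := he.2.resolve_left h
          exact hadj2 e _ _ he.1 (by rw [D.pair e, h2, pair_comm])
      · intro e he f hf hef
        rw [mem_inter, mem_starS] at he hf
        have hpe : ∀ g : TE T, (D.a0 g = v ∨ D.b0 g = v) →
            g.1 = {v, if D.a0 g = v then D.b0 g else D.a0 g} := by
          intro g hg
          by_cases h : D.a0 g = v
          · rw [if_pos h, D.pair g, h]
          · rw [if_neg h, D.pair g, hg.resolve_left h, pair_comm]
        apply Subtype.ext
        rw [hpe e he.2, hpe f hf.2]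
        exact congrArg (fun z => ({v, z} : Finset V)) hef
      · intro w hw
        rw [mem_filter] at hw
        obtain ⟨hne, e, he, hp⟩ := hadj v w hw.2
        have hpair := D.pair e
        rw [hp] at hpair
        have h1 : v ∈ ({D.a0 e, D.b0 e} : Finset V) := by
          rw [← hpair]; exact mem_insert_self _ _
        have h2 : w ∈ ({D.a0 e, D.b0 e} : Finset V) := by
          rw [← hpair]; exact mem_insert_of_mem (mem_singleton_self _)
        rw [mem_insert, mem_singleton] at h1 h2
        refine ⟨e, ?_, ?_⟩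
        · rw [mem_inter, mem_starS]
          exact ⟨he, h1.imp Eq.symm Eq.symm⟩
        · rcases h1 with h1 | h1
          · rw [if_pos h1.symm]
            rcases h2 with h2 | h2
            · exact absurd (h1.trans h2.symm) hne
            · exact h2.symm
          · have hna : D.a0 e ≠ v := fun h => D.ne0 e (h.trans h1)
            rw [if_neg hna]
            rcases h2 with h2 | h2
            · exact h2.symm
            · exact absurd (h1.trans h2.symm) hne
    have h1 : e2 (mono T S) univ = 2 * M.card := by
      unfold e2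
      rw [Finset.sum_congr rfl (fun v _ => hdg v)]
      exact tcolor_sum D.a0 D.b0 D.ne0 M
    have h2 := tcolor_sum D.a1 D.b1 D.ne1 M
    rw [Finset.sum_congr rfl (fun t _ => hone t), Finset.sum_const, smul_eq_mul, mul_one,
      card_univ] at h2
    have h3 := D.card_faces
    omega

end Pool.Agent.helper54.LFP
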