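import Mathlib
import Pool.Agent.helper54.LFP.Defs

/-! [LFP-L1] The reduction lemma for induced linear forests. -/

namespace Pool.Agent.helper54.LFP

open Finset

variable {V : Type} [Fintype V] [DecidableEq V] (H : SimpleGraph V) [DecidableRel H.Adj]

theorem dg_mono {U U' : Finset V} (h : U ⊆ U') (v : V) : dg H U v ≤ dg H U' v :=
  card_le_card (filter_subset_filter _ h)

private theorem dg_union {A B : Finset V} (h : Disjoint A B) (v : V) :
    dg H (A ∪ B) v = dg H A v + dg H B v := by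
  unfold dg
  rw [filter_union, card_union_of_disjoint (disjoint_filter_filter h)]

private theorem dg_swap (A B : Finset V) : ∑ v ∈ A, dg H B v = ∑ v ∈ B, dg H A v := by
  unfold dg
  simp only [card_filter]
  rw [sum_comm]
  refine sum_congr rfl fun x _ => sum_congr rfl fun y _ => ?_
  simp only [H.adj_comm]

theorem Lin.mono {L L' : Finset V} (h : L ⊆ L') (hL : Lin H L') : Lin H L :=
  ⟨fun v hv => (dg_mono H h v).trans (hL.1 v (h hv)),
    fun Z hZ hne => hL.2 Z (hZ.trans h) hne⟩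

/-- union of two linear forests without edges between them. Proof: degrees do not change; for
`Z ⊆ L ∪ L'` nonempty, `Z ∩ L` or `Z ∩ L'` is nonempty; a vertex of degree at most one in
`Z ∩ L` has degree at most one in `Z`. -/
theorem Lin.union {L L' : Finset V} (hL : Lin H L) (hL' : Lin H L')
    (h : ∀ u ∈ L, ∀ v ∈ L', ¬ H.Adj u v) : Lin H (L ∪ L') := by
  have h1 : ∀ Z ⊆ L ∪ L', ∀ v ∈ L, dg H Z v ≤ dg H (Z ∩ L) v := by
    intro Z hZ v hv
    refine card_le_card fun w hw => ?_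
    rw [mem_filter] at hw ⊢
    refine ⟨mem_inter.2 ⟨hw.1, ?_⟩, hw.2⟩
    rcases mem_union.1 (hZ hw.1) with h2 | h2
    · exact h2
    · exact absurd hw.2 (h v hv w h2)
  have h1' : ∀ Z ⊆ L ∪ L', ∀ v ∈ L', dg H Z v ≤ dg H (Z ∩ L') v := by
    intro Z hZ v hv
    refine card_le_card fun w hw => ?_
    rw [mem_filter] at hw ⊢
    refine ⟨mem_inter.2 ⟨hw.1, ?_⟩, hw.2⟩
    rcases mem_union.1 (hZ hw.1) with h2 | h2
    · exact absurd hw.2.symm (h w h2 v hv)
    · exact h2
  refine ⟨fun v hv => ?_, fun Z hZ hne => ?_⟩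
  · rcases mem_union.1 hv with h2 | h2
    · exact ((h1 _ (Subset.refl _) v h2).trans (dg_mono H inter_subset_right v)).trans
        (hL.1 v h2)
    · exact ((h1' _ (Subset.refl _) v h2).trans (dg_mono H inter_subset_right v)).trans
        (hL'.1 v h2)
  · by_cases hc : (Z ∩ L).Nonempty
    · obtain ⟨v, hv, hd⟩ := hL.2 (Z ∩ L) inter_subset_right hc
      exact ⟨v, (mem_inter.1 hv).1, (h1 Z hZ v (mem_inter.1 hv).2).trans hd⟩
    · have hZ' : Z ⊆ L' := by
        intro x hx
        rcases mem_union.1 (hZ hx) with h2 | h2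
        · exact absurd ⟨x, mem_inter.2 ⟨hx, h2⟩⟩ hc
        · exact h2
      exact hL'.2 Z hZ' hne

/-- Proof: `e2 U = Σ_{v ∈ U \ R} dg (U \ R) v + Σ_{v ∈ U \ R} dg R v + Σ_{v ∈ R} dg U v`, and
`Σ_{v ∈ U \ R} dg R v = Σ_{v ∈ R} dg (U \ R) v = Σ_{v ∈ R} dg U v - e2 R`. -/
theorem e2_sdiff {U R : Finset V} (h : R ⊆ U) :
    e2 H U + e2 H R = e2 H (U \ R) + 2 * ∑ v ∈ R, dg H U v := by
  have hd : ∀ v, dg H U v = dg H (U \ R) v + dg H R v := by
    intro v
    rw [← dg_union H sdiff_disjoint v, sdiff_union_of_subset h]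
  have h1 : e2 H U = ∑ v ∈ U \ R, dg H U v + ∑ v ∈ R, dg H U v := by
    unfold e2
    rw [sum_sdiff h]
  have h2 : ∑ v ∈ U \ R, dg H U v = e2 H (U \ R) + ∑ v ∈ R, dg H (U \ R) v := by
    rw [sum_congr rfl fun v _ => hd v, sum_add_distrib, dg_swap H (U \ R) R]
    rfl
  have h3 : ∑ v ∈ R, dg H U v = ∑ v ∈ R, dg H (U \ R) v + e2 H R := by
    rw [sum_congr rfl fun v _ => hd v, sum_add_distrib]
    rfl
  omega

/-- The reduction lemma. Delete `W`; then `D` is separated from the rest; take the linear forest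
`L0` in `D`. Proof: `L := L0 ∪ L'` with `L'` from `hrest`; `Lin.union`; numbers by `e2_sdiff` for
`R = D ∪ W`. -/
theorem red {U D W L0 : Finset V} {c c0 : ℕ} (hD : D ⊆ U) (hW : W ⊆ U)
    (hsep : ∀ d ∈ D, ∀ x ∈ U, H.Adj d x → x ∈ D ∪ W) (hL0 : L0 ⊆ D) (hlin : Lin H L0)
    (hrest : OKc H (U \ (D ∪ W)) c0)
    (hval : 33 * (D ∪ W).card + 5 * e2 H (D ∪ W) + c ≤
      34 * L0.card + 10 * ∑ v ∈ D ∪ W, dg H U v + c0) : OKc H U c := by
  obtain ⟨L', hL', hlin', hnum⟩ := hrest
  have hR : D ∪ W ⊆ U := union_subset hD hW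
  have hdis : Disjoint L0 L' := by
    rw [disjoint_left]
    intro x hx hx'
    exact (mem_sdiff.1 (hL' hx')).2 (mem_union_left _ (hL0 hx))
  refine ⟨L0 ∪ L', union_subset (hL0.trans hD) (hL'.trans sdiff_subset),
    Lin.union H hlin hlin' ?_, ?_⟩
  · intro u hu v hv huv
    have h1 := mem_sdiff.1 (hL' hv)
    exact h1.2 (hsep u (hL0 hu) v h1.1 huv)
  · have h1 := e2_sdiff H hR
    have h2 : (U \ (D ∪ W)).card + (D ∪ W).card = U.card := card_sdiff_add_card_eq_card hR
    rw [card_union_of_disjoint hdis]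
    omega

/-- deletion of one vertex (`e2 {v} = 0`) -/
theorem del {U : Finset V} {v : V} {c c0 : ℕ} (hv : v ∈ U) (hrest : OKc H (U.erase v) c0)
    (hval : 33 + c ≤ 10 * dg H U v + c0) : OKc H U c := by
  refine red H (U := U) (D := ∅) (W := {v}) (L0 := ∅) (c0 := c0) (empty_subset _)
    (singleton_subset_iff.2 hv) (fun d hd => absurd hd (notMem_empty d)) (empty_subset _)
    ⟨fun x hx => absurd hx (notMem_empty x), fun Z hZ hne => ?_⟩ ?_ ?_
  · exact absurd (subset_empty.1 hZ) hne.ne_empty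
  · rw [empty_union, sdiff_singleton_eq_erase]
    exact hrest
  · have h1 : e2 H {v} = 0 := by
      unfold e2 dg
      rw [sum_singleton, card_eq_zero, filter_eq_empty_iff]
      intro x hx
      rw [mem_singleton.1 hx]
      exact H.loopless.irrefl v
    rw [empty_union, h1, card_singleton, sum_singleton, card_empty]
    omega

end Pool.Agent.helper54.LFP
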