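import Mathlib
import Pool.Agent.helper54.LFP.LFRed

/-! [LFP-L4] The two final configurations. -/

namespace Pool.Agent.helper54.LFP

open Finset

variable {V : Type} [Fintype V] [DecidableEq V] (H : SimpleGraph V) [DecidableRel H.Adj]

omit [Fintype V] [DecidableEq V] in
private theorem LFCases_mem {U : Finset V} {v z : V} :
    z ∈ U.filter (fun w => H.Adj v w) ↔ z ∈ U ∧ H.Adj v z := by
  rw [mem_filter]

/-- a set with at most two elements is a linear forest -/
private theorem LFCases_small {L : Finset V} (h : L.card ≤ 2) : Lin H L := by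
  have key : ∀ Z ⊆ L, ∀ v ∈ Z, dg H Z v ≤ 1 := by
    intro Z hZ v hv
    have h1 : Z.filter (fun w => H.Adj v w) ⊆ Z.erase v := by
      intro z hz
      obtain ⟨hz1, hz2⟩ := (LFCases_mem H).1 hz
      exact mem_erase.2 ⟨hz2.ne', hz1⟩
    have h2 := card_le_card h1
    have h3 := card_le_card hZ
    rw [card_erase_of_mem hv] at h2
    unfold dg
    omega
  refine ⟨fun v hv => (key L (Subset.refl L) v hv).trans (by omega), ?_⟩
  intro Z hZ hne
  obtain ⟨v, hv⟩ := hne
  exact ⟨v, hv, key Z hZ v hv⟩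

/-- neighbours inside a set containing all neighbours -/
private theorem LFCases_dg_eq {U R : Finset V} {v : V} (hR : R ⊆ U)
    (h : ∀ z ∈ U, H.Adj v z → z ∈ R) : dg H R v = dg H U v := by
  unfold dg
  congr 1
  ext z
  rw [LFCases_mem, LFCases_mem]
  exact ⟨fun hz => ⟨hR hz.1, hz.2⟩, fun hz => ⟨h z hz.1 hz.2, hz.2⟩⟩

omit [Fintype V] in
private theorem LFCases_ssub {U R : Finset V} {v : V} (hv : v ∈ U) (hvR : v ∈ R) :
    U \ R ⊂ U := by
  refine (ssubset_iff_of_subset sdiff_subset).2 ⟨v, hv, ?_⟩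
  intro h
  exact (mem_sdiff.1 h).2 hvR

/-- case (a) of `star_case` -/
private theorem LFCases_a {U : Finset V} (IH : ∀ U' ⊂ U, OKc H U' 0) {v : V} (hv : v ∈ U)
    (h3 : dg H U v = 3) (h1 : ∀ z ∈ U, H.Adj v z → dg H U z = 1) : OKc H U 0 := by
  set Nv := U.filter (fun w => H.Adj v w) with hNv
  have hNc : Nv.card = 3 := h3
  have hvN : v ∉ Nv := fun h => (H.loopless.irrefl v) ((LFCases_mem H).1 h).2
  obtain ⟨n0, hn0⟩ : Nv.Nonempty := card_pos.1 (by omega)
  set D := insert v Nv with hD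
  have hDc : D.card = 4 := by rw [hD, card_insert_of_notMem hvN, hNc]
  have hDU : D ⊆ U := by
    intro z hz
    rcases mem_insert.1 hz with rfl | hz
    · exact hv
    · exact ((LFCases_mem H).1 hz).1
  have hn0D : n0 ∈ D := mem_insert_of_mem hn0
  have hn0v : n0 ≠ v := fun h => hvN (h ▸ hn0)
  -- the only neighbour of a vertex of `Nv`
  have honly : ∀ d ∈ Nv, ∀ x ∈ U, H.Adj d x → x = v := by
    intro d hd x hx hdx
    obtain ⟨hdU, hdv⟩ := (LFCases_mem H).1 hd
    have h4 := h1 d hdU hdv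
    have h5 : (U.filter (fun w => H.Adj d w)).card ≤ 1 := h4.le
    exact card_le_one.1 h5 x ((LFCases_mem H).2 ⟨hx, hdx⟩) v ((LFCases_mem H).2 ⟨hv, hdv.symm⟩)
  have hsum : ∑ z ∈ D, dg H U z = 6 := by
    rw [hD, sum_insert hvN, h3, sum_congr rfl (g := fun _ => 1) fun z hz =>
      h1 z ((LFCases_mem H).1 hz).1 ((LFCases_mem H).1 hz).2]
    rw [sum_const, smul_eq_mul, mul_one, hNc]
  have he2 : e2 H D ≤ 6 := by
    rw [← hsum]
    exact sum_le_sum fun z _ => dg_mono H hDU z
  refine red H (D := D) (W := ∅) (L0 := D.erase n0) (c0 := 0) hDU (empty_subset U) ?_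
    (erase_subset n0 D) ?_ ?_ ?_
  · intro d hd x hx hdx
    rw [union_empty]
    rcases mem_insert.1 hd with rfl | hd
    · exact mem_insert_of_mem ((LFCases_mem H).2 ⟨hx, hdx⟩)
    · rw [honly d hd x hx hdx]
      exact mem_insert_self v Nv
  · have hLc : (D.erase n0).card = 3 := by rw [card_erase_of_mem hn0D, hDc]
    constructor
    · intro z hz
      have h4 : (D.erase n0).filter (fun w => H.Adj z w) ⊆ (D.erase n0).erase z := by
        intro y hy
        obtain ⟨hy1, hy2⟩ := (LFCases_mem H).1 hy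
        exact mem_erase.2 ⟨hy2.ne', hy1⟩
      have h5 := card_le_card h4
      rw [card_erase_of_mem hz, hLc] at h5
      exact h5
    · intro Z hZ hne
      by_cases h6 : ∃ z ∈ Z, z ≠ v
      · obtain ⟨z, hzZ, hzv⟩ := h6
        have hzD := (mem_erase.1 (hZ hzZ)).2
        have hzN : z ∈ Nv := (mem_insert.1 hzD).resolve_left hzv
        refine ⟨z, hzZ, ?_⟩
        have h7 := dg_mono H ((hZ.trans (erase_subset n0 D)).trans hDU) z
        rw [h1 z ((LFCases_mem H).1 hzN).1 ((LFCases_mem H).1 hzN).2] at h7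
        exact h7
      · push Not at h6
        obtain ⟨z, hz⟩ := hne
        refine ⟨z, hz, ?_⟩
        have h7 : Z.filter (fun w => H.Adj z w) ⊆ ∅ := by
          intro y hy
          obtain ⟨hy1, hy2⟩ := (LFCases_mem H).1 hy
          rw [h6 z hz, h6 y hy1] at hy2
          exact absurd hy2 (H.loopless.irrefl v)
        have h8 := card_le_card h7
        rw [card_empty] at h8
        unfold dg
        omega
  · rw [union_empty]
    exact IH _ (LFCases_ssub hv (mem_insert_self v Nv))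
  · rw [union_empty, hsum, hDc, card_erase_of_mem hn0D, hDc]
    omega

/-- case (b) of `star_case` -/
private theorem LFCases_b (hG : Girth5 H) {U : Finset V} (IH : ∀ U' ⊂ U, OKc H U' 0)
    (hdeg : ∀ v ∈ U, 1 ≤ dg H U v ∧ dg H U v ≤ 3)
    (hT : ∀ x ∈ U, ∀ y ∈ U, H.Adj x y → dg H U x = 3 ∨ dg H U y = 3)
    (hI : ∀ x ∈ U, ∀ y ∈ U, H.Adj x y → ¬ (dg H U x = 3 ∧ dg H U y = 3))
    {v u w : V} (hv : v ∈ U) (hu : u ∈ U) (hw : w ∈ U) (hvu : H.Adj v u) (huw : H.Adj u w)
    (hvw : v ≠ w) (hdv : dg H U v = 3) (hdw : dg H U w = 3)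
    (hdu : ∀ z ∈ U, H.Adj u z → z = v ∨ z = w) : OKc H U 0 := by
  have hirr : ∀ z, ¬ H.Adj z z := fun z => H.loopless.irrefl z
  set Nv := U.filter (fun w => H.Adj v w) with hNv
  set Nw := U.filter (fun z => H.Adj w z) with hNw
  have hNvc : Nv.card = 3 := hdv
  have hNwc : Nw.card = 3 := hdw
  have hnvw : ¬ H.Adj v w := fun h => hI v hv w hw h ⟨hdv, hdw⟩
  have huv : u ∈ Nv := (LFCases_mem H).2 ⟨hu, hvu⟩
  have huw' : u ∈ Nw := (LFCases_mem H).2 ⟨hu, huw.symm⟩
  have hint : Nv ∩ Nw = {u} := by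
    ext z
    rw [mem_inter, mem_singleton]
    constructor
    · rintro ⟨hz1, hz2⟩
      by_contra hzu
      exact hG.2 v u w z hvw (Ne.symm hzu) hvu huw ((LFCases_mem H).1 hz2).2
        ((LFCases_mem H).1 hz1).2.symm
    · rintro rfl
      exact ⟨huv, huw'⟩
  set M := Nv ∪ Nw with hM
  have hMc : M.card = 5 := by
    have h := card_union_add_card_inter Nv Nw
    rw [hint, card_singleton, hNvc, hNwc] at h
    rw [hM]
    omega
  have hMU : M ⊆ U := by
    intro z hz
    rcases mem_union.1 hz with hz | hz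
    · exact ((LFCases_mem H).1 hz).1
    · exact ((LFCases_mem H).1 hz).1
  have hvM : v ∉ M := by
    intro h
    rcases mem_union.1 h with h | h
    · exact hirr v ((LFCases_mem H).1 h).2
    · exact hnvw ((LFCases_mem H).1 h).2.symm
  have hwM : w ∉ M := by
    intro h
    rcases mem_union.1 h with h | h
    · exact hnvw ((LFCases_mem H).1 h).2
    · exact hirr w ((LFCases_mem H).1 h).2
  have hM3 : ∀ z ∈ M, dg H U z ≠ 3 := by
    intro z hz h3
    rcases mem_union.1 hz with hz | hz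
    · exact hI v hv z ((LFCases_mem H).1 hz).1 ((LFCases_mem H).1 hz).2 ⟨hdv, h3⟩
    · exact hI w hw z ((LFCases_mem H).1 hz).1 ((LFCases_mem H).1 hz).2 ⟨hdw, h3⟩
  have hM2 : ∀ z ∈ M, dg H U z ≤ 2 := by
    intro z hz
    have h1 := hM3 z hz
    have h2 := (hdeg z (hMU hz)).2
    omega
  have hMM : ∀ z ∈ M, ∀ y ∈ M, ¬ H.Adj z y := by
    intro z hz y hy h
    rcases hT z (hMU hz) y (hMU hy) h with h3 | h3
    · exact hM3 z hz h3
    · exact hM3 y hy h3
  set D := insert v (insert w M) with hD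
  have hvD : v ∈ D := mem_insert_self _ _
  have hwD : w ∈ D := mem_insert_of_mem (mem_insert_self _ _)
  have hMD : M ⊆ D := fun z hz => mem_insert_of_mem (mem_insert_of_mem hz)
  have hv' : v ∉ insert w M := by
    intro h
    rcases mem_insert.1 h with h | h
    · exact hvw h
    · exact hvM h
  have hDc : D.card = 7 := by
    rw [hD, card_insert_of_notMem hv', card_insert_of_notMem hwM, hMc]
  have hDU : D ⊆ U := by
    intro z hz
    rcases mem_insert.1 hz with rfl | hz
    · exact hv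
    · rcases mem_insert.1 hz with rfl | hz
      · exact hw
      · exact hMU hz
  have hNvD : ∀ z ∈ U, H.Adj v z → z ∈ D := fun z hz h =>
    hMD (mem_union_left _ ((LFCases_mem H).2 ⟨hz, h⟩))
  have hNwD : ∀ z ∈ U, H.Adj w z → z ∈ D := fun z hz h =>
    hMD (mem_union_right _ ((LFCases_mem H).2 ⟨hz, h⟩))
  have huM : u ∈ M := mem_union_left _ huv
  have huD : u ∈ D := hMD huM
  set W := (U \ D).filter (fun z => ∃ d ∈ D, H.Adj d z) with hW
  have hWmem : ∀ z ∈ W, z ∈ U ∧ z ∉ D ∧ ∃ d ∈ M, d ≠ u ∧ H.Adj d z := by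
    intro z hz
    obtain ⟨hz1, d, hd, hdz⟩ := mem_filter.1 hz
    obtain ⟨hzU, hzD⟩ := mem_sdiff.1 hz1
    refine ⟨hzU, hzD, ?_⟩
    rcases mem_insert.1 hd with rfl | hd
    · exact absurd (hNvD z hzU hdz) hzD
    · rcases mem_insert.1 hd with rfl | hd
      · exact absurd (hNwD z hzU hdz) hzD
      · refine ⟨d, hd, ?_, hdz⟩
        rintro rfl
        rcases hdu z hzU hdz with h | h
        · exact hzD (h ▸ hvD)
        · exact hzD (h ▸ hwD)
  have hWU : W ⊆ U := fun z hz => (hWmem z hz).1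
  have hW3 : ∀ z ∈ W, dg H U z = 3 := by
    intro z hz
    obtain ⟨hzU, -, d, hd, -, hdz⟩ := hWmem z hz
    rcases hT d (hMU hd) z hzU hdz with h3 | h3
    · exact absurd h3 (hM3 d hd)
    · exact h3
  have hWW : ∀ z ∈ W, ∀ y ∈ W, ¬ H.Adj z y := fun z hz y hy h =>
    hI z (hWU hz) y (hWU hy) h ⟨hW3 z hz, hW3 y hy⟩
  have hdisj : Disjoint D W := by
    rw [disjoint_left]
    intro z hz hzW
    exact (hWmem z hzW).2.1 hz
  have hWc : W.card ≤ 8 := by
    have h1 : W ⊆ (M.erase u).biUnion (fun d => U.filter (fun z => H.Adj d z)) := by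
      intro z hz
      obtain ⟨hzU, -, d, hd, hdu', hdz⟩ := hWmem z hz
      exact mem_biUnion.2 ⟨d, mem_erase.2 ⟨hdu', hd⟩, (LFCases_mem H).2 ⟨hzU, hdz⟩⟩
    have h2 := card_le_card h1
    have h3 : ((M.erase u).biUnion (fun d => U.filter (fun z => H.Adj d z))).card ≤
        (M.erase u).card * 2 :=
      card_biUnion_le_card_mul _ _ _ fun d hd => hM2 d (mem_erase.1 hd).2
    rw [card_erase_of_mem huM, hMc] at h3
    omega
  have hsep : ∀ d ∈ D, ∀ x ∈ U, H.Adj d x → x ∈ D ∪ W := by
    intro d hd x hx hdx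
    by_cases hxD : x ∈ D
    · exact mem_union_left _ hxD
    · exact mem_union_right _ (mem_filter.2 ⟨mem_sdiff.2 ⟨hx, hxD⟩, d, hd, hdx⟩)
  have hDW : D ∪ W ⊆ U := union_subset hDU hWU
  have hsdiff : (D ∪ W) \ D = W := by
    rw [union_sdiff_left, hdisj.symm.sdiff_eq_left]
  have he2W : e2 H W = 0 := by
    unfold e2
    refine sum_eq_zero fun z hz => ?_
    unfold dg
    rw [card_eq_zero, filter_eq_empty_iff]
    exact fun y hy => hWW z hz y hy
  have he2 := e2_sdiff H (U := D ∪ W) (R := D) subset_union_left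
  rw [hsdiff, he2W, sum_congr rfl fun z hz => LFCases_dg_eq H hDW (hsep z hz)] at he2
  have he2D : 11 ≤ e2 H D := by
    unfold e2
    have e1 : dg H D v = 3 := by rw [LFCases_dg_eq H hDU hNvD, hdv]
    have e3 : dg H D w = 3 := by rw [LFCases_dg_eq H hDU hNwD, hdw]
    have e4 : M.card ≤ ∑ z ∈ M, dg H D z := by
      rw [card_eq_sum_ones]
      refine sum_le_sum fun z hz => ?_
      unfold dg
      rw [Nat.one_le_iff_ne_zero, Ne, card_eq_zero, ← Ne, ← nonempty_iff_ne_empty]
      rcases mem_union.1 hz with h | h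
      · exact ⟨v, (LFCases_mem H).2 ⟨hvD, ((LFCases_mem H).1 h).2.symm⟩⟩
      · exact ⟨w, (LFCases_mem H).2 ⟨hwD, ((LFCases_mem H).1 h).2.symm⟩⟩
    have e5 : ∑ z ∈ D, dg H D z = dg H D v + (dg H D w + ∑ z ∈ M, dg H D z) := by
      conv_lhs => rw [hD]
      rw [sum_insert hv', sum_insert hwM]
    rw [e5, e1, e3]
    omega
  have hsum : ∑ z ∈ D ∪ W, dg H U z = ∑ z ∈ D, dg H U z + 3 * W.card := by
    rw [sum_union hdisj, sum_congr rfl fun z hz => hW3 z hz, sum_const, smul_eq_mul, mul_comm 3]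
  have hcard : (D ∪ W).card = 7 + W.card := by rw [card_union_of_disjoint hdisj, hDc]
  refine red H (D := D) (W := W) (L0 := D.erase u) (c0 := 0) hDU hWU hsep (erase_subset u D)
    ?_ ?_ ?_
  · -- the linear forest
    have hleaf : ∀ z ∈ M, z ≠ u → ∀ y ∈ D, H.Adj z y →
        (y = v ∧ z ∈ Nv) ∨ (y = w ∧ z ∈ Nw) := by
      intro z hz hzu y hy hzy
      rcases mem_insert.1 hy with rfl | hy
      · exact Or.inl ⟨rfl, (LFCases_mem H).2 ⟨hMU hz, hzy.symm⟩⟩
      · rcases mem_insert.1 hy with rfl | hy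
        · exact Or.inr ⟨rfl, (LFCases_mem H).2 ⟨hMU hz, hzy.symm⟩⟩
        · exact absurd hzy (hMM z hz y hy)
    have hleaf1 : ∀ Z ⊆ D, ∀ z ∈ M, z ≠ u → dg H Z z ≤ 1 := by
      intro Z hZ z hz hzu
      unfold dg
      rw [card_le_one]
      intro y hy y' hy'
      obtain ⟨hy1, hy2⟩ := (LFCases_mem H).1 hy
      obtain ⟨hy1', hy2'⟩ := (LFCases_mem H).1 hy'
      have hno : ¬ (z ∈ Nv ∧ z ∈ Nw) := by
        intro h
        have h' : z ∈ Nv ∩ Nw := mem_inter.2 h
        rw [hint, mem_singleton] at h'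
        exact hzu h'
      rcases hleaf z hz hzu y (hZ hy1) hy2 with ⟨h1, h2⟩ | ⟨h1, h2⟩ <;>
        rcases hleaf z hz hzu y' (hZ hy1') hy2' with ⟨h3, h4⟩ | ⟨h3, h4⟩
      · rw [h1, h3]
      · exact absurd ⟨h2, h4⟩ hno
      · exact absurd ⟨h4, h2⟩ hno
      · rw [h1, h3]
    have hcen : ∀ x N, N = U.filter (fun z => H.Adj x z) → N.card = 3 → u ∈ N →
        dg H (D.erase u) x ≤ 2 := by
      intro x N hN hNc huN
      have h1 : (D.erase u).filter (fun z => H.Adj x z) ⊆ N.erase u := by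
        intro y hy
        obtain ⟨hy1, hy2⟩ := (LFCases_mem H).1 hy
        obtain ⟨hyu, hyD⟩ := mem_erase.1 hy1
        rw [mem_erase, hN]
        exact ⟨hyu, (LFCases_mem H).2 ⟨hDU hyD, hy2⟩⟩
      have h2 := card_le_card h1
      rw [card_erase_of_mem huN, hNc] at h2
      exact h2
    constructor
    · intro z hz
      obtain ⟨hzu, hzD⟩ := mem_erase.1 hz
      rcases mem_insert.1 hzD with rfl | hzD
      · exact hcen _ Nv hNv hNvc huv
      · rcases mem_insert.1 hzD with rfl | hzD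
        · exact hcen _ Nw hNw hNwc huw'
        · exact (hleaf1 _ (erase_subset u D) z hzD hzu).trans (by omega)
    · intro Z hZ hne
      by_cases h6 : ∃ z ∈ Z, z ∈ M
      · obtain ⟨z, hzZ, hzM⟩ := h6
        exact ⟨z, hzZ, hleaf1 Z (hZ.trans (erase_subset u D)) z hzM (mem_erase.1 (hZ hzZ)).1⟩
      · push Not at h6
        obtain ⟨z, hz⟩ := hne
        refine ⟨z, hz, ?_⟩
        have hZvw : ∀ y ∈ Z, y = v ∨ y = w := by
          intro y hy
          have h7 := (mem_erase.1 (hZ hy)).2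
          rcases mem_insert.1 h7 with h8 | h8
          · exact Or.inl h8
          · rcases mem_insert.1 h8 with h9 | h9
            · exact Or.inr h9
            · exact absurd h9 (h6 y hy)
        have h7 : Z.filter (fun w => H.Adj z w) ⊆ ∅ := by
          intro y hy
          obtain ⟨hy1, hy2⟩ := (LFCases_mem H).1 hy
          exfalso
          rcases hZvw z hz with rfl | rfl <;> rcases hZvw y hy1 with rfl | rfl
          · exact hirr _ hy2
          · exact hnvw hy2
          · exact hnvw hy2.symm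
          · exact hirr _ hy2
        have h8 := card_le_card h7
        rw [card_empty] at h8
        unfold dg
        omega
  · exact IH _ (LFCases_ssub hv (mem_union_left _ hvD))
  · rw [hsum, hcard, card_erase_of_mem huD, hDc]
    omega

/-- Proof. Since `U` is nonempty and has no isolated vertices, `hT` gives `v ∈ U` with
`dg U v = 3`. By `hI` all its neighbours have degree `≤ 2` in `U`.
(a) All neighbours of `v` in `U` have degree `1`: `red` with `D = {v} ∪ N(v)`, `W = ∅`,
`L0 = D \ {one neighbour}` (three vertices; or the three neighbours): `e2 D = 6`, `Σ_D dg U = 6`,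
`33 * 4 + 30 ≤ 34 * 3 + 60`.
(b) Otherwise `v` has a neighbour `u` of degree `2`; let `w ≠ v` be the other one of its neighbours;
`dg U w = 3` by `hT`. By girth `N(v) ∩ N(w) = {u}` and `v`, `w` are not adjacent. Let
`D = {v, w} ∪ N(v) ∪ N(w)` (neighbourhoods in `U`), seven vertices; the graph induced on `D` has
exactly six edges? (not needed exactly: see below). Let `W` be the set of vertices of `U \ D`
adjacent to a vertex of `D`; each is adjacent to one of the four vertices of
`N(v) ∪ N(w) \ {u}`, each of these has degree `≤ 2`, so `|W| ≤ 4`; vertices of `W` have degree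
`3` in `U` by `hT` (their neighbour in `D` has degree `≤ 2`) and are pairwise not adjacent by `hI`.
Two vertices of `N(v) ∪ N(w)` are not adjacent by `hT` (both have degree `≤ 2`), so
`e2 D = 2 · 6 = 12` (edges `v`-`N(v)`, `w`-`N(w)`). `L0 = D \ {u}`: two disjoint paths with three
vertices, `|L0| = 6`.
Numbers: `Σ_D dg U = e2 D + ∂`, `∂ = ` number of edges between `D` and `W`, `Σ_W dg U = 3 |W|`,
`e2 (D ∪ W) = 12 + 2 ∂ + 0`. So `34 · 6 + 10 (12 + ∂ + 3 |W|) - 33 (7 + |W|) - 5 (12 + 2 ∂)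
= 33 - 3 |W| ≥ 21`. -/
theorem star_case (hG : Girth5 H) {U : Finset V} (IH : ∀ U' ⊂ U, OKc H U' 0)
    (hne : U.Nonempty) (hdeg : ∀ v ∈ U, 1 ≤ dg H U v ∧ dg H U v ≤ 3)
    (hT : ∀ x ∈ U, ∀ y ∈ U, H.Adj x y → dg H U x = 3 ∨ dg H U y = 3)
    (hI : ∀ x ∈ U, ∀ y ∈ U, H.Adj x y → ¬ (dg H U x = 3 ∧ dg H U y = 3)) : OKc H U 0 := by
  obtain ⟨x, hx⟩ := hne
  obtain ⟨v, hv, hdv⟩ : ∃ v ∈ U, dg H U v = 3 := by
    have h1 := (hdeg x hx).1
    unfold dg at h1
    obtain ⟨y, hy⟩ := card_pos.1 (show 0 < (U.filter (fun w => H.Adj x w)).card by omega)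
    obtain ⟨hyU, hxy⟩ := (LFCases_mem H).1 hy
    rcases hT x hx y hyU hxy with h | h
    · exact ⟨x, hx, h⟩
    · exact ⟨y, hyU, h⟩
  by_cases h : ∃ u ∈ U, H.Adj v u ∧ dg H U u = 2
  · obtain ⟨u, hu, hvu, hdu⟩ := h
    have hvN : v ∈ U.filter (fun z => H.Adj u z) := (LFCases_mem H).2 ⟨hv, hvu.symm⟩
    have hc : ((U.filter (fun z => H.Adj u z)).erase v).card = 1 := by
      rw [card_erase_of_mem hvN]
      unfold dg at hdu
      omega
    obtain ⟨w, hw⟩ := card_eq_one.1 hc
    have hwm : w ∈ (U.filter (fun z => H.Adj u z)).erase v := by rw [hw]; exact mem_singleton_self w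
    obtain ⟨hwv, hwN⟩ := mem_erase.1 hwm
    obtain ⟨hwU, huw⟩ := (LFCases_mem H).1 hwN
    have hdw : dg H U w = 3 := by
      rcases hT u hu w hwU huw with h3 | h3
      · omega
      · exact h3
    refine LFCases_b H hG IH hdeg hT hI hv hu hwU hvu huw (Ne.symm hwv) hdv hdw ?_
    intro z hz huz
    by_cases hzv : z = v
    · exact Or.inl hzv
    · right
      have h5 : z ∈ (U.filter (fun z => H.Adj u z)).erase v :=
        mem_erase.2 ⟨hzv, (LFCases_mem H).2 ⟨hz, huz⟩⟩
      rw [hw, mem_singleton] at h5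
      exact h5
  · push Not at h
    refine LFCases_a H IH hv hdv ?_
    intro z hz hvz
    have h1 := hdeg z hz
    have h2 := h z hz hvz
    have h3 : dg H U z ≠ 3 := fun h3 => hI v hv z hz hvz ⟨hdv, h3⟩
    omega

/-- Proof. Let `N(x) = {y, p, q}`, `N(y) = {x, r, s}` in `U`. By girth the six vertices are distinct
and the only edges among them are `xy, xp, xq, yr, ys`. `red` with `D = L0 = {x, y}`,
`W = {p, q, r, s}`: `Σ dg U = 18`, `e2 (D ∪ W) = 10`, and
`33 * 6 + 5 * 10 ≤ 34 * 2 + 10 * 18` (equality). -/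
theorem cubic_case (hG : Girth5 H) {U : Finset V} (IH : ∀ U' ⊂ U, OKc H U' 0)
    {x y : V} (hx : x ∈ U) (hy : y ∈ U) (hxy : H.Adj x y) (hdx : dg H U x = 3)
    (hdy : dg H U y = 3) (hNx : ∀ z ∈ U, H.Adj x z → dg H U z = 3)
    (hNy : ∀ z ∈ U, H.Adj y z → dg H U z = 3) : OKc H U 0 := by
  have hirr : ∀ z, ¬ H.Adj z z := fun z => H.loopless.irrefl z
  set A := (U.filter (fun z => H.Adj x z)).erase y with hA
  set B := (U.filter (fun z => H.Adj y z)).erase x with hB
  have hAm : ∀ z, z ∈ A ↔ z ≠ y ∧ z ∈ U ∧ H.Adj x z := by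
    intro z
    rw [hA, mem_erase, LFCases_mem]
  have hBm : ∀ z, z ∈ B ↔ z ≠ x ∧ z ∈ U ∧ H.Adj y z := by
    intro z
    rw [hB, mem_erase, LFCases_mem]
  have hAc : A.card = 2 := by
    rw [hA, card_erase_of_mem ((LFCases_mem H).2 ⟨hy, hxy⟩)]
    unfold dg at hdx
    omega
  have hBc : B.card = 2 := by
    rw [hB, card_erase_of_mem ((LFCases_mem H).2 ⟨hx, hxy.symm⟩)]
    unfold dg at hdy
    omega
  have hAB : Disjoint A B := by
    rw [disjoint_left]
    intro z hzA hzB
    exact hG.1 x y z hxy ((hBm z).1 hzB).2.2 ((hAm z).1 hzA).2.2.symm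
  set W := A ∪ B with hW
  have hWc : W.card = 4 := by rw [hW, card_union_of_disjoint hAB, hAc, hBc]
  set D : Finset V := {x, y} with hD
  have hxD : x ∈ D := by simp [hD]
  have hyD : y ∈ D := by simp [hD]
  have hDc : D.card = 2 := card_pair hxy.ne
  have hDU : D ⊆ U := by
    intro z hz
    rcases mem_insert.1 hz with rfl | hz
    · exact hx
    · rw [mem_singleton.1 hz]
      exact hy
  have hWU : W ⊆ U := by
    intro z hz
    rcases mem_union.1 hz with h | h
    · exact ((hAm z).1 h).2.1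
    · exact ((hBm z).1 h).2.1
  have hDWd : Disjoint D W := by
    rw [disjoint_left]
    intro z hzD hzW
    rcases mem_insert.1 hzD with rfl | hzD
    · rcases mem_union.1 hzW with h | h
      · exact hirr _ ((hAm _).1 h).2.2
      · exact ((hBm _).1 h).1 rfl
    · rw [mem_singleton.1 hzD] at hzW
      rcases mem_union.1 hzW with h | h
      · exact ((hAm _).1 h).1 rfl
      · exact hirr _ ((hBm _).1 h).2.2
  have hDWU : D ∪ W ⊆ U := union_subset hDU hWU
  have hW3 : ∀ z ∈ W, dg H U z = 3 := by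
    intro z hz
    rcases mem_union.1 hz with h | h
    · exact hNx z ((hAm z).1 h).2.1 ((hAm z).1 h).2.2
    · exact hNy z ((hBm z).1 h).2.1 ((hBm z).1 h).2.2
  have hsep : ∀ d ∈ D, ∀ z ∈ U, H.Adj d z → z ∈ D ∪ W := by
    intro d hd z hz hdz
    rcases mem_insert.1 hd with rfl | hd
    · by_cases h : z = y
      · rw [h]
        exact mem_union_left _ hyD
      · exact mem_union_right _ (mem_union_left _ ((hAm z).2 ⟨h, hz, hdz⟩))
    · rw [mem_singleton.1 hd] at hdz
      by_cases h : z = x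
      · rw [h]
        exact mem_union_left _ hxD
      · exact mem_union_right _ (mem_union_right _ ((hBm z).2 ⟨h, hz, hdz⟩))
  have hcard : (D ∪ W).card = 6 := by rw [card_union_of_disjoint hDWd, hDc, hWc]
  have hsum : ∑ z ∈ D ∪ W, dg H U z = 18 := by
    have h1 : ∀ z ∈ D ∪ W, dg H U z = 3 := by
      intro z hz
      rcases mem_union.1 hz with h | h
      · rcases mem_insert.1 h with rfl | h
        · exact hdx
        · rw [mem_singleton.1 h]
          exact hdy
      · exact hW3 z h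
    rw [sum_congr rfl h1, sum_const, hcard]
    rfl
  have he2 : e2 H (D ∪ W) ≤ 10 := by
    unfold e2
    rw [sum_union hDWd]
    have h1 : ∑ z ∈ D, dg H (D ∪ W) z ≤ ∑ _z ∈ D, 3 := by
      refine sum_le_sum fun z hz => (dg_mono H hDWU z).trans ?_
      rcases mem_insert.1 hz with rfl | h
      · exact hdx.le
      · rw [mem_singleton.1 h]
        exact hdy.le
    have h2 : ∑ z ∈ W, dg H (D ∪ W) z ≤ ∑ _z ∈ W, 1 := by
      refine sum_le_sum fun z hz => ?_
      unfold dg
      rw [card_le_one]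
      have hone : ∀ t ∈ (D ∪ W).filter (fun s => H.Adj z s),
          (z ∈ A ∧ t = x) ∨ (z ∈ B ∧ t = y) := by
        intro t ht
        obtain ⟨ht1, ht2⟩ := (LFCases_mem H).1 ht
        rcases mem_union.1 hz with hzA | hzB
        · left
          refine ⟨hzA, ?_⟩
          obtain ⟨hzy, hzU, hxz⟩ := (hAm z).1 hzA
          rcases mem_union.1 ht1 with h | h
          · rcases mem_insert.1 h with rfl | h
            · rfl
            · rw [mem_singleton.1 h] at ht2
              exact absurd ht2.symm fun h' => hG.1 x y z hxy h' hxz.symm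
          · rcases mem_union.1 h with h | h
            · exact absurd ht2 fun h' => hG.1 x z t hxz h' ((hAm t).1 h).2.2.symm
            · exact absurd ht2 fun h' => hG.2 x z t y (Ne.symm ((hBm t).1 h).1) hzy hxz h'
                ((hBm t).1 h).2.2.symm hxy.symm
        · right
          refine ⟨hzB, ?_⟩
          obtain ⟨hzx, hzU, hyz⟩ := (hBm z).1 hzB
          rcases mem_union.1 ht1 with h | h
          · rcases mem_insert.1 h with rfl | h
            · exact absurd ht2.symm fun h' => hG.1 _ y z hxy hyz h'.symm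
            · exact mem_singleton.1 h
          · rcases mem_union.1 h with h | h
            · exact absurd ht2 fun h' => hG.2 y z t x (Ne.symm ((hAm t).1 h).1) hzx hyz h'
                ((hAm t).1 h).2.2.symm hxy
            · exact absurd ht2 fun h' => hG.1 y z t hyz h' ((hBm t).1 h).2.2.symm
      intro s hs t ht
      rcases hone s hs with ⟨h1, h2⟩ | ⟨h1, h2⟩ <;> rcases hone t ht with ⟨h3, h4⟩ | ⟨h3, h4⟩
      · rw [h2, h4]
      · exact absurd h3 (disjoint_left.1 hAB h1)
      · exact absurd h1 (disjoint_left.1 hAB h3)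
      · rw [h2, h4]
    rw [sum_const, hDc, smul_eq_mul] at h1
    rw [sum_const, hWc, smul_eq_mul] at h2
    omega
  refine red H (D := D) (W := W) (L0 := D) (c0 := 0) hDU hWU hsep (Subset.refl D)
    (LFCases_small H hDc.le) ?_ ?_
  · exact IH _ (LFCases_ssub hx (mem_union_left _ hxD))
  · rw [hsum, hcard, hDc]
    omega

end Pool.Agent.helper54.LFP
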