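import Mathlib
import Pool.Agent.helper54.LFP.LFRed

/-! [LFP-L2] Two adjacent vertices of degree at most two give a gain of 6. (proofs: helper41) -/

namespace Pool.Agent.helper54.LFP

open Finset

variable {V : Type} [Fintype V] [DecidableEq V] (H : SimpleGraph V) [DecidableRel H.Adj]

omit [Fintype V] in
private theorem dg_insert' {K : Finset V} {z : V} (hz : z ∉ K) (v : V) :
    dg H (insert z K) v = dg H K v + if H.Adj v z then 1 else 0 := by
  unfold dg
  rw [filter_insert]
  split_ifs with h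
  · rw [card_insert_of_notMem (by simp [hz])]
  · simp

omit [Fintype V] [DecidableEq V] in
private theorem sum_dg_comm' (A B : Finset V) :
    ∑ v ∈ A, dg H B v = ∑ w ∈ B, dg H A w := by
  unfold dg
  simp only [card_filter]
  rw [sum_comm]
  refine sum_congr rfl fun w _ => sum_congr rfl fun v _ => ?_
  simp only [H.adj_comm]

omit [Fintype V] in
private theorem e2_insert' {K : Finset V} {z : V} (hz : z ∉ K) :
    e2 H (insert z K) = e2 H K + 2 * dg H K z := by
  unfold e2
  rw [sum_insert hz, dg_insert' H hz z, sum_congr rfl (fun v _ => dg_insert' H hz v),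
    sum_add_distrib]
  have h1 : (∑ v ∈ K, if H.Adj v z then 1 else 0) = dg H K z := by
    unfold dg
    rw [card_filter]
    refine sum_congr rfl fun v _ => ?_
    simp only [H.adj_comm]
  rw [h1, if_neg (H.irrefl)]
  ring

omit [Fintype V] in
private theorem dg_union' {A B : Finset V} (hAB : Disjoint A B) (v : V) :
    dg H (A ∪ B) v = dg H A v + dg H B v := by
  unfold dg
  rw [filter_union, card_union_of_disjoint (disjoint_filter_filter hAB)]

omit [Fintype V] in
private theorem e2_union' {A B : Finset V} (hAB : Disjoint A B) :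
    e2 H (A ∪ B) = e2 H A + e2 H B + 2 * ∑ v ∈ A, dg H B v := by
  unfold e2
  rw [sum_union hAB, sum_congr rfl (fun v _ => dg_union' H hAB v), sum_add_distrib,
    sum_congr rfl (fun v _ => dg_union' H hAB v), sum_add_distrib, sum_dg_comm' H B A]
  ring

private theorem closed_of_two' {U K Z : Finset V} (hKU : K ⊆ U) (hZK : Z ⊆ K)
    (hd : ∀ v ∈ K, dg H U v ≤ 2) (hZ : ∀ v ∈ Z, 2 ≤ dg H Z v) :
    ∀ z ∈ Z, ∀ w ∈ K, H.Adj z w → w ∈ Z := by
  intro z hz w hw hzw
  by_contra hwZ
  have h1 := dg_insert' H hwZ z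
  rw [if_pos hzw] at h1
  have h2 : dg H (insert w Z) z ≤ dg H U z :=
    dg_mono H (insert_subset (hKU hw) (hZK.trans hKU)) z
  have h3 := hd z (hZK hz)
  have h4 := hZ z hz
  omega

/-- Existence of the thread. Let `T = {v ∈ U : dg U v ≤ 2}`.
Proof: consider the sets `K ⊆ T` with `x ∈ K`, `y ∈ K`, `2 (|K| - 1) ≤ e2 K`, which are connected in
the sense of the fourth statement; `{x, y}` is one; take one of maximal cardinality. If `z ∈ T \ K`
is adjacent to `k ∈ K` then `insert z K` has the same properties (`e2` grows by at least `2`;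
connectedness: let `Z ⊆ insert z K` be nonempty and closed; if `Z ∩ K` is empty then `Z = {z}` and
`k ∈ Z` by closedness, contradiction; so `Z ∩ K` is nonempty and closed in `K`, so `K ⊆ Z`, and
`z ∈ Z` because `k ∈ Z`). -/
theorem exists_thread {U : Finset V} {x y : V} (hx : x ∈ U) (hy : y ∈ U) (hxy : H.Adj x y)
    (hdx : dg H U x ≤ 2) (hdy : dg H U y ≤ 2) :
    ∃ K ⊆ U, x ∈ K ∧ y ∈ K ∧ (∀ v ∈ K, dg H U v ≤ 2) ∧ 2 * K.card ≤ e2 H K + 2 ∧
      (∀ Z ⊆ K, Z.Nonempty → (∀ z ∈ Z, ∀ w ∈ K, H.Adj z w → w ∈ Z) → Z = K) ∧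
      (∀ k ∈ K, ∀ z ∈ U, H.Adj k z → z ∉ K → 3 ≤ dg H U z) := by
  classical
  let P : Finset V → Prop := fun K => x ∈ K ∧ y ∈ K ∧ (∀ v ∈ K, dg H U v ≤ 2) ∧
    2 * K.card ≤ e2 H K + 2 ∧
      (∀ Z ⊆ K, Z.Nonempty → (∀ z ∈ Z, ∀ w ∈ K, H.Adj z w → w ∈ Z) → Z = K)
  have hstep : ∀ K : Finset V, P K → ∀ k ∈ K, ∀ z, H.Adj k z → z ∉ K → dg H U z ≤ 2 →
      P (insert z K) := by
    rintro K ⟨hxK, hyK, hd, hc, hcl⟩ k hk z hkz hzK hdz
    have h1 : 1 ≤ dg H K z := by
      unfold dg
      exact card_pos.mpr ⟨k, by simp [hk, hkz.symm]⟩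
    refine ⟨mem_insert_of_mem hxK, mem_insert_of_mem hyK, ?_, ?_, ?_⟩
    · intro v hv
      rcases mem_insert.mp hv with rfl | hv
      · exact hdz
      · exact hd v hv
    · rw [e2_insert' H hzK, card_insert_of_notMem hzK]
      omega
    · intro Z hZ hne hclZ
      have h2 : (Z ∩ K).Nonempty := by
        by_contra hemp
        rw [not_nonempty_iff_eq_empty] at hemp
        have hzZ : z ∈ Z := by
          obtain ⟨u, hu⟩ := hne
          rcases mem_insert.mp (hZ hu) with rfl | huK
          · exact hu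
          · have : u ∈ Z ∩ K := mem_inter.mpr ⟨hu, huK⟩
            rw [hemp] at this
            simp at this
        have hkZ : k ∈ Z := hclZ z hzZ k (mem_insert_of_mem hk) hkz.symm
        have : k ∈ Z ∩ K := mem_inter.mpr ⟨hkZ, hk⟩
        rw [hemp] at this
        simp at this
      have h3 : Z ∩ K = K := by
        refine hcl (Z ∩ K) inter_subset_right h2 ?_
        intro u hu w hw huw
        exact mem_inter.mpr ⟨hclZ u (mem_inter.mp hu).1 w (mem_insert_of_mem hw) huw, hw⟩
      have h4 : K ⊆ Z := by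
        rw [← h3]
        exact inter_subset_left
      have hzZ : z ∈ Z := hclZ k (h4 hk) z (mem_insert_self z K) hkz
      exact Subset.antisymm hZ (insert_subset hzZ h4)
  have hxyne : x ≠ y := H.ne_of_adj hxy
  have hbase : P {x, y} := by
    have hy1 : x ∉ ({y} : Finset V) := by simp [hxyne]
    refine ⟨by simp, by simp, ?_, ?_, ?_⟩
    · intro v hv
      rcases mem_insert.mp hv with rfl | hv
      · exact hdx
      · rw [mem_singleton.mp hv]
        exact hdy
    · rw [e2_insert' H hy1, card_insert_of_notMem hy1, card_singleton]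
      have h1 : 1 ≤ dg H {y} x := by
        unfold dg
        exact card_pos.mpr ⟨y, by simp [hxy]⟩
      omega
    · intro Z hZ hne hclZ
      obtain ⟨u, hu⟩ := hne
      have huK := hZ hu
      have hboth : x ∈ Z ∧ y ∈ Z := by
        rcases mem_insert.mp huK with rfl | huK
        · exact ⟨hu, hclZ u hu y (by simp) hxy⟩
        · rw [mem_singleton] at huK
          subst huK
          exact ⟨hclZ u hu x (by simp) hxy.symm, hu⟩
      refine Subset.antisymm hZ ?_
      intro v hv
      rcases mem_insert.mp hv with rfl | hv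
      · exact hboth.1
      · rw [mem_singleton.mp hv]
        exact hboth.2
  have hbU : ({x, y} : Finset V) ⊆ U := by
    intro v hv
    rcases mem_insert.mp hv with rfl | hv
    · exact hx
    · rw [mem_singleton.mp hv]
      exact hy
  obtain ⟨K, hK, hmax⟩ := exists_max_image (U.powerset.filter P) card
    ⟨{x, y}, mem_filter.mpr ⟨mem_powerset.mpr hbU, hbase⟩⟩
  obtain ⟨hKU, hPK⟩ := mem_filter.mp hK
  rw [mem_powerset] at hKU
  refine ⟨K, hKU, hPK.1, hPK.2.1, hPK.2.2.1, hPK.2.2.2.1, hPK.2.2.2.2, ?_⟩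
  intro k hk z hz hkz hzK
  by_contra hlt
  have h1 := hstep K hPK k hk z hkz hzK (by omega)
  have h2 := hmax (insert z K) (mem_filter.mpr ⟨mem_powerset.mpr (insert_subset hz hKU), h1⟩)
  rw [card_insert_of_notMem hzK] at h2
  omega

/-- Proof. Take `K` from `exists_thread`, `k = |K| ≥ 2`, and let `W` be the set of vertices of
`U \ K` adjacent to a vertex of `K`; they have degree exactly `3` in `U`. Apply `red` with `D = K`,
`W`, `c0 = 0`, `c = 6`. Let `∂` be the number of edges between `K` and `W`: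
`Σ_{v ∈ K} dg U v = e2 K + ∂ ≤ 2 k` and `2 k - 2 ≤ e2 K`, so `∂ ≤ 2`, `|W| ≤ ∂ ≤ 2`; and
`e2 K` is even (or: use `2k-2 ≤ e2 K ≤ 2k` and treat `2k-1` too). `e2 (K ∪ W) = e2 K + 2 ∂ + e2 W`.
The value `34 |L0| + 10 Σ_{K ∪ W} dg U - 33 |K ∪ W| - 5 e2 (K ∪ W)` equals
`34 |L0| + 5 e2 K - 33 k - 3 |W| - 5 e2 W`, using `Σ_W dg U = 3 |W|`.
(i) `e2 K = 2 k`: then `∂ = 0`, `W = ∅`, every vertex of `K` has exactly two neighbours in `K`.
`k ≥ 5`, at least `k ≥ 4`: the two neighbours of `x` are distinct and not adjacent (no triangle) and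
a neighbour of `x` has a second neighbour different from `x` and from the other neighbour of `x`.
Take `L0 = K \ {x}`. `Lin`: degrees at most two; if `Z ⊆ K \ {x}` is nonempty and all its vertices
have degree `≥ 2` in `Z`, then (degrees in `U` are at most `2`) `Z` is closed in `K`, so `Z = K ∋ x`,
contradiction. Value `34 (k - 1) + 10 k - 33 k = 11 k - 34 ≥ 10`.
(ii) `e2 K < 2 k`: some vertex of `K` has degree at most one in `K`; so `K` is `Lin`: if
`Z ⊆ K` nonempty has all degrees `≥ 2` in `Z` then `Z` is closed in `K`, `Z = K`, contradiction.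
Take `L0 = K`. Value `34 k + 5 e2 K - 33 k - 3 |W| - 5 e2 W ≥ 11 k - 10 - 3 |W| - 5 e2 W`.
If `|W| ≤ 1` then `e2 W = 0` and the value is `≥ 22 - 13 = 9`. If `|W| = 2` and the two vertices of
`W` are not adjacent, `e2 W = 0`, value `≥ 22 - 16 = 6`. If `|W| = 2` and `w1 ~ w2` then `e2 W = 2`
and the value is `≥ 11 k - 26`, fine for `k ≥ 3`. If `k = 2`, `K = {x, y}`: `w1` and `w2` are
adjacent to `x` or `y`; if both are adjacent to `x` then `dg U x ≥ 3`; if `w1 ~ x`, `w2 ~ y` then
`w1 x y w2` is a 4-cycle; (`w1` adjacent to both `x` and `y` is a triangle). -/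
theorem thread (hG : Girth5 H) {U : Finset V} (IH : ∀ U' ⊂ U, OKc H U' 0)
    (hdeg : ∀ v ∈ U, dg H U v ≤ 3) {x y : V} (hx : x ∈ U) (hy : y ∈ U) (hxy : H.Adj x y)
    (hdx : dg H U x ≤ 2) (hdy : dg H U y ≤ 2) : OKc H U 6 := by
  classical
  obtain ⟨K, hKU, hxK, hyK, hd, hc, hcl, h3⟩ := exists_thread H hx hy hxy hdx hdy
  obtain ⟨W, hWdef⟩ : ∃ W, W = (U \ K).filter (fun w => ∃ k ∈ K, H.Adj k w) := ⟨_, rfl⟩
  have hWm : ∀ w, w ∈ W ↔ (w ∈ U ∧ w ∉ K) ∧ ∃ k ∈ K, H.Adj k w := by
    intro w
    rw [hWdef, mem_filter, mem_sdiff]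
  have hWU : W ⊆ U := fun w hw => ((hWm w).mp hw).1.1
  have hKW : Disjoint K W := by
    rw [disjoint_left]
    intro v hv hvW
    exact ((hWm v).mp hvW).1.2 hv
  have hsep : ∀ d ∈ K, ∀ v ∈ U, H.Adj d v → v ∈ K ∪ W := by
    intro d hdK v hv hdv
    by_cases hvK : v ∈ K
    · exact mem_union_left _ hvK
    · exact mem_union_right _ ((hWm v).mpr ⟨⟨hv, hvK⟩, d, hdK, hdv⟩)
  have hrest : OKc H (U \ (K ∪ W)) 0 := by
    apply IH
    refine ssubset_of_subset_of_ne sdiff_subset ?_
    intro h
    have : x ∈ U \ (K ∪ W) := by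
      rw [h]
      exact hx
    exact (mem_sdiff.mp this).2 (mem_union_left _ hxK)
  -- numbers
  have hKdeg : ∀ v ∈ K, dg H U v = dg H K v + dg H W v := by
    intro v hv
    rw [← dg_union' H hKW v]
    refine le_antisymm ?_ (dg_mono H (union_subset hKU hWU) v)
    unfold dg
    refine card_le_card ?_
    intro w hw
    rw [mem_filter] at hw ⊢
    exact ⟨hsep v hv w hw.1 hw.2, hw.2⟩
  have hWdeg : ∀ w ∈ W, dg H U w = 3 := by
    intro w hw
    obtain ⟨⟨hwU, hwK⟩, k, hk, hkw⟩ := (hWm w).mp hw
    exact le_antisymm (hdeg w hwU) (h3 k hk w hwU hkw hwK)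
  have hsumK : ∑ v ∈ K, dg H U v = e2 H K + ∑ v ∈ K, dg H W v := by
    rw [sum_congr rfl hKdeg, sum_add_distrib]
    rfl
  have hsumK2 : ∑ v ∈ K, dg H U v ≤ 2 * K.card := by
    calc ∑ v ∈ K, dg H U v ≤ ∑ v ∈ K, 2 := sum_le_sum hd
      _ = 2 * K.card := by rw [sum_const, smul_eq_mul, mul_comm]
  have hsumW : ∑ w ∈ W, dg H U w = 3 * W.card := by
    rw [sum_congr rfl hWdeg, sum_const, smul_eq_mul, mul_comm]
  have hWle : W.card ≤ ∑ v ∈ K, dg H W v := by
    rw [sum_dg_comm' H K W]
    calc W.card = ∑ w ∈ W, 1 := by simp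
      _ ≤ ∑ w ∈ W, dg H K w := by
        refine sum_le_sum fun w hw => ?_
        obtain ⟨-, k, hk, hkw⟩ := (hWm w).mp hw
        unfold dg
        exact card_pos.mpr ⟨k, by simp [hk, hkw.symm]⟩
  have he2u := e2_union' H hKW
  have hcard : (K ∪ W).card = K.card + W.card := card_union_of_disjoint hKW
  have hsumKW : ∑ v ∈ K ∪ W, dg H U v = ∑ v ∈ K, dg H U v + ∑ v ∈ W, dg H U v :=
    sum_union hKW
  have hLin2 : ∀ L ⊆ K, ∀ v ∈ L, dg H L v ≤ 2 := fun L hL v hv =>
    (dg_mono H (hL.trans hKU) v).trans (hd v (hL hv))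
  have hxy2 : 2 ≤ K.card := by
    have : ({x, y} : Finset V) ⊆ K := by
      intro v hv
      rcases mem_insert.mp hv with rfl | hv
      · exact hxK
      · rw [mem_singleton.mp hv]
        exact hyK
    calc 2 = ({x, y} : Finset V).card := (card_pair (H.ne_of_adj hxy)).symm
      _ ≤ K.card := card_le_card this
  have he2K : e2 H K ≤ 2 * K.card := by
    rw [hsumK] at hsumK2
    omega
  rcases Nat.lt_or_ge (e2 H K) (2 * K.card) with hlt | hge
  · -- path
    have hex : ∃ v ∈ K, dg H K v ≤ 1 := by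
      by_contra hno
      push Not at hno
      have : ∑ v ∈ K, 2 ≤ ∑ v ∈ K, dg H K v := sum_le_sum fun v hv => hno v hv
      rw [sum_const, smul_eq_mul] at this
      have h5 : e2 H K = ∑ v ∈ K, dg H K v := rfl
      omega
    have hlin : Lin H K := by
      refine ⟨hLin2 K Subset.rfl, ?_⟩
      intro Z hZ hne
      by_contra hno
      push Not at hno
      have hZK := hcl Z hZ hne (closed_of_two' H hKU hZ hd fun v hv => hno v hv)
      obtain ⟨v, hv, hv1⟩ := hex
      have := hno v (hZK ▸ hv)
      rw [hZK] at this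
      omega
    have hkey : 3 * W.card + 5 * e2 H W + 6 ≤ K.card + 5 * e2 H K := by
      have hW2 : W.card ≤ 2 := by omega
      by_cases he : e2 H W = 0
      · omega
      · -- two adjacent vertices in `W`
        have hexW : ∃ w1 ∈ W, ∃ w2 ∈ W, H.Adj w1 w2 := by
          by_contra hno
          push Not at hno
          apply he
          unfold e2
          refine sum_eq_zero fun v hv => ?_
          unfold dg
          rw [card_eq_zero, filter_eq_empty_iff]
          exact fun w hw => hno v hv w hw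
        obtain ⟨w1, hw1, w2, hw2, hw12⟩ := hexW
        have he2W : e2 H W ≤ 2 := by
          unfold e2
          calc ∑ v ∈ W, dg H W v ≤ ∑ v ∈ W, 1 := by
                refine sum_le_sum fun v hv => ?_
                have h5 : (W.filter (fun w => H.Adj v w)) ⊆ W.erase v := by
                  intro w hw
                  rw [mem_filter] at hw
                  exact mem_erase.mpr ⟨(H.ne_of_adj hw.2).symm, hw.1⟩
                have h6 := card_le_card h5
                rw [card_erase_of_mem hv] at h6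
                unfold dg
                omega
            _ = W.card := by simp
            _ ≤ 2 := hW2
        by_cases hK3 : 3 ≤ K.card
        · omega
        · exfalso
          have hK2 : K = {x, y} := by
            symm
            refine eq_of_subset_of_card_le ?_ ?_
            · intro v hv
              rcases mem_insert.mp hv with rfl | hv
              · exact hxK
              · rw [mem_singleton.mp hv]
                exact hyK
            · rw [card_pair (H.ne_of_adj hxy)]
              omega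
          obtain ⟨⟨-, hn1⟩, k1, hk1, ha1⟩ := (hWm w1).mp hw1
          obtain ⟨⟨-, hn2⟩, k2, hk2, ha2⟩ := (hWm w2).mp hw2
          have hxw1 : w1 ≠ x := fun h => hn1 (h ▸ hxK)
          have hxw2 : w2 ≠ x := fun h => hn2 (h ▸ hxK)
          have hyw1 : w1 ≠ y := fun h => hn1 (h ▸ hyK)
          have hyw2 : w2 ≠ y := fun h => hn2 (h ▸ hyK)
          rw [hK2, mem_insert, mem_singleton] at hk1 hk2
          rcases hk1 with rfl | rfl <;> rcases hk2 with rfl | rfl
          · exact hG.1 _ _ _ ha1 hw12 ha2.symm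
          · exact hG.2 _ _ _ _ hxw2.symm hyw1 ha1 hw12 ha2.symm hxy.symm
          · exact hG.2 _ _ _ _ hyw2.symm hxw1 ha1 hw12 ha2.symm hxy
          · exact hG.1 _ _ _ ha1 hw12 ha2.symm
    refine red H hKU hWU hsep Subset.rfl hlin hrest ?_
    rw [hcard, hsumKW, hsumW, he2u, hsumK]
    omega
  · -- circuit
    have hW0 : W.card = 0 := by omega
    have hWe : W = ∅ := card_eq_zero.mp hW0
    have hdeg2 : ∀ v ∈ K, dg H K v = 2 := by
      have h5 : ∀ v ∈ K, dg H K v ≤ 2 := hLin2 K Subset.rfl
      have h6 : ∑ v ∈ K, dg H K v = ∑ v ∈ K, 2 := by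
        rw [sum_const, smul_eq_mul]
        have h7 : e2 H K = ∑ v ∈ K, dg H K v := rfl
        omega
      exact (sum_eq_sum_iff_of_le h5).mp h6
    have h4 : 4 ≤ K.card := by
      have h5 := hdeg2 x hxK
      unfold dg at h5
      obtain ⟨a, b, hab, hset⟩ := card_eq_two.mp h5
      have ha : a ∈ K ∧ H.Adj x a := by
        have : a ∈ K.filter (fun w => H.Adj x w) := by rw [hset]; simp
        exact mem_filter.mp this
      have hb : b ∈ K ∧ H.Adj x b := by
        have : b ∈ K.filter (fun w => H.Adj x w) := by rw [hset]; simp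
        exact mem_filter.mp this
      have h6 := hdeg2 a ha.1
      unfold dg at h6
      obtain ⟨c, hc1, hc2⟩ : ∃ c ∈ K.filter (fun w => H.Adj a w), c ≠ x :=
        exists_mem_ne (by omega) x
      rw [mem_filter] at hc1
      have hcb : c ≠ b := by
        rintro rfl
        exact hG.1 _ _ _ ha.2 hc1.2 hb.2.symm
      have hca : c ≠ a := (H.ne_of_adj hc1.2).symm
      have hxa : x ≠ a := H.ne_of_adj ha.2
      have hxb : x ≠ b := H.ne_of_adj hb.2
      have hsub : ({x, a, b, c} : Finset V) ⊆ K := by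
        intro v hv
        simp only [mem_insert, mem_singleton] at hv
        rcases hv with rfl | rfl | rfl | rfl
        · exact hxK
        · exact ha.1
        · exact hb.1
        · exact hc1.1
      have hcardS : ({x, a, b, c} : Finset V).card = 4 := by
        rw [card_insert_of_notMem, card_insert_of_notMem, card_pair hcb.symm]
        · simp [hab, hca.symm]
        · simp [hxa, hxb, hc2.symm]
      rw [← hcardS]
      exact card_le_card hsub
    have hlin : Lin H (K.erase x) := by
      refine ⟨hLin2 _ (erase_subset x K), ?_⟩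
      intro Z hZ hne
      by_contra hno
      push Not at hno
      have hZK' : Z ⊆ K := hZ.trans (erase_subset x K)
      have hZK := hcl Z hZK' hne (closed_of_two' H hKU hZK' hd fun v hv => hno v hv)
      rw [hZK] at hZ
      exact notMem_erase x K (hZ hxK)
    refine red H hKU hWU hsep (erase_subset x K) hlin hrest ?_
    rw [hcard, hsumKW, hsumW, he2u, hsumK, card_erase_of_mem hxK]
    have h8 : e2 H W = 0 := by rw [hWe]; simp [e2]
    omega

end Pool.Agent.helper54.LFP
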