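import Mathlib
import Pool.Agent.helper54.LFP.LFThread

/-! [LFP-L3] The structure of a minimal counterexample. -/

namespace Pool.Agent.helper54.LFP

open Finset

variable {V : Type} [Fintype V] [DecidableEq V] (H : SimpleGraph V) [DecidableRel H.Adj]

/-- Proof. A vertex `v ∈ U` with `dg U v ≥ 4`: `del` (with `c = c0 = 0`) gives `OKc U 0`. A vertex
`v ∈ U` with `dg U v = 0`: `red` with `D = L0 = {v}`, `W = ∅`. -/
theorem min_deg {U : Finset V} (IH : ∀ U' ⊂ U, OKc H U' 0) (hno : ¬ OKc H U 0) :
    ∀ v ∈ U, 1 ≤ dg H U v ∧ dg H U v ≤ 3 := by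
  intro v hv
  have hss : U.erase v ⊂ U := Finset.erase_ssubset hv
  refine ⟨?_, ?_⟩
  · by_contra hlt
    have h0 : dg H U v = 0 := by omega
    have hne : ∀ x ∈ U, ¬ H.Adj v x := by
      intro x hx hadj
      have : x ∈ U.filter (fun w => H.Adj v w) := Finset.mem_filter.2 ⟨hx, hadj⟩
      unfold dg at h0
      rw [Finset.card_eq_zero] at h0
      rw [h0] at this
      exact absurd this (Finset.notMem_empty x)
    have hdv : dg H {v} v = 0 := by
      unfold dg
      rw [Finset.card_eq_zero]
      ext x
      simp only [Finset.mem_filter, Finset.mem_singleton, Finset.notMem_empty, iff_false, not_and]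
      rintro rfl
      exact H.irrefl
    apply hno
    have hUe : U \ ({v} ∪ ∅) = U.erase v := by
      rw [Finset.union_empty, Finset.sdiff_singleton_eq_erase]
    refine red H (D := {v}) (W := ∅) (L0 := {v}) (c0 := 0) (Finset.singleton_subset_iff.2 hv)
      (Finset.empty_subset _) ?_ (Finset.Subset.refl _) ?_ ?_ ?_
    · intro d hd x hx hadj
      rw [Finset.mem_singleton] at hd
      subst hd
      exact absurd hadj (hne x hx)
    · refine ⟨?_, ?_⟩
      · intro u hu
        rw [Finset.mem_singleton] at hu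
        subst hu
        rw [hdv]
        omega
      · intro Z hZ hZn
        have hZe : Z = {v} := by
          obtain ⟨z, hz⟩ := hZn
          apply Finset.Subset.antisymm hZ
          have : z = v := Finset.mem_singleton.1 (hZ hz)
          subst this
          exact Finset.singleton_subset_iff.2 hz
        subst hZe
        exact ⟨v, Finset.mem_singleton_self v, by rw [hdv]; omega⟩
    · rw [hUe]
      exact IH _ hss
    · have h1 : ({v} ∪ ∅ : Finset V) = {v} := Finset.union_empty _
      rw [h1]
      have h2 : e2 H {v} = 0 := by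
        unfold e2
        rw [Finset.sum_singleton, hdv]
      rw [h2, Finset.card_singleton]
      omega
  · by_contra hlt
    apply hno
    exact del H hv (IH _ hss) (by omega)

/-- Proof: otherwise both have degree at most `2` (`min_deg`) and `thread` gives `OKc U 6`, so
`OKc U 0`. -/
theorem min_adj (hG : Girth5 H) {U : Finset V} (IH : ∀ U' ⊂ U, OKc H U' 0)
    (hno : ¬ OKc H U 0) {x y : V} (hx : x ∈ U) (hy : y ∈ U) (hxy : H.Adj x y) :
    dg H U x = 3 ∨ dg H U y = 3 := by
  by_contra hcon
  push Not at hcon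
  obtain ⟨h1, h2⟩ := hcon
  have hm := min_deg H IH hno
  have hdx : dg H U x ≤ 2 := by
    have := hm x hx
    omega
  have hdy : dg H U y ≤ 2 := by
    have := hm y hy
    omega
  obtain ⟨L, hLU, hL, hv⟩ := thread H hG IH (fun v hv => (hm v hv).2) hx hy hxy hdx hdy
  exact hno ⟨L, hLU, hL, by omega⟩

/-- Proof: suppose `dg U z ≤ 2`. In `U' = U.erase x` the vertex `y` has degree `dg U y - 1 ≤ 2`, and
`z` has degree at most `2`; `y`, `z ∈ U'` are adjacent. `thread` for `U'` (its proper subsets are
proper subsets of `U`) gives `OKc U' 6`; `del` gives `OKc U 3` (`33 + 3 ≤ 10 * 3 + 6`). -/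
theorem min_path (hG : Girth5 H) {U : Finset V} (IH : ∀ U' ⊂ U, OKc H U' 0)
    (hno : ¬ OKc H U 0) {x y z : V} (hx : x ∈ U) (hy : y ∈ U) (hz : z ∈ U) (hxy : H.Adj x y)
    (hyz : H.Adj y z) (hxz : x ≠ z) (hdx : dg H U x = 3) : dg H U z = 3 := by
  by_contra hcon
  have hm := min_deg H IH hno
  have hdz : dg H U z ≤ 2 := by
    have := hm z hz
    omega
  have hss : U.erase x ⊂ U := Finset.erase_ssubset hx
  have hyx : y ≠ x := fun h => by
    subst h
    exact H.irrefl hxy
  have hy' : y ∈ U.erase x := Finset.mem_erase.2 ⟨hyx, hy⟩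
  have hz' : z ∈ U.erase x := Finset.mem_erase.2 ⟨fun h => hxz h.symm, hz⟩
  have hdy : dg H (U.erase x) y ≤ 2 := by
    have h3 := (hm y hy).2
    have hlt : dg H (U.erase x) y < dg H U y := by
      unfold dg
      apply Finset.card_lt_card
      refine ⟨Finset.filter_subset_filter _ (Finset.erase_subset _ _), ?_⟩
      intro hsub
      have hmem : x ∈ (U.erase x).filter (fun w => H.Adj y w) :=
        hsub (Finset.mem_filter.2 ⟨hx, hxy.symm⟩)
      exact (Finset.mem_erase.1 (Finset.mem_filter.1 hmem).1).1 rfl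
    omega
  have hdz' : dg H (U.erase x) z ≤ 2 :=
    le_trans (dg_mono H (Finset.erase_subset _ _) z) hdz
  have ht : OKc H (U.erase x) 6 := by
    refine thread H hG (fun U' hU' => IH U' (hU'.trans hss)) ?_ hy' hz' hyz hdy hdz'
    intro v hv
    exact le_trans (dg_mono H (Finset.erase_subset _ _) v) (hm v (Finset.mem_of_mem_erase hv)).2
  exact hno (del H hx ht (by omega))

end Pool.Agent.helper54.LFP
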