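import Mathlib
import Pool.Agent.helper54.LFP.LFRule
import Pool.Agent.helper54.LFP.LFCases

/-! [LFP-L5] Every graph without 3- and 4-cycles has an induced linear forest with at least
`(33 N - 10 e) / 34` vertices. -/

namespace Pool.Agent.helper54.LFP

open Finset

variable {V : Type} [Fintype V] [DecidableEq V] (H : SimpleGraph V) [DecidableRel H.Adj]

/-- Proof: strong induction on `U` (`Finset.strongInduction`). Assume `¬ OKc U 0`; `U` is nonempty
(`OKc ∅ 0` is trivial). `min_deg`, `min_adj`. If there are adjacent `x y ∈ U` of degree `3`, then by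
`min_path` all neighbours of `x` and of `y` have degree `3` (for `z ~ x`, `z ≠ y`, use the path
`y x z`), and `cubic_case` gives `OKc U 0`. Otherwise `star_case`. -/
theorem lf_main (hG : Girth5 H) (U : Finset V) : OKc H U 0 := by
  induction U using Finset.strongInduction with
  | H U IH =>
    by_contra hno
    have hne : U.Nonempty := by
      by_contra h
      rw [Finset.not_nonempty_iff_eq_empty] at h
      subst h
      refine hno ⟨∅, Finset.Subset.refl _, ⟨by simp, ?_⟩, by simp [e2]⟩
      intro Z hZ hZ'
      rw [Finset.subset_empty] at hZ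
      subst hZ
      exact absurd hZ' Finset.not_nonempty_empty
    have hdeg := min_deg H IH hno
    have hT : ∀ x ∈ U, ∀ y ∈ U, H.Adj x y → dg H U x = 3 ∨ dg H U y = 3 :=
      fun x hx y hy hxy => min_adj H hG IH hno hx hy hxy
    by_cases hI : ∃ x ∈ U, ∃ y ∈ U, H.Adj x y ∧ dg H U x = 3 ∧ dg H U y = 3
    · obtain ⟨x, hx, y, hy, hxy, hdx, hdy⟩ := hI
      refine hno (cubic_case H hG IH hx hy hxy hdx hdy ?_ ?_)
      · intro z hz hxz
        by_cases hzy : z = y
        · rw [hzy]; exact hdy
        · exact min_path H hG IH hno hy hx hz hxy.symm hxz (Ne.symm hzy) hdy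
      · intro z hz hyz
        by_cases hzx : z = x
        · rw [hzx]; exact hdx
        · exact min_path H hG IH hno hx hy hz hxy hyz (Ne.symm hzx) hdx
    · refine hno (star_case H hG IH hne hdeg hT ?_)
      intro x hx y hy hxy hd
      exact hI ⟨x, hx, y, hy, hxy, hd.1, hd.2⟩

end Pool.Agent.helper54.LFP
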