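import Mathlib
import Pool.Agent.helper54.LFP.TColor
import Pool.Agent.helper54.LFP.LFMain
import Pool.Agent.helper54.LFP.LFAcyclic

/-! [LFP-T6] Planar graphs have induced linear forests on at least `23 n / 68` vertices. -/

namespace Pool.Agent.helper54.LFP

open Finset

variable {V : Type} [Fintype V] [DecidableEq V]

/-- `S` induces a linear forest: the induced subgraph is acyclic and has maximum degree at most
two. -/
def IsLinearForest (G : SimpleGraph V) (S : Finset V) : Prop :=
  (G.induce (S : Set V)).IsAcyclic ∧ ∀ v ∈ S, {w | w ∈ S ∧ G.Adj v w}.ncard ≤ 2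

/-- A planar graph in the form of a spanning subgraph of the graph of a triangulated sphere (every
planar graph with at least four vertices is one); graphs with at most three vertices are
planar. -/
def IsPlanar (G : SimpleGraph V) : Prop :=
  Fintype.card V ≤ 3 ∨ ∃ T : SphereTri V, G ≤ T.graph

private theorem Final_small (G : SimpleGraph V) (S : Finset V) (hS : S.card ≤ 2) :
    IsLinearForest G S := by
  classical
  refine ⟨acyclic_of_degenerate G S ?_, ?_⟩
  · intro Z hZ hne
    obtain ⟨v, hv⟩ := hne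
    refine ⟨v, hv, ?_⟩
    have h1 : Z.filter (fun w => G.Adj v w) ⊆ Z.erase v := by
      intro w hw
      rw [mem_filter] at hw
      exact mem_erase.2 ⟨fun h => hw.2.ne h.symm, hw.1⟩
    have h2 := card_le_card h1
    rw [card_erase_of_mem hv] at h2
    have h3 := card_le_card hZ
    omega
  · intro v _
    have h1 : {w | w ∈ S ∧ G.Adj v w} ⊆ (S : Set V) := fun w hw => hw.1
    have h2 := Set.ncard_le_ncard h1 (S.finite_toSet)
    rw [Set.ncard_coe_finset] at h2
    omega

private theorem Final_sub (H G : SimpleGraph V) [DecidableRel H.Adj] (L S : Finset V)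
    (hL : Lin H L) (hSL : S ⊆ L) (hGH : ∀ v ∈ S, ∀ w ∈ S, G.Adj v w → H.Adj v w) :
    IsLinearForest G S := by
  classical
  refine ⟨acyclic_of_degenerate G S ?_, ?_⟩
  · intro Z hZ hne
    obtain ⟨v, hv, hd⟩ := hL.2 Z (hZ.trans hSL) hne
    refine ⟨v, hv, le_trans (card_le_card ?_) hd⟩
    intro w hw
    rw [mem_filter] at hw ⊢
    exact ⟨hw.1, hGH v (hZ hv) w (hZ hw.1) hw.2⟩
  · intro v hv
    have h1 : {w | w ∈ S ∧ G.Adj v w} ⊆ ((L.filter (fun w => H.Adj v w) : Finset V) : Set V) := by
      intro w hw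
      rw [mem_coe, mem_filter]
      exact ⟨hSL hw.1, hGH v hv w hw.1 hw.2⟩
    have h2 := Set.ncard_le_ncard h1 (Finset.finite_toSet _)
    rw [Set.ncard_coe_finset] at h2
    exact h2.trans (hL.1 v (hSL hv))

/-- Proof: `exists_coloring` gives `S`; `lf_main` for `H = mono T S` and `U = univ` gives `L` with
`33 n ≤ 34 |L| + 5 (2 n - 4)`, i.e. `23 n + 20 ≤ 34 |L|`. `S1 = L ∩ S`, `S2 = L \ S`. The graph `G`
restricted to `S1` is a subgraph of `mono T S` restricted to `S1`, so degrees into subsets of `S1`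
are not larger; `acyclic_of_degenerate`. -/
theorem tri_two (T : SphereTri V) (G : SimpleGraph V) (hG : G ≤ T.graph) :
    ∃ S1 S2 : Finset V, Disjoint S1 S2 ∧ IsLinearForest G S1 ∧ IsLinearForest G S2 ∧
      23 * Fintype.card V + 20 ≤ 34 * (S1.card + S2.card) := by
  classical
  obtain ⟨S, hS⟩ := exists_coloring T
  obtain ⟨hg, he⟩ := hS
  letI : DecidableRel (mono T S).Adj := Classical.decRel _
  obtain ⟨L, -, hL, hcard⟩ := lf_main (mono T S) hg univ
  refine ⟨L ∩ S, L \ S, ?_, ?_, ?_, ?_⟩
  · rw [disjoint_left]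
    intro x hx hx2
    exact (mem_sdiff.1 hx2).2 (mem_inter.1 hx).2
  · refine Final_sub (mono T S) G L (L ∩ S) hL inter_subset_left ?_
    intro v hv w hw hvw
    exact ⟨hG hvw, ⟨fun _ => (mem_inter.1 hw).2, fun _ => (mem_inter.1 hv).2⟩⟩
  · refine Final_sub (mono T S) G L (L \ S) hL sdiff_subset ?_
    intro v hv w hw hvw
    exact ⟨hG hvw, ⟨fun h => absurd h (mem_sdiff.1 hv).2, fun h => absurd h (mem_sdiff.1 hw).2⟩⟩
  · have h1 : (L ∩ S).card + (L \ S).card = L.card := card_inter_add_card_sdiff L S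
    rw [h1]
    rw [card_univ] at hcard
    omega

/-- Proof: for `n ≥ 4` vertices use `tri_two`; for `n ≤ 3` vertices: `S1` = a set of
`min n 2` vertices and `S2` the complement; `23 n ≤ 34 n`. -/
theorem main_two (G : SimpleGraph V) (hG : IsPlanar G) :
    ∃ S1 S2 : Finset V, Disjoint S1 S2 ∧ IsLinearForest G S1 ∧ IsLinearForest G S2 ∧
      23 * Fintype.card V ≤ 34 * (S1.card + S2.card) := by
  classical
  rcases hG with h3 | ⟨T, hT⟩
  · obtain ⟨S1, -, hS1⟩ := exists_subset_card_eq (s := (univ : Finset V))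
      (n := min (Fintype.card V) 2) (by rw [card_univ]; exact min_le_left _ _)
    have hc : S1ᶜ.card = Fintype.card V - S1.card := card_compl S1
    have hle : S1.card ≤ Fintype.card V := card_le_univ S1
    refine ⟨S1, S1ᶜ, disjoint_compl_right, Final_small G S1 ?_, Final_small G S1ᶜ ?_, ?_⟩
    · rw [hS1]
      exact min_le_right _ _
    · omega
    · omega
  · obtain ⟨S1, S2, h1, h2, h4, h5⟩ := tri_two T G hT
    exact ⟨S1, S2, h1, h2, h4, by omega⟩

end Pool.Agent.helper54.LFP
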